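import Pool.Agent.H93.SC.Tri

/-!
Families of disjoint stationary subsets of an ordinal are not longer than its cofinality.
-/

set_option autoImplicit false
set_option linter.unusedVariables false

namespace Pool.Agent.H93.SC

open ZFSet Gss969 Pool.Agent.H310.HD Pool.Agent.H93.HM

universe u

variable {l κ μ ν γ : Ordinal.{u}}

/-- Cofinalities are initial ordinals. -/
theorem Cf.card (h : Cf μ.toZFSet l.toZFSet) : μ.card.ord = μ := by
  classical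
  refine le_antisymm (Cardinal.ord_card_le μ) ?_
  by_contra hcon
  push Not at hcon
  have h1 : Cardinal.mk (Set.Iio μ.card.ord) = Cardinal.mk (Set.Iio μ) := by
    rw [Cardinal.mk_Iio_ordinal, Cardinal.mk_Iio_ordinal, Cardinal.card_ord]
  obtain ⟨eq⟩ := Cardinal.eq.1 h1
  obtain ⟨e, he1, he2⟩ := Cf.seq h
  obtain ⟨F, hF⟩ : ∃ F : Ordinal.{u} → Ordinal.{u}, ∀ i : Set.Iio μ.card.ord,
      F i.1 = e (eq i).1 := by
    refine ⟨fun i => if hi : i ∈ Set.Iio μ.card.ord then e (eq ⟨i, hi⟩).1 else 0, fun i => ?_⟩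
    exact dif_pos i.2
  refine h.2 _ (tz_mem.2 hcon) (cofN_seq (F := F) (fun i hi => ?_) fun x hx => ?_)
  · rw [hF ⟨i, hi⟩]
    exact he1 _ (eq ⟨i, hi⟩).2
  · obtain ⟨i, hi, h2⟩ := he2 x hx
    refine ⟨(eq.symm ⟨i, hi⟩).1, (eq.symm ⟨i, hi⟩).2, ?_⟩
    rw [hF (eq.symm ⟨i, hi⟩), Equiv.apply_symm_apply]
    exact h2

/-- Cofinalities are regular. -/
theorem Cf.self (h : Cf μ.toZFSet l.toZFSet) : Cf μ.toZFSet μ.toZFSet := by
  obtain ⟨m, hm, hm'⟩ := exists_Cf (Cf.limit h)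
  rcases hm.lt_or_eq with h1 | h1
  · exfalso
    obtain ⟨e, he1, he2⟩ := Cf.seq h
    obtain ⟨e', he1', he2'⟩ := Cf.seq hm'
    have hb : ∀ i < μ, ∃ b < l, ∀ j < i, e j < b := fun i hi =>
      h.uc i hi e fun j hj => he1 j (hj.trans hi)
    choose! b hb1 hb2 using hb
    refine h.2 _ (tz_mem.2 h1) (cofN_seq (F := fun i => b (e' i)) (fun i hi =>
      hb1 _ (he1' i hi)) fun x hx => ?_)
    obtain ⟨j, hj, h3⟩ := he2 x hx
    obtain ⟨i, hi, h4⟩ := he2' j hj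
    exact ⟨i, hi, h3.trans (hb2 _ (he1' i hi) j h4)⟩
  · rwa [h1] at hm'

/-- **Disjoint stationary sets.** -/
theorem fam_card (hcf : Cf μ.toZFSet l.toZFSet) {c : Ordinal.{u}} {S g : ZFSet.{u}}
    (hg : DisjFam c.toZFSet l.toZFSet S g) : c.card ≤ μ.card := by
  classical
  obtain ⟨E, hE⟩ := club_small hcf
  obtain ⟨hf, h1, h2⟩ := hg
  have hex : ∀ i < c, ∃ j < μ, (Ordinal.toZFSet (E j)) ∈ app g i.toZFSet := by
    intro i hi
    have h3 := app_spec hf (tz_mem.2 hi)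
    have h4 := mem_powerset.1 (app_mem hf (tz_mem.2 hi))
    obtain ⟨x, hx, hx'⟩ := (h1 _ (tz_mem.2 hi) _ h4 h3).1 _ (fun z hz => (mem_sep.1 hz).1) hE
    obtain ⟨_, j, hj, rfl⟩ := mem_sep.1 hx'
    exact ⟨j, hj, hx⟩
  choose! J hJ1 hJ2 using hex
  have hinj : Function.Injective (fun i : Set.Iio c => (⟨J i.1, hJ1 i.1 i.2⟩ : Set.Iio μ)) := by
    rintro ⟨i, hi⟩ ⟨i', hi'⟩ h
    have h' : J i = J i' := congrArg Subtype.val h
    have h3 := hJ2 i hi
    have h4 := hJ2 i' hi'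
    rw [h'] at h3
    have h5 := h2 _ (tz_mem.2 hi) _ (tz_mem.2 hi') _
      (mem_powerset.1 (app_mem hf (tz_mem.2 hi))) _
      (mem_powerset.1 (app_mem hf (tz_mem.2 hi'))) (app_spec hf (tz_mem.2 hi))
      (app_spec hf (tz_mem.2 hi')) ⟨_, h3, h4⟩
    exact Subtype.ext (Ordinal.toZFSet_injective h5)
  have h3 := Cardinal.mk_le_of_injective hinj
  rwa [Cardinal.mk_Iio_ordinal, Cardinal.mk_Iio_ordinal, Cardinal.lift_le] at h3

/-- **Solovay's theorem in `HOD` for stationary sets of ordinals singular in `HOD`.** -/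
theorem split_or_block' (hreg : HODReg l) (hcf : Cf μ.toZFSet l.toZFSet)
    (hω : Ordinal.omega0 < μ) (hν0 : 0 < ν) (hνμ : ν < μ) {S : ZFSet.{u}} (hSO : HOD S)
    (hSν : S ⊆ SCf l.toZFSet ν.toZFSet)
    (hst : StatL {α | α.toZFSet ∈ S ∧ ¬ HODReg α} l) :
    (l.card = μ.card ∧ ∃ g, HOD g ∧ DisjFam l.toZFSet l.toZFSet S g) ∨
      ∃ θ < l, Block ν μ θ l := by
  rcases split_or_block hreg hcf hω hν0 hνμ hSO hSν hst with ⟨g, hg, hF⟩ | h
  · exact Or.inl ⟨le_antisymm (fam_card hcf hF) (Ordinal.card_le_card (Cf.le hcf)), g, hg, hF⟩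
  · exact Or.inr h

theorem Block.unique {θ θ' ν' : Ordinal.{u}} (h : Block ν μ θ l) (h' : Block ν' μ θ' l)
    (hν : ν < μ) (hν' : ν' < μ) (hθ : θ < l) (hθ' : θ' < l) : θ = θ' := by
  rcases lt_trichotomy θ θ' with h1 | h1 | h1
  · exfalso
    obtain ⟨θ'', h2, h3, h4, h5⟩ := h'.lim θ h1
    exact absurd hν' (not_lt.2 (Cf.unique (h.same θ'' h2 (h3.trans hθ').le h4) h5).le)
  · exact h1
  · exfalso
    obtain ⟨θ'', h2, h3, h4, h5⟩ := h.lim θ' h1
    exact absurd hν (not_lt.2 (Cf.unique (h'.same θ'' h2 (h3.trans hθ).le h4) h5).le)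

/-- **The trichotomy.** -/
theorem trichotomy' (hreg : HODReg l) (hcf : Cf μ.toZFSet l.toZFSet)
    (hω : Ordinal.omega0 < μ) :
    (∃ C, C ⊆ l.toZFSet ∧ Club C l.toZFSet ∧ ∀ α : Ordinal.{u}, α.toZFSet ∈ C → HODReg α) ∨
    (l.card = μ.card ∧
      ∃ g, HOD g ∧ DisjFam l.toZFSet l.toZFSet (SCf l.toZFSet Ordinal.omega0.toZFSet) g) ∨
    ∃ θ < l, Block Ordinal.omega0 μ θ l := by
  by_cases hst : StatL {α | Cf Ordinal.omega0.toZFSet α.toZFSet ∧ ¬ HODReg α} l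
  · right
    obtain ⟨S, hSO, hSν, hSm⟩ := sing_set l Ordinal.omega0_pos
    rcases split_or_block' hreg hcf hω Ordinal.omega0_pos hω hSO hSν (hst.mono fun α hα h =>
      ⟨(hSm α).2 ⟨hα, h⟩, h.2⟩) with ⟨h1, g, hg, hF⟩ | ⟨θ, hθ, hB⟩
    · exact Or.inl ⟨h1, g, hg, hF.mono hSν⟩
    · exact Or.inr ⟨θ, hθ, hB⟩
  · exact Or.inl (club_regs hcf hω hst)

/-- **The dichotomy** for ordinals of cardinality larger than their cofinality. -/
theorem dichotomy_card (hreg : HODReg l) (hcf : Cf μ.toZFSet l.toZFSet)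
    (hω : Ordinal.omega0 < μ) (hc : μ.card < l.card) :
    (∃ C, C ⊆ l.toZFSet ∧ Club C l.toZFSet ∧ ∀ α : Ordinal.{u}, α.toZFSet ∈ C → HODReg α) ∨
    ∃ θ < l, ∀ ν < μ, Rg ν → Block ν μ θ l := by
  rcases trichotomy' hreg hcf hω with h | ⟨h, _⟩ | ⟨θ, hθ, hB⟩
  · exact Or.inl h
  · exact absurd hc (not_lt.2 h.le)
  · refine Or.inr ⟨θ, hθ, fun ν hν hνr => ?_⟩
    obtain ⟨S, hSO, hSν, hSm⟩ := sing_set l hνr.1
    rcases split_or_block' hreg hcf hω hνr.1 hν hSO hSν ((hB.stat hθ hcf hω hν hνr).mono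
      fun α hα h => ⟨(hSm α).2 ⟨hα, h⟩, h.2⟩) with ⟨h1, _⟩ | ⟨θ', hθ', hB'⟩
    · exact absurd hc (not_lt.2 h1.le)
    · rwa [hB.unique hB' hω hν hθ hθ']

/-- **The cofinalities of the regular cardinals of `HOD`.** -/
theorem gap (hreg : HODReg l) (hcf : Cf μ.toZFSet l.toZFSet) (hω : Ordinal.omega0 < μ)
    (hν : Rg ν) (hνμ : ν < μ) {a : Ordinal.{u}} (hal : a < l) :
    (∀ b, a ≤ b → b ≤ l → HODReg b → Cf μ.toZFSet b.toZFSet) ∨
    (∃ b, a < b ∧ b < l ∧ HODReg b ∧ Cf ν.toZFSet b.toZFSet) ∨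
    (l.card = μ.card ∧
      ∃ g, HOD g ∧ DisjFam l.toZFSet l.toZFSet (SCf l.toZFSet ν.toZFSet) g) := by
  by_cases hst : StatL {α | Cf ν.toZFSet α.toZFSet ∧ ¬ HODReg α} l
  · obtain ⟨S, hSO, hSν, hSm⟩ := sing_set l hν.1
    rcases split_or_block' hreg hcf hω hν.1 hνμ hSO hSν (hst.mono fun α hα h =>
      ⟨(hSm α).2 ⟨hα, h⟩, h.2⟩) with ⟨h1, g, hg, hF⟩ | ⟨θ, hθ, hB⟩
    · exact Or.inr (Or.inr ⟨h1, g, hg, hF.mono hSν⟩)
    · by_cases hθa : θ ≤ a
      · exact Or.inl fun b h1 h2 h3 => hB.same b (hθa.trans h1) h2 h3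
      · push Not at hθa
        obtain ⟨b, h1, h2, h3, h4⟩ := hB.lim _ (hB.cof.lim a hθa)
        exact Or.inr (Or.inl ⟨b, (Order.lt_succ a).trans_le h1, h2.trans hθ, h3, h4⟩)
  · right
    left
    have h2 : StatL {β | β.toZFSet ∈ SCf l.toZFSet ν.toZFSet} l :=
      stat_SCf hcf.uc le_rfl hνμ hν
    rcases statTwo hcf.lim hcf.uc hω h2 (fun α => HODReg α) with h3 | h3
    · obtain ⟨b, hb, ⟨h4, h5⟩, h6⟩ := statNe hcf.lim (stat_club hcf.lim hcf.uc hω h3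
        (fun z hz => (mem_sep.1 hz).1) (club_tail hcf.lim hal))
      exact ⟨b, tz_mem.1 (mem_sep.1 h6).2, hb, h5, (mem_SCf.1 h4).2⟩
    · exact (hst (h3.mono fun α _ h => ⟨(mem_SCf.1 h.1).2, h.2⟩)).elim

/-- **The cofinality of the successor of a cardinal in `HOD`.** -/
theorem succ_cof (hγω : Ordinal.omega0 ≤ γ) (hγ : IsCard γ.toZFSet) (hs : HSucc γ l)
    (hcf : Cf μ.toZFSet l.toZFSet) :
    l = (Order.succ γ.card).ord ∨ μ = Ordinal.omega0 ∨ Cf μ.toZFSet γ.toZFSet := by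
  by_cases hμω : μ = Ordinal.omega0
  · exact Or.inr (Or.inl hμω)
  have hω : Ordinal.omega0 < μ := lt_of_le_of_ne (Cf.om_le (bot_le.trans_lt hs.1) hcf)
    (Ne.symm hμω)
  have h0 : Cardinal.aleph0 ≤ γ.card := by
    have := Ordinal.card_le_card hγω
    rwa [Ordinal.card_omega0] at this
  have hγc : γ.card.ord = γ := by
    refine le_antisymm (Cardinal.ord_card_le γ) ?_
    by_contra hcon
    push Not at hcon
    have := hγ.card_lt hcon
    rw [Cardinal.card_ord] at this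
    exact absurd this (lt_irrefl _)
  have hreg : RegUnc (Order.succ γ.card).ord.toZFSet :=
    regUnc_ord (Cardinal.isRegular_succ h0) (h0.trans_lt (Order.lt_succ _))
  have hγs : γ < (Order.succ γ.card).ord := by
    rw [Cardinal.lt_ord]
    exact Order.lt_succ _
  rcases lt_trichotomy l (Order.succ γ.card).ord with h1 | h1 | h1
  · right
    right
    have h2 : l.card = γ.card := by
      refine le_antisymm ?_ (Ordinal.card_le_card hs.1.le)
      rw [Cardinal.lt_ord] at h1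
      exact Order.lt_succ_iff.1 h1
    by_cases hc : l.card = μ.card
    · have h3 : μ = γ := by
        rw [← Cf.card hcf, ← hc, h2, hγc]
      rw [← h3]
      exact Cf.self hcf
    · have h3 : StatL {β | β.toZFSet ∈ SCf l.toZFSet Ordinal.omega0.toZFSet} l :=
        stat_SCf hcf.uc le_rfl hω rg_omega0
      obtain ⟨S, hSO, hSν, hSm⟩ := sing_set l Ordinal.omega0_pos
      rcases split_or_block' hs.2.1 hcf hω Ordinal.omega0_pos hω hSO hSν
        ((hs.stat hcf hω h3).mono fun α hα h => ⟨(hSm α).2 ⟨hα, (mem_SCf.1 h.1).2, h.2⟩, h.2⟩)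
        with ⟨h4, _⟩ | ⟨θ, hθ, hB⟩
      · exact absurd h4 hc
      · exact hB.eq hω hθ hs (Or.inl hγ)
  · exact Or.inl h1
  · exact absurd (hodReg_of_regUnc hreg) (hs.2.2 _ hγs h1)

end Pool.Agent.H93.SC
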