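import Pool.Agent.H93.SC.Hcof

/-!
The choice in `HOD` of small cofinal subsets.
-/

set_option autoImplicit false
set_option linter.unusedVariables false

namespace Pool.Agent.H93.SC

open ZFSet Gss969 Pool.Agent.H310.HD Pool.Agent.H93.HM

universe u

variable {l κ : Ordinal.{u}}

theorem HOD_prod (a b : Ordinal.{u}) : HOD (prod a.toZFSet b.toZFSet) := by
  refine HOD_def (R := fun y x => (∀ p ∈ y, ∃ a ∈ x 0, ∃ b ∈ x 1, p = pair a b) ∧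
    ∀ a ∈ x 0, ∀ b ∈ x 1, pair a b ∈ y) ?_ [a.toZFSet, b.toZFSet] ?_ (fun y => ?_)
    fun p hp => ?_
  · repeat' first
      | exact dfn_pm Gd_Trs _ _ _ | exact dfn_pair Gd_Trs _ _ _
      | refine Dfn.and ?_ ?_ | refine Dfn.ball Gd_Trs _ ?_ | refine Dfn.bex Gd_Trs _ ?_
  · intro p hp
    simp only [List.mem_cons, List.not_mem_nil, or_false] at hp
    rcases hp with rfl | rfl
    · exact OD_ord _
    · exact OD_ord _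
  · show ((∀ p ∈ y, ∃ x ∈ a.toZFSet, ∃ x' ∈ b.toZFSet, p = pair x x') ∧
      ∀ x ∈ a.toZFSet, ∀ x' ∈ b.toZFSet, pair x x' ∈ y) ↔ _
    constructor
    · rintro ⟨h1, h2⟩
      ext p
      rw [mem_prod]
      constructor
      · intro hp
        exact h1 p hp
      · rintro ⟨x, hx, x', hx', rfl⟩
        exact h2 x hx x' hx'
    · rintro rfl
      exact ⟨fun p hp => mem_prod.1 hp, fun x hx x' hx' => pair_mem_prod.2 ⟨hx, hx'⟩⟩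
  · obtain ⟨x, hx, y, hy, rfl⟩ := mem_prod.1 hp
    obtain ⟨x, _, rfl⟩ := Ordinal.mem_toZFSet_iff.1 hx
    obtain ⟨y, _, rfl⟩ := Ordinal.mem_toZFSet_iff.1 hy
    exact HOD_pair (HOD_ord x) (HOD_ord y)

/-- Relations in `HOD`. -/
theorem HOD_rel {A : ZFSet.{u} → ZFSet.{u} → (ℕ → ZFSet.{u}) → Prop}
    (hA : Dfn Gd.{u} (fun v => A (v 0) (v 1) (fun n => v (n + 2)))) (a b : Ordinal.{u})
    (ps : List ZFSet.{u}) (hps : ∀ p ∈ ps, OD p) :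
    HOD (ZFSet.sep (fun p => ∃ x y, p = pair x y ∧ A x y (pl ps))
      (prod a.toZFSet b.toZFSet)) := by
  refine HOD_sepG (A := fun p v => ∃ x y, p = pair x y ∧ A x y v) ?_ (HOD_prod a b) ps hps
  refine Dfn_unpair Gd_Trs 0 (A := fun x y v => A x y (fun n => v (n + 1))) ?_
  exact Dfn_reindex hA (fun n => if n = 0 then 1 else if n = 1 then 0 else n + 1)

theorem mem_rel {B : ZFSet.{u} → ZFSet.{u} → Prop} {a b : Ordinal.{u}} {x y : ZFSet.{u}} :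
    pair x y ∈ ZFSet.sep (fun p => ∃ x y, p = pair x y ∧ B x y) (prod a.toZFSet b.toZFSet) ↔
      x ∈ a.toZFSet ∧ y ∈ b.toZFSet ∧ B x y := by
  rw [mem_sep, pair_mem_prod]
  constructor
  · rintro ⟨h1, x', y', h2, h3⟩
    rw [pair_inj] at h2
    obtain ⟨rfl, rfl⟩ := h2
    exact ⟨h1.1, h1.2, h3⟩
  · rintro ⟨h1, h2, h3⟩
    exact ⟨⟨h1, h2⟩, x, y, rfl, h3⟩

theorem Dfn_exfunG (i l : ℕ) {A : ZFSet.{u} → (ℕ → ZFSet.{u}) → Prop}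
    (h : Dfn Gd (fun w => A (w 0) (fun n => w (n + 1)))) :
    Dfn Gd (fun v => ∃ s, IsFunc (v i) (v l) s ∧ A s v) :=
  Dfn.ex (A := fun s v => IsFunc (v i) (v l) s ∧ A s v)
    ((dfn_isFunc Gd_Trs (i + 1) (l + 1) 0).and h)
    fun U hU v hv ⟨a, ha⟩ => ⟨a, Lvl_func (Gd_Lvl hU) (hv i) (hv l) ha.1, ha⟩

/-- Substitution of a pair. -/
theorem Dfn_pairG (i j : ℕ) {A : ZFSet.{u} → (ℕ → ZFSet.{u}) → Prop}
    (h : Dfn Gd (fun w => A (w 0) (fun n => w (n + 1)))) :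
    Dfn Gd (fun v => A (pair (v i) (v j)) v) := by
  refine Dfn.congr (A := fun v => ∃ p, p = pair (v i) (v j) ∧ A p v) (Dfn.ex ?_ ?_) fun v => ?_
  · exact (dfn_pair Gd_Trs _ _ _).and h
  · rintro U hU v hv ⟨p, h1, h2⟩
    exact ⟨p, h1 ▸ Lvl_pair (Gd_Lvl hU) (hv i) (hv j), h1, h2⟩
  · constructor
    · rintro ⟨p, rfl, h⟩
      exact h
    · intro h
      exact ⟨_, rfl, h⟩

/-- **The choice.** -/
theorem exists_Yg {Ψ : ZFSet.{u} → ZFSet.{u} → ZFSet.{u} → Prop}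
    (hΨ : Dfn Gd.{u} (fun v => Ψ (v 0) (v 1) (v 2))) (l κ : Ordinal.{u}) : ∃ Y, HOD Y ∧
    ∀ x < l, (∃ T, T ⊆ l.toZFSet ∧ Ψ T (pair x.toZFSet κ.toZFSet) l.toZFSet ∧
      ∀ z, (pair x.toZFSet z ∈ Y ↔ z ∈ T)) ∨
      ((¬ ∃ z, z ⊆ l.toZFSet ∧ HOD z ∧ Ψ z (pair x.toZFSet κ.toZFSet) l.toZFSet) ∧
        ∀ z, ¬ pair x.toZFSet z ∈ Y) := by
  classical
  obtain ⟨ρ, hρ⟩ := exists_rho l.toZFSet
  obtain ⟨ζ, hζ, hU⟩ := exists_Gd (max (max l κ) ρ)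
  have hin : ∀ α : Ordinal.{u}, α ≤ max (max l κ) ρ → α.toZFSet ∈ V_ ζ := by
    intro α hα
    rw [mem_vonNeumann, Ordinal.rank_toZFSet]
    exact hα.trans_lt hζ
  have hlU := hin l ((le_max_left _ _).trans (le_max_left _ _))
  have hκU := hin κ ((le_max_right _ _).trans (le_max_left _ _))
  have hρU := hin ρ (le_max_right _ _)
  obtain ⟨Y, hY⟩ : ∃ Y : ZFSet.{u}, Y = ZFSet.sep (fun p => ∃ x z, p = pair x z ∧
      ∃ T, T ⊆ l.toZFSet ∧ (Ch Ψ (V_ ζ) (pair l.toZFSet ρ.toZFSet) l.toZFSet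
        (pair x κ.toZFSet) T ∧ z ∈ T)) (prod l.toZFSet l.toZFSet) := ⟨_, rfl⟩
  have hYm : ∀ x z, pair x z ∈ Y ↔ x ∈ l.toZFSet ∧ z ∈ l.toZFSet ∧ ∃ T, T ⊆ l.toZFSet ∧
      (Ch Ψ (V_ ζ) (pair l.toZFSet ρ.toZFSet) l.toZFSet (pair x κ.toZFSet) T ∧ z ∈ T) := by
    intro x z
    rw [hY]
    exact mem_rel
  refine ⟨Y, ?_, fun x hx => ?_⟩
  · rw [hY]
    refine HOD_rel (A := fun x z v => ∃ T, T ⊆ v 0 ∧ (Ch Ψ (v 1) (v 2) (v 0)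
      (pair x (v 3)) T ∧ z ∈ T)) ?_ l l
      [l.toZFSet, V_ ζ, pair l.toZFSet ρ.toZFSet, κ.toZFSet] ?_
    · refine Dfn.exsub Gd_Lvl _ (Dfn.and ?_ (Dfn.mem _ _))
      exact Dfn_pairG 1 6 (A := fun p w => Ch Ψ (w 4) (w 5) (w 3) p (w 0))
        (dfn_Ch hΨ _ _ _ _ _)
    · intro p hp
      simp only [List.mem_cons, List.not_mem_nil, or_false] at hp
      rcases hp with rfl | rfl | rfl | rfl
      · exact OD_ord _
      · exact OD_lev ζ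
      · exact (HOD_pair (HOD_ord _) (HOD_ord _)).od
      · exact OD_ord _
  · by_cases h : ∃ T, Ch Ψ (V_ ζ) (pair l.toZFSet ρ.toZFSet) l.toZFSet
      (pair x.toZFSet κ.toZFSet) T
    · left
      obtain ⟨T, hT⟩ := h
      refine ⟨T, hT.sub, hT.prop, fun z => ⟨fun hz => ?_, fun hz => ?_⟩⟩
      · obtain ⟨_, _, T', _, hT', hzT⟩ := (hYm _ _).1 hz
        rwa [Ch.unique hT' hT] at hzT
      · exact (hYm _ _).2 ⟨tz_mem.2 hx, hT.sub hz, T, hT.sub, hT, hz⟩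
    · right
      refine ⟨fun hex => h ?_, fun z hz => ?_⟩
      · exact exists_ch hΨ hU (Lvl_pair (Gd_Lvl hU)
          (hin x (hx.le.trans ((le_max_left _ _).trans (le_max_left _ _)))) hκU)
          hlU hρU hρ hex
      · obtain ⟨_, _, T', _, hT', _⟩ := (hYm _ _).1 hz
        exact h ⟨T', hT'⟩

/-- `Y` is a cofinal subset of `a`, where `R = (a, k)`, and it is contained in the range of a function
in `HOD` on an element of `k`. -/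
def Psi (Y R L : ZFSet.{u}) : Prop :=
  ∃ a k, R = pair a k ∧ (Y ⊆ a ∧ ((∀ y ∈ a, ∃ z ∈ Y, y ∈ z) ∧
    ∃ γ ∈ k, ∃ f, IsFunc γ L f ∧ (HOD f ∧ ∀ z ∈ Y, ∃ j ∈ γ, pair j z ∈ f)))

theorem dfn_Psi : Dfn Gd.{u} (fun v => Psi (v 0) (v 1) (v 2)) := by
  unfold Psi
  refine Dfn_unpair Gd_Trs 1 (A := fun a k v => v 0 ⊆ a ∧ ((∀ y ∈ a, ∃ z ∈ v 0, y ∈ z) ∧
    ∃ γ ∈ k, ∃ f, IsFunc γ (v 2) f ∧ (HOD f ∧ ∀ z ∈ v 0, ∃ j ∈ γ, pair j z ∈ f))) ?_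
  refine (dfn_sub Gd_Trs _ _).and (Dfn.and ?_ ?_)
  · exact Dfn.ball Gd_Trs _ (Dfn.bex Gd_Trs _ (Dfn.mem _ _))
  · refine Dfn.bex Gd_Trs _ (Dfn_exfunG _ _ ((dfn_HOD _).and ?_))
    exact Dfn.ball Gd_Trs _ (Dfn.bex Gd_Trs _ (dfn_pm Gd_Trs _ _ _))

/-- The cofinality of `a` in `HOD` is less than `κ`. -/
def SCof (κ a : Ordinal.{u}) : Prop := ∃ γ < κ, ∃ f, HOD f ∧ Cofi γ.toZFSet a.toZFSet f

theorem ord_sub {x l : Ordinal.{u}} (hx : x ≤ l) : x.toZFSet ⊆ l.toZFSet := fun z hz => by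
  obtain ⟨z, hz', rfl⟩ := Ordinal.mem_toZFSet_iff.1 hz
  exact tz_mem.2 (hz'.trans_le hx)

theorem func_mono {a b c f : ZFSet.{u}} (hf : IsFunc a b f) (hbc : b ⊆ c) : IsFunc a c f := by
  refine ⟨fun p hp => ?_, hf.2⟩
  obtain ⟨x, hx, y, hy, rfl⟩ := mem_prod.1 (hf.1 hp)
  exact pair_mem_prod.2 ⟨hx, hbc hy⟩

theorem HOD_range {f : ZFSet.{u}} (hf : HOD f) (γ x : Ordinal.{u}) :
    HOD (ZFSet.sep (fun z => ∃ j ∈ γ.toZFSet, pair j z ∈ f) x.toZFSet) := by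
  refine HOD_sepG (A := fun z x => ∃ j ∈ x 0, pair j z ∈ x 1) ?_ (HOD_ord x)
    [γ.toZFSet, f] ?_
  · exact Dfn.bex Gd_Trs _ (dfn_pm Gd_Trs _ _ _)
  · intro p hp
    simp only [List.mem_cons, List.not_mem_nil, or_false] at hp
    rcases hp with rfl | rfl
    · exact OD_ord _
    · exact hf.od

/-- Small cofinal subsets. -/
theorem exists_Y (l κ : Ordinal.{u}) : ∃ Y, HOD Y ∧
    (∀ x < l, SCof κ x → ∀ y < x, ∃ z < x, y < z ∧ pair x.toZFSet z.toZFSet ∈ Y) ∧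
    ∀ x < l, (∃ γ < κ, ∃ f, HOD f ∧ IsFunc (Ordinal.toZFSet γ) l.toZFSet f ∧
      ∀ z, pair x.toZFSet z ∈ Y → ∃ j ∈ Ordinal.toZFSet γ, pair j z ∈ f) ∨
      ∀ z, ¬ pair x.toZFSet z ∈ Y := by
  obtain ⟨Y, hYO, hY⟩ := exists_Yg dfn_Psi l κ
  refine ⟨Y, hYO, fun x hx hsc => ?_, fun x hx => ?_⟩
  · rcases hY x hx with ⟨T, hT, ⟨a, k, hak, hTa, hTc, _⟩, hTY⟩ | ⟨h1, _⟩
    · rw [pair_inj] at hak
      obtain ⟨rfl, rfl⟩ := hak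
      intro y hy
      obtain ⟨z, hz, hyz⟩ := hTc _ (tz_mem.2 hy)
      obtain ⟨z, hz', rfl⟩ := Ordinal.mem_toZFSet_iff.1 (hTa hz)
      exact ⟨z, hz', tz_mem.1 hyz, (hTY _).2 hz⟩
    · exfalso
      refine h1 ?_
      obtain ⟨γ, hγ, f, hf, hF⟩ := hsc
      obtain ⟨h1, h2⟩ := Cofi.seq hF
      have hxl : x.toZFSet ⊆ l.toZFSet := ord_sub hx.le
      refine ⟨ZFSet.sep (fun z => ∃ j ∈ γ.toZFSet, pair j z ∈ f) x.toZFSet,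
        fun z hz => hxl (mem_sep.1 hz).1, HOD_range hf γ x, _, _, rfl,
        fun z hz => (mem_sep.1 hz).1, ?_,
        _, tz_mem.2 hγ, f, func_mono hF.1 hxl, hf, fun z hz => (mem_sep.1 hz).2⟩
      intro y hy
      obtain ⟨y, hy', rfl⟩ := Ordinal.mem_toZFSet_iff.1 hy
      obtain ⟨i, hi, h3⟩ := h2 y hy'
      exact ⟨_, mem_sep.2 ⟨tz_mem.2 (h1 i hi).1, _, tz_mem.2 hi, (h1 i hi).2⟩, tz_mem.2 h3⟩
  · rcases hY x hx with ⟨T, hT, ⟨a, k, hak, _, _, γ, hγ, f, hf, hfO, hfT⟩, hTY⟩ | ⟨_, h1⟩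
    · left
      rw [pair_inj] at hak
      obtain ⟨rfl, rfl⟩ := hak
      obtain ⟨γ, hγ', rfl⟩ := Ordinal.mem_toZFSet_iff.1 hγ
      exact ⟨γ, hγ', f, hfO, hf, fun z hz => hfT z ((hTY z).1 hz)⟩
    · exact Or.inr h1

/-- `Y` is a cofinal subset of `a`, where `R = (a, k)`, all of whose bounded subsets are contained in
the range of a function in `HOD` on an element of `k`. -/
def Psi2 (Y R L : ZFSet.{u}) : Prop :=
  ∃ a k, R = pair a k ∧ (Y ⊆ a ∧ ((∀ y ∈ a, ∃ z ∈ Y, y ∈ z) ∧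
    ∀ y ∈ a, ∃ γ ∈ k, ∃ f, IsFunc γ L f ∧ (HOD f ∧ ∀ z ∈ Y, z ∈ y → ∃ j ∈ γ, pair j z ∈ f)))

theorem dfn_Psi2 : Dfn Gd.{u} (fun v => Psi2 (v 0) (v 1) (v 2)) := by
  unfold Psi2
  refine Dfn_unpair Gd_Trs 1 (A := fun a k v => v 0 ⊆ a ∧ ((∀ y ∈ a, ∃ z ∈ v 0, y ∈ z) ∧
    ∀ y ∈ a, ∃ γ ∈ k, ∃ f, IsFunc γ (v 2) f ∧
      (HOD f ∧ ∀ z ∈ v 0, z ∈ y → ∃ j ∈ γ, pair j z ∈ f))) ?_
  refine (dfn_sub Gd_Trs _ _).and (Dfn.and ?_ ?_)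
  · exact Dfn.ball Gd_Trs _ (Dfn.bex Gd_Trs _ (Dfn.mem _ _))
  · refine Dfn.ball Gd_Trs _ (Dfn.bex Gd_Trs _ (Dfn_exfunG _ _ ((dfn_HOD _).and ?_)))
    exact Dfn.ball Gd_Trs _ ((Dfn.mem _ _).imp (Dfn.bex Gd_Trs _ (dfn_pm Gd_Trs _ _ _)))

/-- Cofinal subsets with small bounded subsets. -/
theorem exists_Y2 (l θ : Ordinal.{u}) : ∃ Y, HOD Y ∧
    ∀ x < l, MCof θ x → (∀ y < x, ∃ z < x, y < z ∧ pair x.toZFSet z.toZFSet ∈ Y) ∧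
      ∀ y < x, ∃ γ < θ, ∃ f, HOD f ∧ IsFunc (Ordinal.toZFSet γ) l.toZFSet f ∧
      ∀ z, pair x.toZFSet z ∈ Y → z ∈ y.toZFSet → ∃ j ∈ Ordinal.toZFSet γ, pair j z ∈ f := by
  obtain ⟨Y, hYO, hY⟩ := exists_Yg dfn_Psi2 l θ
  refine ⟨Y, hYO, fun x hx hsc => ?_⟩
  rcases hY x hx with ⟨T, hT, ⟨a, k, hak, hTa, hTc, hTs⟩, hTY⟩ | ⟨h1, _⟩
  · rw [pair_inj] at hak
    obtain ⟨rfl, rfl⟩ := hak
    constructor
    · intro y hy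
      obtain ⟨z, hz, hyz⟩ := hTc _ (tz_mem.2 hy)
      obtain ⟨z, hz', rfl⟩ := Ordinal.mem_toZFSet_iff.1 (hTa hz)
      exact ⟨z, hz', tz_mem.1 hyz, (hTY _).2 hz⟩
    · intro y hy
      obtain ⟨γ, hγ, f, hf, hfO, hfT⟩ := hTs _ (tz_mem.2 hy)
      obtain ⟨γ, hγ', rfl⟩ := Ordinal.mem_toZFSet_iff.1 hγ
      exact ⟨γ, hγ', f, hfO, hf, fun z hz => hfT z ((hTY z).1 hz)⟩
  · exfalso
    refine h1 ?_
    obtain ⟨f, hf, hF, hmono⟩ := hsc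
    obtain ⟨h1, h2⟩ := Cofi.seq hF
    have hxl : x.toZFSet ⊆ l.toZFSet := ord_sub hx.le
    refine ⟨ZFSet.sep (fun z => ∃ j ∈ θ.toZFSet, pair j z ∈ f) x.toZFSet,
      fun z hz => hxl (mem_sep.1 hz).1, HOD_range hf θ x, _, _, rfl,
      fun z hz => (mem_sep.1 hz).1, ?_, ?_⟩
    · intro y hy
      obtain ⟨y, hy', rfl⟩ := Ordinal.mem_toZFSet_iff.1 hy
      obtain ⟨i, hi, h3⟩ := h2 y hy'
      exact ⟨_, mem_sep.2 ⟨tz_mem.2 (h1 i hi).1, _, tz_mem.2 hi, (h1 i hi).2⟩, tz_mem.2 h3⟩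
    · intro y hy
      obtain ⟨y, hy', rfl⟩ := Ordinal.mem_toZFSet_iff.1 hy
      obtain ⟨i, hi, h3⟩ := h2 y hy'
      refine ⟨_, tz_mem.2 hi, ZFSet.sep (fun z => ∃ a b, z = pair a b ∧ a ∈ i.toZFSet) f,
        ⟨fun p hp => ?_, fun j hj => ?_⟩, HOD_restr hf i, fun z hz hzy => ?_⟩
      · obtain ⟨hpf, a, b, rfl, ha⟩ := mem_sep.1 hp
        exact pair_mem_prod.2 ⟨ha, hxl (pair_mem_prod.1 (hF.1.1 hpf)).2⟩
      · obtain ⟨j, hj', rfl⟩ := Ordinal.mem_toZFSet_iff.1 hj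
        obtain ⟨w, hw, huniq⟩ := hF.1.2 j.toZFSet (tz_mem.2 (hj'.trans hi))
        exact ⟨w, mem_restr.2 ⟨hw, hj⟩, fun y hy => huniq y (mem_restr.1 hy).1⟩
      · obtain ⟨_, j, hj, hjz⟩ := mem_sep.1 hz
        refine ⟨j, ?_, mem_restr.2 ⟨hjz, ?_⟩⟩ <;>
        · obtain ⟨j, hj', rfl⟩ := Ordinal.mem_toZFSet_iff.1 hj
          refine tz_mem.2 ?_
          by_contra hcon
          push Not at hcon
          have h4 := hmono i j hcon hj'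
          obtain ⟨z, hz', rfl⟩ := Ordinal.mem_toZFSet_iff.1 (mem_sep.1 hz).1
          rw [(app_iff hF.1 hj).1 hjz, Ordinal.rank_toZFSet] at h4
          exact absurd ((tz_mem.1 hzy).trans h3) (not_lt.2 h4)

end Pool.Agent.H93.SC
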