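import Pool.Agent.H93.SC.Dich

/-!
Closed unbounded sets of regular cardinals of `HOD`.
-/

set_option autoImplicit false
set_option linter.unusedVariables false

namespace Pool.Agent.H93.SC

open ZFSet Gss969 Pool.Agent.H310.HD Pool.Agent.H93.HM

universe u

variable {l κ μ ν : Ordinal.{u}}

theorem Cf.om_le (hl0 : 0 < l) (h : Cf μ.toZFSet l.toZFSet) : Ordinal.omega0 ≤ μ := by
  have hlim := Cf.limit h
  have h0 : 0 < μ := by
    rcases (bot_le : (0 : Ordinal.{u}) ≤ μ).lt_or_eq with h1 | h1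
    · exact h1
    · exfalso
      obtain ⟨e, _, he⟩ := Cf.seq h
      obtain ⟨i, hi, _⟩ := he 0 hl0
      rw [← h1] at hi
      exact absurd hi (not_lt.2 bot_le)
  refine Ordinal.omega0_le.2 fun n => ?_
  have h2 : ∀ n : ℕ, (n : Ordinal.{u}) < μ := by
    intro n
    induction n with
    | zero => simpa using h0
    | succ n ih =>
      have := hlim _ ih
      rwa [Nat.cast_succ, ← Order.succ_eq_add_one]
  exact (h2 n).le

theorem cofN_seq {m β : Ordinal.{u}} {F : Ordinal.{u} → Ordinal.{u}} (h1 : ∀ i < m, F i < β)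
    (h2 : ∀ x < β, ∃ i < m, x < F i) : CofN m.toZFSet β.toZFSet := by
  refine ⟨gr m.toZFSet fun x => (F (rank x)).toZFSet, isFunc_gr fun x hx => ?_, fun x hx => ?_⟩
  · obtain ⟨i, hi, rfl⟩ := Ordinal.mem_toZFSet_iff.1 hx
    rw [Ordinal.rank_toZFSet]
    exact tz_mem.2 (h1 i hi)
  · obtain ⟨v, hv, rfl⟩ := Ordinal.mem_toZFSet_iff.1 hx
    obtain ⟨i, hi, h3⟩ := h2 v hv
    refine ⟨_, tz_mem.2 hi, _, tz_mem.2 (h1 i hi), ?_, tz_mem.2 h3⟩
    rw [pair_mem_gr, Ordinal.rank_toZFSet]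
    exact ⟨tz_mem.2 hi, rfl⟩

theorem cf_om_of_seq {β : Ordinal.{u}} {G : ℕ → Ordinal.{u}} (hβ : 0 < β)
    (hlim : ∀ x < β, Order.succ x < β) (h1 : ∀ n, G n < β) (h2 : ∀ x < β, ∃ n, x < G n) :
    Cf Ordinal.omega0.toZFSet β.toZFSet := by
  classical
  obtain ⟨m, _, hm⟩ := exists_Cf hlim
  have h3 : Ordinal.omega0 ≤ m := Cf.om_le hβ hm
  rcases h3.lt_or_eq with h4 | h4
  · exfalso
    refine hm.2 _ (tz_mem.2 h4) (cofN_seq (F := fun i => G (if h : ∃ n : ℕ, i = n then h.choose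
      else 0)) (fun i _ => h1 _) fun x hx => ?_)
    obtain ⟨n, hn⟩ := h2 x hx
    refine ⟨n, Ordinal.natCast_lt_omega0 n, ?_⟩
    have hex : ∃ n' : ℕ, (n : Ordinal.{u}) = n' := ⟨n, rfl⟩
    have h5 : hex.choose = n := by
      have := hex.choose_spec
      exact_mod_cast this.symm
    rw [dif_pos hex, h5]
    exact hn
  · rwa [h4]

/-- **Reflection.** Below an ordinal `α` of uncountable cofinality which is singular in `HOD`
stationary many ordinals of cofinality `ω` are singular in `HOD`. -/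
theorem sing_reflect {α : Ordinal.{u}} (hν : Ordinal.omega0 < ν)
    (hα : Cf ν.toZFSet α.toZFSet) (hs : ¬ HODReg α) {D : ZFSet.{u}} (hD1 : D ⊆ α.toZFSet)
    (hD2 : Club D α.toZFSet) :
    ∃ β < α, β.toZFSet ∈ D ∧ Cf Ordinal.omega0.toZFSet β.toZFSet ∧ ¬ HODReg β := by
  have hν0 : 0 < ν := bot_le.trans_lt hν
  obtain ⟨θ, hθα, hθr, hθc, ⟨f, hf, hF, hmono⟩, _⟩ := exists_hcof hν0 hα
  have hθα' : θ < α := lt_of_le_of_ne hθα fun h => hs (h ▸ hθr)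
  obtain ⟨hF1, hF2⟩ := Cofi.seq hF
  obtain ⟨F, hFe⟩ : ∃ F : Ordinal.{u} → Ordinal.{u}, F = fun i => rank (app f i.toZFSet) :=
    ⟨_, rfl⟩
  have hF1' : ∀ i < θ, F i < α ∧ pair i.toZFSet (F i).toZFSet ∈ f := by
    rw [hFe]; exact hF1
  have hF2' : ∀ x < α, ∃ i < θ, x < F i := by
    rw [hFe]; exact hF2
  have hmono' : ∀ i j : Ordinal.{u}, i ≤ j → j < θ → F i ≤ F j := by
    rw [hFe]; exact hmono
  choose! I hI1 hI2 using hF2'
  have hD : ∀ x < α, ∃ d < α, x < d ∧ d.toZFSet ∈ D := by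
    intro x hx
    obtain ⟨d, hd, hxd⟩ := hD2.2.1 _ (tz_mem.2 hx)
    obtain ⟨d, hd', rfl⟩ := Ordinal.mem_toZFSet_iff.1 (hD1 hd)
    exact ⟨d, hd', tz_mem.1 hxd, hd⟩
  choose! N hN1 hN2 hN3 using hD
  let G : ℕ → Ordinal.{u} := fun n => Nat.rec θ (fun _ γ => N (F (I γ))) n
  have hG : ∀ n, G n < α := by
    intro n
    induction n with
    | zero => exact hθα'
    | succ n ih => exact hN1 _ (hF1' _ (hI1 _ ih)).1
  have hGF : ∀ n, F (I (G n)) < G (n + 1) := fun n => hN2 _ (hF1' _ (hI1 _ (hG n))).1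
  have hFG : ∀ n, G n < F (I (G n)) := fun n => hI2 _ (hG n)
  have hII : ∀ n, I (G n) < I (G (n + 1)) := by
    intro n
    by_contra hcon
    push Not at hcon
    exact absurd ((hGF n).trans (hFG (n + 1)))
      (not_lt.2 (hmono' _ _ hcon (hI1 _ (hG n))))
  obtain ⟨β, hβ, hβ1, hβ2⟩ := exists_supU hα.uc hν hG fun n => (hFG n).trans (hGF n)
  obtain ⟨j, hj, hj1, hj2⟩ := exists_supU hθc.uc hν (fun n => hI1 _ (hG n)) hII
  have hθβ : θ < β := hβ1 0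
  have hβlim : ∀ x < β, Order.succ x < β := by
    intro x hx
    obtain ⟨n, hn⟩ := hβ2 x hx
    exact (Order.succ_le_of_lt hn).trans_lt (hβ1 n)
  refine ⟨β, hβ, ?_, cf_om_of_seq (bot_le.trans_lt hθβ) hβlim hβ1 hβ2, fun hreg => ?_⟩
  · refine hD2.2.2 _ (tz_mem.2 hβ) ⟨_, tz_mem.2 hθβ, rfl⟩ fun x hx => ?_
    obtain ⟨x, hx', rfl⟩ := Ordinal.mem_toZFSet_iff.1 hx
    obtain ⟨n, hn⟩ := hβ2 x hx'
    exact ⟨_, hN3 _ (hF1' _ (hI1 _ (hG n))).1, tz_mem.2 (hβ1 (n + 1)),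
      tz_mem.2 (hn.trans ((hFG n).trans (hGF n)))⟩
  · have hFβ : ∀ i < j, F i < β := by
      intro i hi
      obtain ⟨n, hn⟩ := hj2 i hi
      exact (hmono' i _ hn.le (hI1 _ (hG n))).trans_lt ((hGF n).trans (hβ1 (n + 1)))
    refine hreg.2.2 ⟨_, tz_mem.2 (hj.trans hθβ), ZFSet.sep (fun z => ∃ a b, z = pair a b ∧
      a ∈ j.toZFSet) f, HOD_restr hf j, ⟨fun p hp => ?_, fun i hi => ?_⟩, fun y hy => ?_⟩
    · obtain ⟨hpf, a, b, rfl, ha⟩ := mem_sep.1 hp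
      obtain ⟨i, hi, rfl⟩ := Ordinal.mem_toZFSet_iff.1 ha
      refine pair_mem_prod.2 ⟨ha, ?_⟩
      have h1 := (hF1' i (hi.trans hj)).2
      have h2 := ((app_iff hF.1 (tz_mem.2 (hi.trans hj))).1 hpf).symm.trans
        ((app_iff hF.1 (tz_mem.2 (hi.trans hj))).1 h1)
      rw [h2]
      exact tz_mem.2 (hFβ i hi)
    · obtain ⟨i, hi', rfl⟩ := Ordinal.mem_toZFSet_iff.1 hi
      obtain ⟨w, hw, huniq⟩ := hF.1.2 i.toZFSet (tz_mem.2 (hi'.trans hj))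
      exact ⟨w, mem_restr.2 ⟨hw, hi⟩, fun y hy => huniq y (mem_restr.1 hy).1⟩
    · obtain ⟨y, hy', rfl⟩ := Ordinal.mem_toZFSet_iff.1 hy
      obtain ⟨n, hn⟩ := hβ2 y hy'
      have h1 := hj1 n
      exact ⟨_, tz_mem.2 h1, _, tz_mem.2 (hFβ _ h1), mem_restr.2 ⟨(hF1' _ (hI1 _ (hG n))).2,
        tz_mem.2 h1⟩, tz_mem.2 (hn.trans (hFG n))⟩

/-- **A closed unbounded set of regular cardinals of `HOD`.** -/
theorem club_regs (hcf : Cf μ.toZFSet l.toZFSet) (hω : Ordinal.omega0 < μ)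
    (h : ¬ StatL {α | Cf Ordinal.omega0.toZFSet α.toZFSet ∧ ¬ HODReg α} l) :
    ∃ C, C ⊆ l.toZFSet ∧ Club C l.toZFSet ∧ ∀ α : Ordinal.{u}, α.toZFSet ∈ C → HODReg α := by
  unfold StatL at h
  push Not at h
  obtain ⟨D, hD1, hD2, hD3⟩ := h
  refine ⟨lims D l, fun x hx => (mem_sep.1 hx).1, club_lims hcf.uc hω hD1 hD2, fun α hα => ?_⟩
  obtain ⟨hαl, ⟨z, hz, _⟩, hα'⟩ := mem_sep.1 hα
  have hαl' := tz_mem.1 hαl
  have hα0 : 0 < α := by
    obtain ⟨z, hz', rfl⟩ := Ordinal.mem_toZFSet_iff.1 hz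
    exact bot_le.trans_lt hz'
  have hlim : ∀ x < α, Order.succ x < α := by
    intro x hx
    obtain ⟨c, hc, h1, h2⟩ := hα' _ (tz_mem.2 hx)
    obtain ⟨c, hc', rfl⟩ := Ordinal.mem_toZFSet_iff.1 h1
    exact (Order.succ_le_of_lt (tz_mem.1 h2)).trans_lt hc'
  by_contra hs
  obtain ⟨m, _, hm⟩ := exists_Cf hlim
  rcases (Cf.om_le hα0 hm).lt_or_eq with h1 | h1
  · obtain ⟨β, hβ, h2, h3, h4⟩ := sing_reflect h1 hm hs (fun x hx => (mem_inter.1 hx).2)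
      (club_below hD2 hα)
    exact hD3 β (hβ.trans hαl') ⟨h3, h4⟩ (mem_inter.1 h2).1
  · rw [← h1] at hm
    refine hD3 α hαl' ⟨hm, hs⟩ (hD2.2.2 _ hαl ⟨z, hz, rfl⟩ fun x hx => hα' x hx)

end Pool.Agent.H93.SC
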