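import Pool.Agent.H93.HM.Cof

/-!
Definitions: weakly normal and fine ultrafilters in `HOD`, and blocks of regular cardinals of `HOD`.
-/

set_option autoImplicit false

namespace Pool.Agent.H93.SC

open ZFSet Gss969 Pool.Agent.H310.HD Pool.Agent.H93.HM

universe u

/-- In `HOD`, `U` is a uniform weakly normal ultrafilter on `l`; it is complete for all sequences (in
`V`) of length less than `μ`. -/
structure WNorm (μ l : Ordinal.{u}) (U : ZFSet.{u}) : Prop where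
  hod : HOD U
  sub : ∀ X ∈ U, X ⊆ l.toZFSet ∧ HOD X
  ultra : ∀ X, X ⊆ l.toZFSet → HOD X → (X ∈ U ↔ l.toZFSet \ X ∉ U)
  tail : ∀ ξ < l, ZFSet.sep (fun x => ξ.toZFSet ∈ x) l.toZFSet ∈ U
  complete : ∀ m < μ, ∀ X : Ordinal.{u} → ZFSet.{u}, (∀ i < m, X i ∈ U) →
    ∀ Y, Y ⊆ l.toZFSet → HOD Y → (∀ x ∈ l.toZFSet, (∀ i < m, x ∈ X i) → x ∈ Y) → Y ∈ U
  wnormal : ∀ f, HOD f → IsFunc l.toZFSet l.toZFSet f →
    ZFSet.sep (fun x => ∃ y ∈ x, pair x y ∈ f) l.toZFSet ∈ U →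
    ∃ ξ < l, ZFSet.sep (fun x => ∃ y ∈ ξ.toZFSet, pair x y ∈ f) l.toZFSet ∈ U

/-- The set of the subsets of `l` in `HOD` which have in `HOD` a size less than `κ`. -/
noncomputable def PK (κ l : Ordinal.{u}) : ZFSet.{u} :=
  ZFSet.sep (fun x => HOD x ∧ ∃ γ ∈ κ.toZFSet, ∃ h, IsFunc γ l.toZFSet h ∧
    (HOD h ∧ ∀ i ∈ x, ∃ j ∈ γ, pair j i ∈ h)) (powerset l.toZFSet)

/-- In `HOD`, `W` is a fine ultrafilter on `P_κ(l)`; it is complete for all sequences (in `V`) of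
length less than `μ`. -/
structure FineU (μ κ l : Ordinal.{u}) (W : ZFSet.{u}) : Prop where
  hod : HOD W
  sub : ∀ Z ∈ W, Z ⊆ PK κ l ∧ HOD Z
  ultra : ∀ Z, Z ⊆ PK κ l → HOD Z → (Z ∈ W ↔ PK κ l \ Z ∉ W)
  fine : ∀ i < l, ZFSet.sep (fun x => i.toZFSet ∈ x) (PK κ l) ∈ W
  complete : ∀ m < μ, ∀ Z : Ordinal.{u} → ZFSet.{u}, (∀ i < m, Z i ∈ W) →
    ∀ Y, Y ⊆ PK κ l → HOD Y → (∀ x ∈ PK κ l, (∀ i < m, x ∈ Z i) → x ∈ Y) → Y ∈ W

/-- The ordinal `θ` has cofinality `μ` and is a limit of regular cardinals of `HOD` of cofinality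
`ν`, and all regular cardinals of `HOD` between `θ` and `l` have cofinality `μ`. -/
structure Block (ν μ θ l : Ordinal.{u}) : Prop where
  cof : Cf μ.toZFSet θ.toZFSet
  lim : ∀ x < θ, ∃ θ', x ≤ θ' ∧ θ' < θ ∧ HODReg θ' ∧ Cf ν.toZFSet θ'.toZFSet
  same : ∀ θ', θ ≤ θ' → θ' ≤ l → HODReg θ' → Cf μ.toZFSet θ'.toZFSet

/-- The ordinal `l` is the least regular cardinal of `HOD` above `γ`, that is the successor of `γ` as
computed in `HOD`. -/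
def HSucc (γ l : Ordinal.{u}) : Prop := γ < l ∧ HODReg l ∧ ∀ θ, γ < θ → θ < l → ¬ HODReg θ

end Pool.Agent.H93.SC
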