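import Pool.Agent.H93.SC.Sat

/-!
The measures given by the closed unbounded filter below an ordinal `l` of cofinality `μ` are
decomposable only at ordinals of cofinality `μ`; this restricts the cofinalities of the regular
cardinals of `HOD`.
-/

set_option autoImplicit false
set_option linter.unusedVariables false

namespace Pool.Agent.H93.SC

open ZFSet Gss969 Pool.Agent.H310.HD Pool.Agent.H93.HM

universe u

variable {l κ μ ν : Ordinal.{u}}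

/-- There are closed unbounded sets of small size. -/
theorem club_small (hcf : Cf μ.toZFSet l.toZFSet) : ∃ E : Ordinal.{u} → Ordinal.{u},
    Club (ZFSet.sep (fun x => ∃ i < μ, x = (E i).toZFSet) l.toZFSet) l.toZFSet := by
  obtain ⟨e, he1, he2⟩ := Cf.seq hcf
  have hex : ∀ i < μ, ∃ s < l, (∀ j < i, e j < s) ∧ ∀ s', (∀ j < i, e j < s') → s ≤ s' := by
    intro i hi
    obtain ⟨b, hb, hb'⟩ := hcf.uc i hi e fun j hj => he1 j (hj.trans hi)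
    obtain ⟨s, hs, hmin⟩ := WellFounded.has_min (wellFounded_lt (α := Ordinal.{u}))
      {s | ∀ j < i, e j < s} ⟨b, hb'⟩
    exact ⟨s, (not_lt.1 (hmin b hb')).trans_lt hb, hs, fun s' hs' => not_lt.1 (hmin s' hs')⟩
  choose! E hE1 hE2 hE3 using hex
  have hmono : ∀ i j, i ≤ j → j < μ → E i ≤ E j := fun i j hij hj =>
    hE3 i (hij.trans_lt hj) _ fun t ht => hE2 j hj t (ht.trans_le hij)
  have hlim := Cf.limit hcf
  refine ⟨E, fun x hx => (mem_sep.1 hx).1, fun x hx => ?_, fun a ha hne hl => ?_⟩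
  · obtain ⟨x, hx', rfl⟩ := Ordinal.mem_toZFSet_iff.1 hx
    obtain ⟨i, hi, h1⟩ := he2 x hx'
    have hi' := hlim i hi
    exact ⟨_, mem_sep.2 ⟨tz_mem.2 (hE1 _ hi'), _, hi', rfl⟩,
      tz_mem.2 (h1.trans (hE2 _ hi' i (Order.lt_succ i)))⟩
  · obtain ⟨α, hα, rfl⟩ := Ordinal.mem_toZFSet_iff.1 ha
    obtain ⟨i, ⟨hi, hαi⟩, hmin⟩ := WellFounded.has_min (wellFounded_lt (α := Ordinal.{u}))
      {i | i < μ ∧ α ≤ E i} (by
        obtain ⟨i, hi, h1⟩ := he2 α hα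
        exact ⟨_, hlim i hi, (h1.trans (hE2 _ (hlim i hi) i (Order.lt_succ i))).le⟩)
    have hlt : ∀ j < i, E j < α := by
      intro j hj
      by_contra hcon
      push Not at hcon
      exact hmin j ⟨hj.trans hi, hcon⟩ hj
    refine mem_sep.2 ⟨ha, i, hi, ?_⟩
    congr 1
    refine le_antisymm hαi (hE3 i hi α fun j hj => ?_)
    obtain ⟨c, hc, hcα, h1⟩ := hl _ (tz_mem.2 (hlt j hj))
    obtain ⟨_, i', hi', rfl⟩ := mem_sep.1 hc
    rw [tz_mem] at hcα h1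
    have hi'i : i' < i := by
      by_contra hcon
      push Not at hcon
      exact absurd (hcα.trans_le hαi) (not_lt.2 (hmono i i' hcon hi'))
    have hji' : j < i' := by
      by_contra hcon
      push Not at hcon
      exact absurd h1 (not_lt.2 (hmono i' j hcon (hj.trans hi)))
    exact (hE2 i' hi' j hji').trans hcα

/-- **Indecomposability.** -/
theorem indec (hcf : Cf μ.toZFSet l.toZFSet) (hω : Ordinal.omega0 < μ) {S : Set Ordinal.{u}}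
    (hS : StatL S l) {θ m : Ordinal.{u}} (hθ : Cf m.toZFSet θ.toZFSet) (hne : m ≠ μ)
    {h : Ordinal.{u} → Ordinal.{u}} (hh : ∀ α ∈ S, α < l → h α < θ) :
    ∃ b < θ, StatL {α | α ∈ S ∧ h α < b} l := by
  classical
  rcases lt_or_gt_of_ne hne with h1 | h1
  · obtain ⟨e, he1, he2⟩ := Cf.seq hθ
    obtain ⟨i, hi, h2⟩ := stat_union hcf.lim hcf.uc hω h1 hS (P := fun i α => h α < e i)
      fun α hα hαl => he2 _ (hh α hα hαl)
    exact ⟨e i, he1 i hi, h2⟩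
  · obtain ⟨E, hE⟩ := club_small hcf
    obtain ⟨α₀, hα₀, hα₀S⟩ := statNe hcf.lim hS
    have hθ0 : 0 < θ := bot_le.trans_lt (hh α₀ hα₀S hα₀)
    obtain ⟨b, hb, hb'⟩ := hθ.uc μ h1 (fun i => if h (E i) < θ then h (E i) else 0) fun i _ => by
      split_ifs with h2
      · exact h2
      · exact hθ0
    refine ⟨b, hb, (stat_club hcf.lim hcf.uc hω hS (fun z hz => (mem_sep.1 hz).1) hE).mono
      fun α hα h2 => ⟨h2.1, ?_⟩⟩
    obtain ⟨_, i, hi, h3⟩ := mem_sep.1 h2.2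
    have h4 : α = E i := Ordinal.toZFSet_injective h3
    have h5 := hb' i hi
    rw [← h4, if_pos (hh α h2.1 hα)] at h5
    exact h5

theorem exists_Cf {θ : Ordinal.{u}} (hlim : ∀ x < θ, Order.succ x < θ) :
    ∃ m ≤ θ, Cf (Ordinal.toZFSet m) θ.toZFSet := by
  have h1 : CofN θ.toZFSet θ.toZFSet := by
    refine ⟨gr θ.toZFSet fun x => x, isFunc_gr fun x hx => hx, fun x hx => ?_⟩
    obtain ⟨x, hx', rfl⟩ := Ordinal.mem_toZFSet_iff.1 hx
    have h2 := tz_mem.2 (hlim x hx')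
    exact ⟨_, h2, _, h2, pair_mem_gr.2 ⟨h2, rfl⟩, tz_mem.2 (Order.lt_succ x)⟩
  obtain ⟨m, hm, h2, h3⟩ := exists_cof h1
  refine ⟨m, hm, h2, fun m' hm' => ?_⟩
  obtain ⟨m', hm'', rfl⟩ := Ordinal.mem_toZFSet_iff.1 hm'
  exact h3 m' hm''

theorem Cf.unique {m m' : Ordinal.{u}} (h : Cf m.toZFSet l.toZFSet)
    (h' : Cf m'.toZFSet l.toZFSet) : m = m' := by
  rcases lt_trichotomy m m' with h1 | h1 | h1
  · exact absurd h.1 (h'.2 _ (tz_mem.2 h1))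
  · exact h1
  · exact absurd h'.1 (h.2 _ (tz_mem.2 h1))

/-- Sets of small size in `HOD` are bounded below regular cardinals of `HOD`. -/
theorem bdd_small {θ γ : Ordinal.{u}} (hθ : HODReg θ) (hγ : γ < θ) {h : ZFSet.{u}} (hO : HOD h)
    (hf : IsFunc γ.toZFSet l.toZFSet h) :
    ∃ b < θ, ∀ i < θ, (∃ j ∈ γ.toZFSet, pair j i.toZFSet ∈ h) → i < b := by
  classical
  by_contra hcon
  push Not at hcon
  obtain ⟨F, hF⟩ : ∃ F : ZFSet.{u}, F = ZFSet.sep (fun p => ∃ j i, p = pair j i ∧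
    (pair j i ∈ h ∨ ((∀ t ∈ i, ¬ t = t) ∧ ∀ z ∈ θ.toZFSet, ¬ pair j z ∈ h)))
    (prod γ.toZFSet θ.toZFSet) := ⟨_, rfl⟩
  have hFm : ∀ j i, pair j i ∈ F ↔ j ∈ γ.toZFSet ∧ i ∈ θ.toZFSet ∧
      (pair j i ∈ h ∨ ((∀ t ∈ i, ¬ t = t) ∧ ∀ z ∈ θ.toZFSet, ¬ pair j z ∈ h)) := by
    intro j i
    rw [hF]
    exact mem_rel
  have hFO : HOD F := by
    rw [hF]
    refine HOD_rel (A := fun j i v => pair j i ∈ v 0 ∨ ((∀ t ∈ i, ¬ t = t) ∧
      ∀ z ∈ v 1, ¬ pair j z ∈ v 0)) ?_ γ θ [h, θ.toZFSet] ?_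
    · refine (dfn_pm Gd_Trs _ _ _).or (Dfn.and ?_ ?_)
      · exact Dfn.ball Gd_Trs _ (Dfn.eq _ _).not
      · exact Dfn.ball Gd_Trs _ (dfn_pm Gd_Trs _ _ _).not
    · intro p hp
      simp only [List.mem_cons, List.not_mem_nil, or_false] at hp
      rcases hp with rfl | rfl
      · exact hO.od
      · exact OD_ord _
  refine hθ.2.2 ⟨_, tz_mem.2 hγ, F, hFO, ⟨fun p hp => ?_, fun j hj => ?_⟩, fun y hy => ?_⟩
  · rw [hF] at hp
    exact (mem_sep.1 hp).1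
  · by_cases hex : ∃ i ∈ θ.toZFSet, pair j i ∈ h
    · obtain ⟨i, hi, h1⟩ := hex
      refine ⟨i, (hFm _ _).2 ⟨hj, hi, Or.inl h1⟩, fun i' hi' => ?_⟩
      obtain ⟨_, _, h2 | h2⟩ := (hFm _ _).1 hi'
      · rw [← (app_iff hf hj).1 h1, ← (app_iff hf hj).1 h2]
      · exact absurd h1 (h2.2 i hi)
    · push Not at hex
      refine ⟨(0 : Ordinal.{u}).toZFSet, (hFm _ _).2 ⟨hj, tz_mem.2 hθ.1, Or.inr ⟨?_, hex⟩⟩,
        fun i' hi' => ?_⟩
      · intro t ht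
        obtain ⟨t, ht', _⟩ := Ordinal.mem_toZFSet_iff.1 ht
        exact absurd ht' (not_lt.2 bot_le)
      · obtain ⟨_, h2, h3 | h3⟩ := (hFm _ _).1 hi'
        · exact absurd h3 (hex i' h2)
        · obtain ⟨i', hi'1, rfl⟩ := Ordinal.mem_toZFSet_iff.1 h2
          rcases (bot_le : (0 : Ordinal.{u}) ≤ i').lt_or_eq with h5 | h5
          · exact absurd rfl (h3.1 _ (tz_mem.2 h5))
          · exact congrArg Ordinal.toZFSet h5.symm
  · obtain ⟨y, hy', rfl⟩ := Ordinal.mem_toZFSet_iff.1 hy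
    obtain ⟨i, hi, ⟨j, hj, h1⟩, h2⟩ := hcon _ (hθ.2.1 y hy')
    exact ⟨j, hj, _, tz_mem.2 hi, (hFm _ _).2 ⟨hj, tz_mem.2 hi, Or.inl h1⟩,
      tz_mem.2 ((Order.lt_succ y).trans_le h2)⟩

/-- The elements of `S` whose cofinality in `HOD` is less than `θ`. -/
noncomputable def small (l θ : Ordinal.{u}) (S : ZFSet.{u}) : ZFSet.{u} :=
  ZFSet.sep (fun a => a ∈ S ∧ ∃ γ ∈ θ.toZFSet, ∃ f, IsFunc γ a f ∧ (HOD f ∧
    ∀ y ∈ a, ∃ i ∈ γ, ∃ z ∈ a, pair i z ∈ f ∧ y ∈ z)) l.toZFSet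

theorem HOD_small {l θ : Ordinal.{u}} {S : ZFSet.{u}} (hS : HOD S) : HOD (small l θ S) := by
  refine HOD_sepG (A := fun a x => a ∈ x 0 ∧ ∃ γ ∈ x 1, ∃ f, IsFunc γ a f ∧ (HOD f ∧
    ∀ y ∈ a, ∃ i ∈ γ, ∃ z ∈ a, pair i z ∈ f ∧ y ∈ z)) ?_ (HOD_ord l) [S, θ.toZFSet] ?_
  · refine (Dfn.mem _ _).and (Dfn.bex Gd_Trs _ (Dfn_exfunG _ _ ((dfn_HOD _).and ?_)))
    exact Dfn.ball Gd_Trs _ (Dfn.bex Gd_Trs _ (Dfn.bex Gd_Trs _
      ((dfn_pm Gd_Trs _ _ _).and (Dfn.mem _ _))))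
  · intro p hp
    simp only [List.mem_cons, List.not_mem_nil, or_false] at hp
    rcases hp with rfl | rfl
    · exact hS.od
    · exact OD_ord _

theorem mem_small {l θ α : Ordinal.{u}} {S : ZFSet.{u}} :
    α.toZFSet ∈ small l θ S ↔ α < l ∧ α.toZFSet ∈ S ∧ SCof θ α := by
  unfold small
  rw [mem_sep, tz_mem]
  refine and_congr_right fun _ => and_congr_right fun _ => ?_
  constructor
  · rintro ⟨γ, hγ, f, h1, h2, h3⟩
    obtain ⟨γ, hγ', rfl⟩ := Ordinal.mem_toZFSet_iff.1 hγ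
    exact ⟨γ, hγ', f, h2, h1, h3⟩
  · rintro ⟨γ, hγ, f, h2, h1, h3⟩
    exact ⟨_, tz_mem.2 hγ, f, h1, h2, h3⟩

/-- **The dichotomy for the regular cardinals of `HOD`.** -/
theorem dichotomy (hcf : Cf μ.toZFSet l.toZFSet) (hω : Ordinal.omega0 < μ) (hν0 : 0 < ν)
    (hνμ : ν < μ) (hreg : HODReg l) {c : Ordinal.{u}} (hcl : c ≤ l) {S : ZFSet.{u}}
    (hSO : HOD S) (hSν : S ⊆ SCf l.toZFSet ν.toZFSet)
    (hno : ¬ ∃ g, HOD g ∧ DisjFam c.toZFSet l.toZFSet S g)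
    (hsing : StatL {α | α.toZFSet ∈ S ∧ ¬ HODReg α} l) :
    ∃ θ < l, Block ν μ θ l ∧ StatL {α | α.toZFSet ∈ small l θ S} l := by
  classical
  have hT : ∀ α : Ordinal.{u}, α.toZFSet ∈ S → ∃ θ ≤ α, HODReg θ ∧
      Cf ν.toZFSet θ.toZFSet ∧ MCof θ α ∧
        ∀ γ < θ, ¬ ∃ f, HOD f ∧ Cofi (Ordinal.toZFSet γ) α.toZFSet f := fun α hα =>
    exists_hcof hν0 (mem_SCf.1 (hSν hα)).2
  choose! T hT1 hT2 hT3 hT4 hT5 using hT
  have hTs : ∀ κ α : Ordinal.{u}, α.toZFSet ∈ S → (SCof κ α ↔ T α < κ) := by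
    intro κ α hα
    constructor
    · rintro ⟨γ, hγ, f, hf, hF⟩
      refine lt_of_le_of_lt ?_ hγ
      by_contra hcon
      push Not at hcon
      exact hT5 α hα γ hcon ⟨f, hf, hF⟩
    · intro h
      obtain ⟨f, hf, hF, _⟩ := hT4 α hα
      exact ⟨T α, h, f, hf, hF⟩
  obtain ⟨ξ, hξ, h1⟩ := fodor_bdd hcf hω hsing (f := T) fun α hα _ => by
    refine lt_of_le_of_ne (hT1 α hα.1) fun heq => hα.2 ?_
    have := hT2 α hα.1
    rwa [heq] at this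
  obtain ⟨θ, hθ, hmin⟩ := WellFounded.has_min (wellFounded_lt (α := Ordinal.{u}))
    {κ | StatL {α | α.toZFSet ∈ S ∧ T α < κ} l} ⟨ξ, h1.mono fun α _ h => ⟨h.1.1, h.2⟩⟩
  have hθ' : StatL {α | α.toZFSet ∈ S ∧ T α < θ} l := hθ
  have hθl : θ < l := (not_lt.1 (hmin ξ (h1.mono fun α _ h => ⟨h.1.1, h.2⟩))).trans_lt hξ
  have hmin' : ∀ b < θ, ¬ StatL {α | α.toZFSet ∈ S ∧ T α < b} l := fun b hb h => hmin b h hb
  -- the set of the elements of small cofinality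
  have hsm : ∀ α : Ordinal.{u}, α.toZFSet ∈ small l θ S → α.toZFSet ∈ S ∧ T α < θ := by
    intro α hα
    obtain ⟨_, h2, h3⟩ := mem_small.1 hα
    exact ⟨h2, (hTs θ α h2).1 h3⟩
  have hst : StatL {α | α.toZFSet ∈ small l θ S} l := hθ'.mono fun α hα h =>
    mem_small.2 ⟨hα, h.1, (hTs θ α h.1).2 h.2⟩
  have hSmO : HOD (small l θ S) := HOD_small hSO
  have hSml : small l θ S ⊆ l.toZFSet := fun z hz => (mem_sep.1 hz).1
  have hSmS : small l θ S ⊆ S := fun z hz => (mem_sep.1 hz).2.1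
  have hW : WNF l (small l θ S) := sat_wnf hcf hω hreg hcl hSmO hSml fun ⟨g, hg, hF⟩ =>
    hno ⟨g, hg, hF.mono hSmS⟩
  have hlim : ∀ x < θ, Order.succ x < θ := by
    intro x hx
    refine lt_of_le_of_ne (Order.succ_le_of_lt hx) fun heq => ?_
    have hTx : ∀ α : Ordinal.{u}, α.toZFSet ∈ small l θ S → ¬ T α < x → T α = x := by
      intro α hα h2
      refine le_antisymm ?_ (not_lt.1 h2)
      have h4 := (hsm α hα).2
      rw [← heq] at h4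
      exact Order.lt_succ_iff.1 h4
    have h2 : StatL {α | α ∈ {α : Ordinal.{u} | α.toZFSet ∈ small l θ S} ∧ ¬ T α < x} l := by
      rcases statTwo hcf.lim hcf.uc hω hst (fun α => T α < x) with h3 | h3
      · exact (hmin' x hx (h3.mono fun α _ h => ⟨(hsm α h.1).1, h.2⟩)).elim
      · exact h3
    obtain ⟨α, _, hαA, hαx⟩ := statNe hcf.lim h2
    have hαS := (hsm α hαA).1
    have h5 := hT2 α hαS
    have h6 := hT3 α hαS
    rw [hTx α hαA hαx] at h5 h6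
    refine no_const hcf hω hSmO hW hreg (hx.trans hθl) h5 hνμ h6 (fun h7 => ?_) hst
    refine hmin' x hx (h7.mono fun β _ h => ⟨(hsm β h.1).1, ?_⟩)
    by_contra h8
    refine h.2 ?_
    have h9 := hT4 β (hsm β h.1).1
    rwa [hTx β h.1 h8] at h9
  have hcfθ : Cf μ.toZFSet θ.toZFSet := by
    obtain ⟨m, _, hm⟩ := exists_Cf hlim
    by_cases hmμ : m = μ
    · rwa [hmμ] at hm
    · obtain ⟨b, hb, h2⟩ := indec hcf hω hθ' hm hmμ (h := T) fun α hα _ => hα.2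
      exact (hmin' b hb (h2.mono fun α _ h => ⟨h.1.1, h.2⟩)).elim
  refine ⟨θ, hθl, ⟨hcfθ, fun x hx => ?_, fun θ' h2 h3 h4 => ?_⟩, hst⟩
  · rcases statTwo hcf.lim hcf.uc hω hθ' (fun α => T α < x) with h2 | h2
    · exact (hmin' x hx (h2.mono fun α _ h => ⟨h.1.1, h.2⟩)).elim
    · obtain ⟨α, _, hα, hαx⟩ := statNe hcf.lim h2
      exact ⟨T α, not_lt.1 hαx, hα.2, hT2 α hα.1, hT3 α hα.1⟩
  obtain ⟨m, _, hm⟩ := exists_Cf h4.2.1
  by_cases hmμ : m = μ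
  · rwa [hmμ] at hm
  · exfalso
    have hθ0 : 0 < θ := by
      obtain ⟨α, _, hα⟩ := statNe hcf.lim hθ'
      exact bot_le.trans_lt hα.2
    obtain ⟨g, hgO, hg1, hg2⟩ := exists_g hcf hω hSmO hW (κ := θ) (fun h => by
      obtain ⟨α, _, hα, hn⟩ := statNe hcf.lim h
      exact hn (mem_small.1 hα).2.2) hθ0 hreg
    have hb : ∀ x < l, ∃ b < θ', ∀ i < θ', pair x.toZFSet i.toZFSet ∈ g → i < b := by
      intro x hx
      obtain ⟨_, γ, hγ, h, hhf, hhO, hh⟩ := (mem_sep.1 (hg1 x hx)).2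
      obtain ⟨γ, hγ', rfl⟩ := Ordinal.mem_toZFSet_iff.1 hγ
      obtain ⟨b, hb, hb'⟩ := bdd_small h4 (hγ'.trans_le h2) hhO hhf
      exact ⟨b, hb, fun i hi hxi => hb' i hi (hh _ (mem_sep.2 ⟨tz_mem.2 (hi.trans_le h3), hxi⟩))⟩
    choose! b hb1 hb2 using hb
    obtain ⟨d, hd, h5⟩ := indec hcf hω hst hm hmμ (h := b) fun α _ hα => hb1 α hα
    refine (mem_uf.1 (hg2 d (hd.trans_le h3))).2.2 (h5.mono fun α hα h6 => ⟨h6.1, fun h7 => ?_⟩)
    exact absurd (hb2 α hα d hd (mem_sep.1 h7).2) (not_lt.2 (le_of_lt h6.2))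

end Pool.Agent.H93.SC
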