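import Pool.Agent.H93.SC.Kto

/-!
Fine ultrafilters in `HOD`.
-/

set_option autoImplicit false
set_option linter.unusedVariables false

namespace Pool.Agent.H93.SC

open ZFSet Gss969 Pool.Agent.H310.HD Pool.Agent.H93.HM

universe u

variable {l κ μ : Ordinal.{u}}

/-- The set of the `x < l` whose value is in `Z`. -/
noncomputable def pre (l : Ordinal.{u}) (g Z : ZFSet.{u}) : ZFSet.{u} :=
  ZFSet.sep (fun x => ZFSet.sep (fun i => pair x i ∈ g) l.toZFSet ∈ Z) l.toZFSet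

def Val (L g x Z : ZFSet.{u}) : Prop :=
  ∃ s, s ⊆ L ∧ ((∀ i ∈ L, (i ∈ s ↔ pair x i ∈ g)) ∧ s ∈ Z)

theorem val_iff {L g x Z : ZFSet.{u}} :
    Val L g x Z ↔ ZFSet.sep (fun i => pair x i ∈ g) L ∈ Z := by
  constructor
  · rintro ⟨s, h1, h2, h3⟩
    have : s = ZFSet.sep (fun i => pair x i ∈ g) L := by
      ext i
      rw [mem_sep]
      exact ⟨fun h => ⟨h1 h, (h2 i (h1 h)).1 h⟩, fun h => (h2 i h.1).2 h.2⟩
    rwa [← this]
  · intro h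
    exact ⟨_, fun z hz => (mem_sep.1 hz).1, fun i hi => ⟨fun h1 => (mem_sep.1 h1).2,
      fun h1 => mem_sep.2 ⟨hi, h1⟩⟩, h⟩

theorem dfn_Val (a b c d : ℕ) : Dfn Gd.{u} (fun v => Val (v a) (v b) (v c) (v d)) := by
  unfold Val
  refine Dfn.exsub Gd_Lvl _ (Dfn.and ?_ (Dfn.mem _ _))
  exact Dfn.ball Gd_Trs _ (Dfn.iff (Dfn.mem _ _) (dfn_pm Gd_Trs _ _ _))

theorem HOD_pre {g Z : ZFSet.{u}} (hg : HOD g) (hZ : HOD Z) : HOD (pre l g Z) := by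
  have h1 : pre l g Z = ZFSet.sep (fun x => Val l.toZFSet g x Z) l.toZFSet := by
    ext x
    unfold pre
    rw [mem_sep, mem_sep, val_iff]
  rw [h1]
  refine HOD_sepG (A := fun x v => Val (v 0) (v 1) x (v 2)) (dfn_Val _ _ _ _) (HOD_ord l)
    [l.toZFSet, g, Z] ?_
  intro p hp
  simp only [List.mem_cons, List.not_mem_nil, or_false] at hp
  rcases hp with rfl | rfl | rfl
  · exact OD_ord _
  · exact hg.od
  · exact hZ.od

theorem exists_W {A : ZFSet.{u}} (hU : WNorm μ l (uf l A)) {g : ZFSet.{u}} (hgO : HOD g)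
    (hg1 : ∀ x < l, ZFSet.sep (fun i => pair x.toZFSet i ∈ g) l.toZFSet ∈ PK κ l)
    (hg2 : ∀ i < l, ZFSet.sep (fun x => pair x i.toZFSet ∈ g) l.toZFSet ∈ uf l A) :
    ∃ W, FineU μ κ l W := by
  obtain ⟨W, hW⟩ : ∃ W : ZFSet.{u}, W = ZFSet.sep (fun Z => HOD Z ∧ pre l g Z ∈ uf l A)
    (powerset (PK κ l)) := ⟨_, rfl⟩
  have hWm : ∀ Z, Z ∈ W ↔ Z ⊆ PK κ l ∧ HOD Z ∧ pre l g Z ∈ uf l A := by
    intro Z
    rw [hW, mem_sep, mem_powerset]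
  have hps : ∀ Z, pre l g Z ⊆ l.toZFSet := fun Z z hz => (mem_sep.1 hz).1
  have hex : ∀ Z, HOD Z → (pre l g Z ∈ uf l A ↔ ∃ X ∈ uf l A, ∀ r ∈ X, Val l.toZFSet g r Z) := by
    intro Z hZ
    constructor
    · intro h
      exact ⟨_, h, fun r hr => val_iff.2 (mem_sep.1 hr).2⟩
    · rintro ⟨X, hX, h⟩
      exact uf_up hX (hps Z) (HOD_pre hgO hZ) fun r hr =>
        mem_sep.2 ⟨(mem_uf.1 hX).1 hr, val_iff.1 (h r hr)⟩
  have hdiff : ∀ {Z : ZFSet.{u}}, HOD Z → HOD (PK κ l \ Z) := by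
    intro Z hZ
    have h1 : PK κ l \ Z = ZFSet.sep (fun z => z ∉ Z) (PK κ l) := by
      ext z
      rw [mem_sdiff, mem_sep]
    rw [h1]
    refine HOD_sepG (A := fun z x => z ∉ x 0) (Dfn.mem _ _).not (HOD_PK κ l) [Z] ?_
    intro p hp
    rw [List.mem_singleton] at hp
    rw [hp]
    exact hZ.od
  refine ⟨W, ?_, fun Z hZ => ⟨((hWm Z).1 hZ).1, ((hWm Z).1 hZ).2.1⟩, ?_, ?_, ?_⟩
  · refine HOD_def (R := fun y x => (∀ Z ∈ y, Z ⊆ x 0 ∧ (HOD Z ∧ ∃ X ∈ x 1, ∀ r ∈ X,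
        Val (x 2) (x 3) r Z)) ∧ ∀ Z, Z ⊆ x 0 → (HOD Z ∧ ∃ X ∈ x 1, ∀ r ∈ X,
        Val (x 2) (x 3) r Z) → Z ∈ y) ?_ [PK κ l, uf l A, l.toZFSet, g] ?_ (fun y => ?_)
      fun Z hZ => ((hWm Z).1 hZ).2.1
    · refine Dfn.and (Dfn.ball Gd_Trs _ (Dfn.and (dfn_sub Gd_Trs _ _) (Dfn.and (dfn_HOD _) ?_)))
        (Dfn.allsub Gd_Lvl _ (Dfn.imp (Dfn.and (dfn_HOD _) ?_) (Dfn.mem _ _)))
      · exact Dfn.bex Gd_Trs _ (Dfn.ball Gd_Trs _ (dfn_Val _ _ _ _))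
      · exact Dfn.bex Gd_Trs _ (Dfn.ball Gd_Trs _ (dfn_Val _ _ _ _))
    · intro p hp
      simp only [List.mem_cons, List.not_mem_nil, or_false] at hp
      rcases hp with rfl | rfl | rfl | rfl
      · exact (HOD_PK κ l).od
      · exact hU.hod.od
      · exact OD_ord _
      · exact hgO.od
    · show ((∀ Z ∈ y, Z ⊆ PK κ l ∧ (HOD Z ∧ ∃ X ∈ uf l A, ∀ r ∈ X, Val l.toZFSet g r Z)) ∧
        ∀ Z, Z ⊆ PK κ l → (HOD Z ∧ ∃ X ∈ uf l A, ∀ r ∈ X, Val l.toZFSet g r Z) → Z ∈ y) ↔ _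
      constructor
      · rintro ⟨h1, h2⟩
        ext Z
        rw [hWm]
        constructor
        · intro h
          obtain ⟨h3, h4, h5⟩ := h1 Z h
          exact ⟨h3, h4, (hex Z h4).2 h5⟩
        · rintro ⟨h3, h4, h5⟩
          exact h2 Z h3 ⟨h4, (hex Z h4).1 h5⟩
      · rintro rfl
        constructor
        · intro Z hZ
          obtain ⟨h3, h4, h5⟩ := (hWm Z).1 hZ
          exact ⟨h3, h4, (hex Z h4).1 h5⟩
        · rintro Z h3 ⟨h4, h5⟩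
          exact (hWm Z).2 ⟨h3, h4, (hex Z h4).2 h5⟩
  · intro Z hZ hZO
    have hsub : PK κ l \ Z ⊆ PK κ l := fun z hz => (mem_sdiff.1 hz).1
    have hpd : pre l g (PK κ l \ Z) = l.toZFSet \ pre l g Z := by
      ext x
      unfold pre
      rw [mem_sep, mem_sdiff, mem_sdiff, mem_sep]
      constructor
      · rintro ⟨h1, _, h2⟩
        exact ⟨h1, fun h3 => h2 h3.2⟩
      · rintro ⟨h1, h2⟩
        obtain ⟨ξ, hξ, rfl⟩ := Ordinal.mem_toZFSet_iff.1 h1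
        exact ⟨h1, hg1 ξ hξ, fun h3 => h2 ⟨h1, h3⟩⟩
    rw [hWm, hWm, hpd, hU.ultra _ (hps Z) (HOD_pre hgO hZO)]
    constructor
    · rintro ⟨_, _, h1⟩ ⟨_, _, h2⟩
      exact h1 h2
    · intro h
      exact ⟨hZ, hZO, fun h1 => h ⟨hsub, hdiff hZO, h1⟩⟩
  · intro i hi
    have hO : HOD (ZFSet.sep (fun x => i.toZFSet ∈ x) (PK κ l)) := by
      refine HOD_sepG (A := fun z x => x 0 ∈ z) (Dfn.mem _ _) (HOD_PK κ l) [i.toZFSet] ?_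
      intro p hp
      rw [List.mem_singleton] at hp
      rw [hp]
      exact OD_ord i
    refine (hWm _).2 ⟨fun z hz => (mem_sep.1 hz).1, hO, uf_up (hg2 i hi) (hps _)
      (HOD_pre hgO hO) fun r hr => ?_⟩
    obtain ⟨h1, h2⟩ := mem_sep.1 hr
    obtain ⟨ξ, hξ, rfl⟩ := Ordinal.mem_toZFSet_iff.1 h1
    exact mem_sep.2 ⟨h1, mem_sep.2 ⟨hg1 ξ hξ, mem_sep.2 ⟨tz_mem.2 hi, h2⟩⟩⟩
  · intro m hm Z hZ Y hY hYO hZY
    refine (hWm _).2 ⟨hY, hYO, hU.complete m hm (fun i => pre l g (Z i))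
      (fun i hi => ((hWm _).1 (hZ i hi)).2.2) _ (hps Y) (HOD_pre hgO hYO) fun x hx h => ?_⟩
    obtain ⟨ξ, hξ, rfl⟩ := Ordinal.mem_toZFSet_iff.1 hx
    exact mem_sep.2 ⟨hx, hZY _ (hg1 ξ hξ) fun i hi => (mem_sep.1 (h i hi)).2⟩

/-- **Fine measures.** -/
theorem exists_fine (hcf : Cf μ.toZFSet l.toZFSet) (hω : Ordinal.omega0 < μ) {A : ZFSet.{u}}
    (hA : Atom l A) (hae : ∀ α : Ordinal.{u}, α.toZFSet ∈ A → SCof κ α) (hreg : HODReg l) :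
    ∃ W, FineU μ κ l W := by
  have hκ0 : 0 < κ := by
    obtain ⟨α, _, hα⟩ := statNe hcf.lim hA.2.2.1
    obtain ⟨γ, hγ, _⟩ := hae α hα
    exact bot_le.trans_lt hγ
  obtain ⟨g, hg, h1, h2⟩ := exists_g hcf hω hA.1 (Atom.wnf hcf hω hA) (fun h => by
    obtain ⟨α, _, hα, hn⟩ := statNe hcf.lim h
    exact hn (hae α hα)) hκ0 hreg
  exact exists_W (wnorm_uf hcf hω hA) hg h1 h2

end Pool.Agent.H93.SC
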