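import Pool.Agent.H93.SC.Def
import Pool.Agent.H93.SC.UDec

/-!
Weakly normal ultrafilters in `HOD` below ordinals of uncountable cofinality.
-/

set_option autoImplicit false
set_option linter.unusedVariables false

namespace Pool.Agent.H93.SC

open ZFSet Gss969 Pool.Agent.H310.HD Pool.Agent.H93.HM

universe u

variable {l μ : Ordinal.{u}}

/-- Diagonal intersections along a cofinal sequence. -/
theorem club_diag (hlim : ∀ x < l, Order.succ x < l) (huc : Uc l μ) (hω : Ordinal.omega0 < μ)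
    (hμ : ∀ i < μ, Order.succ i < μ) {h : Ordinal.{u} → Ordinal.{u}} (hh : ∀ x < l, h x < μ)
    (hmono : ∀ x y, x ≤ y → y < l → h x ≤ h y) {C : Ordinal.{u} → ZFSet.{u}}
    (hC1 : ∀ i < μ, C i ⊆ l.toZFSet) (hC2 : ∀ i < μ, Club (C i) l.toZFSet) :
    Club (ZFSet.sep (fun a => ∀ x : Ordinal.{u}, x.toZFSet ∈ a → a ∈ C (h x)) l.toZFSet)
      l.toZFSet := by
  refine ⟨fun x hx => (mem_sep.1 hx).1, ?_, ?_⟩
  · intro x hx
    obtain ⟨ξ, hξ, rfl⟩ := Ordinal.mem_toZFSet_iff.1 hx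
    have step : ∀ γ < l, ∃ b < l, γ < b ∧ ∀ i ≤ h γ, b.toZFSet ∈ C i := by
      intro γ hγ
      have hm := hμ _ (hh γ hγ)
      obtain ⟨b, hb, hb'⟩ := (club_inter hlim huc hω hm (fun i hi => hC1 i (hi.trans hm))
        (fun i hi => hC2 i (hi.trans hm))).2.1 _ (tz_mem.2 hγ)
      obtain ⟨hb1, hb2⟩ := mem_sep.1 hb
      obtain ⟨b, hb3, rfl⟩ := Ordinal.mem_toZFSet_iff.1 hb1
      exact ⟨b, hb3, tz_mem.1 hb', fun i hi => hb2 i (Order.lt_succ_iff.2 hi)⟩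
    choose! B hB1 hB2 hB3 using step
    let G : ℕ → Ordinal.{u} := fun n => Nat.rec ξ (fun _ γ => B γ) n
    have hG : ∀ n, G n < l := by
      intro n
      induction n with
      | zero => exact hξ
      | succ n ih => exact hB1 _ ih
    have hs : ∀ n, G n < G (n + 1) := fun n => hB2 _ (hG n)
    have hGm : Monotone G := monotone_nat_of_le_succ fun n => (hs n).le
    obtain ⟨a, ha, ha1, ha2⟩ := exists_supU huc hω hG hs
    refine ⟨a.toZFSet, mem_sep.2 ⟨tz_mem.2 ha, fun x hx => ?_⟩, tz_mem.2 (ha1 0)⟩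
    rw [tz_mem] at hx
    obtain ⟨n, hn⟩ := ha2 x hx
    refine (hC2 _ (hh x (hx.trans ha))).2.2 _ (tz_mem.2 ha) ⟨_, tz_mem.2 hx, rfl⟩ fun y hy => ?_
    obtain ⟨y, hy', rfl⟩ := Ordinal.mem_toZFSet_iff.1 hy
    obtain ⟨m, hm⟩ := ha2 y hy'
    refine ⟨(G (max n m + 1)).toZFSet, hB3 _ (hG _) _ (hmono _ _ ?_ (hG _)),
      tz_mem.2 (ha1 (max n m + 1)), tz_mem.2 ?_⟩
    · exact hn.le.trans (hGm (le_max_left n m))
    · exact (hm.trans_le (hGm (le_max_right n m))).trans (hs _)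
  · intro a ha hne hl
    refine mem_sep.2 ⟨ha, fun x hx => ?_⟩
    obtain ⟨α, hα, rfl⟩ := Ordinal.mem_toZFSet_iff.1 ha
    rw [tz_mem] at hx
    refine (hC2 _ (hh x (hx.trans hα))).2.2 _ ha hne fun y hy => ?_
    obtain ⟨y, hy', rfl⟩ := Ordinal.mem_toZFSet_iff.1 hy
    obtain ⟨c, hc, h1, h2⟩ := hl (max x y).toZFSet (tz_mem.2 (max_lt hx hy'))
    obtain ⟨γ, hγ, rfl⟩ := Ordinal.mem_toZFSet_iff.1 h1
    rw [tz_mem] at h2
    exact ⟨_, (mem_sep.1 hc).2 x (tz_mem.2 ((le_max_left _ _).trans_lt h2)), h1,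
      tz_mem.2 ((le_max_right _ _).trans_lt h2)⟩

/-- A cofinal sequence. -/
theorem Cf.seq (h : Cf μ.toZFSet l.toZFSet) : ∃ e : Ordinal.{u} → Ordinal.{u},
    (∀ i < μ, e i < l) ∧ ∀ x < l, ∃ i < μ, x < e i := by
  obtain ⟨⟨f, hf, hc⟩, _⟩ := h
  refine ⟨fun i => rank (app f i.toZFSet), fun i hi => ?_, fun x hx => ?_⟩
  · obtain ⟨y, hy, hy'⟩ := Ordinal.mem_toZFSet_iff.1 (app_mem hf (tz_mem.2 hi))
    simp only
    rw [← hy', Ordinal.rank_toZFSet]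
    exact hy
  · obtain ⟨n, hn, y, hy, hny, hxy⟩ := hc _ (tz_mem.2 hx)
    obtain ⟨i, hi, rfl⟩ := Ordinal.mem_toZFSet_iff.1 hn
    obtain ⟨y, hy', rfl⟩ := Ordinal.mem_toZFSet_iff.1 hy
    refine ⟨i, hi, ?_⟩
    simp only
    rw [(app_iff hf hn).1 hny, Ordinal.rank_toZFSet]
    exact tz_mem.1 hxy

theorem Cf.limit (h : Cf μ.toZFSet l.toZFSet) : ∀ i < μ, Order.succ i < μ := by
  intro i hi
  obtain ⟨e, he1, he2⟩ := Cf.seq h
  refine lt_of_le_of_ne (Order.succ_le_of_lt hi) fun heq => ?_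
  obtain ⟨b, hb, hb'⟩ := h.uc i hi e fun j hj => he1 j (hj.trans hi)
  obtain ⟨n, hn, h1⟩ := he2 (max b (e i)) (max_lt hb (he1 i hi))
  rw [← heq, Order.lt_succ_iff] at hn
  rcases hn.lt_or_eq with h2 | h2
  · exact absurd h1 (not_lt.2 ((hb' n h2).le.trans (le_max_left _ _)))
  · rw [h2] at h1
    exact absurd h1 (not_lt.2 (le_max_right _ _))

/-- Regressive functions are bounded on stationary sets. -/
theorem fodor_bdd (hcf : Cf μ.toZFSet l.toZFSet) (hω : Ordinal.omega0 < μ) {S : Set Ordinal.{u}}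
    (hS : StatL S l) {f : Ordinal.{u} → Ordinal.{u}} (hf : ∀ α ∈ S, α < l → f α < α) :
    ∃ ξ < l, StatL {α | α ∈ S ∧ f α < ξ} l := by
  obtain ⟨e, he1, he2⟩ := Cf.seq hcf
  have hh : ∀ x < l, ∃ i < μ, x < e i ∧ ∀ j < μ, x < e j → i ≤ j := by
    intro x hx
    obtain ⟨i, ⟨hi, h1⟩, hmin⟩ := WellFounded.has_min (wellFounded_lt (α := Ordinal.{u}))
      {i | i < μ ∧ x < e i} (by
        obtain ⟨i, hi, h1⟩ := he2 x hx
        exact ⟨i, hi, h1⟩)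
    exact ⟨i, hi, h1, fun j hj h2 => not_lt.1 (hmin j ⟨hj, h2⟩)⟩
  choose! h hh1 hh2 hh3 using hh
  by_contra hcon
  push Not at hcon
  unfold StatL at hcon
  push Not at hcon
  choose! C hC1 hC2 hC3 using hcon
  obtain ⟨β, hβ, hβS, hβC⟩ := hS _ (fun x hx => (mem_sep.1 hx).1)
    (club_diag hcf.lim hcf.uc hω (Cf.limit hcf) hh1 (fun x y hxy hy =>
      hh3 x (hxy.trans_lt hy) _ (hh1 y hy) (hxy.trans_lt (hh2 y hy)))
      (C := fun i => C (e i)) (fun i hi => hC1 _ (he1 i hi)) fun i hi => hC2 _ (he1 i hi))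
  have h1 := hf β hβS hβ
  have h2 := (mem_sep.1 hβC).2 _ (tz_mem.2 h1)
  exact hC3 _ (he1 _ (hh1 _ (h1.trans hβ))) β hβ ⟨hβS, hh2 _ (h1.trans hβ)⟩ h2

theorem mem_ufC (hlim : ∀ x < l, Order.succ x < l) (huc : Uc l μ)
    (hω : Ordinal.omega0 < μ) {A X : ZFSet.{u}} (h : Atom l A) (hX : X ⊆ l.toZFSet)
    (hXO : HOD X) : X ∈ uf l A ↔ StatL {α | α.toZFSet ∈ A ∧ α.toZFSet ∈ X} l := by
  rw [mem_uf]
  constructor
  · rintro ⟨_, _, h1⟩
    rcases statTwo hlim huc hω h.2.2.1 (fun α => α.toZFSet ∈ X) with h2 | h2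
    · exact h2
    · exact absurd h2 h1
  · intro h1
    exact ⟨hX, hXO, fun h2 => h.2.2.2 X hXO ⟨h1, h2⟩⟩

theorem HOD_diff {X : ZFSet.{u}} (hX : HOD X) : HOD (l.toZFSet \ X) := by
  have h1 : l.toZFSet \ X = ZFSet.sep (fun z => z ∉ X) l.toZFSet := by
    ext z
    rw [mem_sdiff, mem_sep]
  rw [h1]
  refine HOD_sepG (A := fun z x => z ∉ x 0) (Dfn.mem _ _).not (HOD_ord l) [X] ?_
  intro p hp
  rw [List.mem_singleton] at hp
  rw [hp]
  exact hX.od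

/-- Tails are closed unbounded. -/
theorem club_tail (hlim : ∀ x < l, Order.succ x < l) {ξ : Ordinal.{u}} (hξ : ξ < l) :
    Club (ZFSet.sep (fun x => ξ.toZFSet ∈ x) l.toZFSet) l.toZFSet := by
  refine ⟨fun x hx => (mem_sep.1 hx).1, fun x hx => ?_, fun a ha hne hl => ?_⟩
  · obtain ⟨γ, hγ, rfl⟩ := Ordinal.mem_toZFSet_iff.1 hx
    refine ⟨(Order.succ (max ξ γ)).toZFSet, mem_sep.2 ⟨tz_mem.2 (hlim _ (max_lt hξ hγ)), ?_⟩, ?_⟩
    · exact tz_mem.2 ((le_max_left _ _).trans_lt (Order.lt_succ _))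
    · exact tz_mem.2 ((le_max_right _ _).trans_lt (Order.lt_succ _))
  · obtain ⟨x, hx, _⟩ := hne
    obtain ⟨c, hc, h1, _⟩ := hl x hx
    obtain ⟨α, _, rfl⟩ := Ordinal.mem_toZFSet_iff.1 ha
    exact mem_sep.2 ⟨ha, (isOrdinal_toZFSet α).1.mem_trans (mem_sep.1 hc).2 h1⟩

/-- **Weakly normal measures from sets which cannot be split.** -/
theorem wnorm_uf (hcf : Cf μ.toZFSet l.toZFSet) (hω : Ordinal.omega0 < μ) {A : ZFSet.{u}}
    (h : Atom l A) : WNorm μ l (uf l A) := by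
  have hlim := hcf.lim
  have huc := hcf.uc
  refine ⟨HOD_uf h.1, fun X hX => ⟨(mem_uf.1 hX).1, (mem_uf.1 hX).2.1⟩, ?_, ?_, ?_, ?_⟩
  · intro X hX hXO
    have hd : l.toZFSet \ X ⊆ l.toZFSet := fun z hz => (mem_sdiff.1 hz).1
    rw [mem_ufC hlim huc hω h hX hXO, mem_ufC hlim huc hω h hd (HOD_diff hXO)]
    constructor
    · intro h1 h2
      refine h.2.2.2 X hXO ⟨h1, h2.mono fun α _ h3 => ⟨h3.1, ?_⟩⟩
      exact (mem_sdiff.1 h3.2).2
    · intro h1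
      rcases statTwo hlim huc hω h.2.2.1 (fun α => α.toZFSet ∈ X) with h2 | h2
      · exact h2
      · refine absurd ?_ h1
        exact h2.mono fun α hα h3 => ⟨h3.1, mem_sdiff.2 ⟨tz_mem.2 hα, h3.2⟩⟩
  · intro ξ hξ
    refine mem_uf'.2 ⟨fun z hz => (mem_sep.1 hz).1, ?_, _, fun z hz => (mem_sep.1 hz).1,
      club_tail hlim hξ, fun a _ ha => ha⟩
    refine HOD_sepG (A := fun z x => x 0 ∈ z) (Dfn.mem _ _) (HOD_ord l) [ξ.toZFSet] ?_
    intro p hp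
    rw [List.mem_singleton] at hp
    rw [hp]
    exact OD_ord ξ
  · intro m hm X hX Y hY hYO hXY
    refine mem_uf.2 ⟨hY, hYO, fun hst => ?_⟩
    obtain ⟨i, hi, h1⟩ := stat_union hlim huc hω hm hst (P := fun i α => α.toZFSet ∉ X i)
      fun α hα hαl => by
        by_contra hcon
        push Not at hcon
        exact hα.2 (hXY _ (tz_mem.2 hαl) hcon)
    exact (mem_uf.1 (hX i hi)).2.2 (h1.mono fun α _ h2 => ⟨h2.1.1, h2.2⟩)
  · intro f hf hff hreg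
    have h1 := (mem_ufC hlim huc hω h (mem_uf.1 hreg).1 (mem_uf.1 hreg).2.1).1 hreg
    have h2 : ∀ α : Ordinal.{u}, α < l → α.toZFSet ∈ ZFSet.sep (fun x => ∃ y ∈ x, pair x y ∈ f)
        l.toZFSet → ∃ β < α, app f α.toZFSet = β.toZFSet := by
      intro α hα h2
      obtain ⟨_, y, hy, hxy⟩ := mem_sep.1 h2
      obtain ⟨β, hβ, rfl⟩ := Ordinal.mem_toZFSet_iff.1 hy
      exact ⟨β, hβ, (app_iff hff (tz_mem.2 hα)).1 hxy⟩
    obtain ⟨ξ, hξ, h3⟩ := fodor_bdd hcf hω h1 (f := fun α => rank (app f α.toZFSet))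
      fun α hα hαl => by
        obtain ⟨β, hβ, h3⟩ := h2 α hαl hα.2
        rw [h3, Ordinal.rank_toZFSet]
        exact hβ
    refine ⟨ξ, hξ, ?_⟩
    rw [mem_ufC hlim huc hω h (fun z hz => (mem_sep.1 hz).1)]
    · refine h3.mono fun α hα h4 => ⟨h4.1.1, mem_sep.2 ⟨tz_mem.2 hα, ?_⟩⟩
      obtain ⟨β, hβ, h5⟩ := h2 α hα h4.1.2
      have h6 : rank (app f α.toZFSet) < ξ := h4.2
      rw [h5, Ordinal.rank_toZFSet] at h6
      exact ⟨_, tz_mem.2 h6, (app_iff hff (tz_mem.2 hα)).2 h5⟩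
    · refine HOD_sepG (A := fun z x => ∃ y ∈ x 0, pair z y ∈ x 1) ?_
        (HOD_ord l) [ξ.toZFSet, f] ?_
      · exact Dfn.bex Gd_Trs _ (dfn_pm Gd_Trs _ _ _)
      · intro p hp
        simp only [List.mem_cons, List.not_mem_nil, or_false] at hp
        rcases hp with rfl | rfl
        · exact OD_ord ξ
        · exact hf.od

end Pool.Agent.H93.SC
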