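import Pool.Agent.H93.SC.Fod

/-!
The cofinality in `HOD` of an ordinal is a regular cardinal of `HOD` of the same cofinality in `V`.
-/

set_option autoImplicit false
set_option linter.unusedVariables false

namespace Pool.Agent.H93.SC

open ZFSet Gss969 Pool.Agent.H310.HD Pool.Agent.H93.HM

universe u

variable {ρ ν : Ordinal.{u}}

/-- Restriction of functions in `HOD`. -/
theorem HOD_restr {f : ZFSet.{u}} (hf : HOD f) (v : Ordinal.{u}) :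
    HOD (ZFSet.sep (fun z => ∃ a b, z = pair a b ∧ a ∈ v.toZFSet) f) := by
  refine HOD_sepG (A := fun z x => ∃ a b, z = pair a b ∧ a ∈ x 0) ?_ hf [v.toZFSet] ?_
  · exact Dfn_unpair Gd_Trs 0 (A := fun a b v => a ∈ v 1) (Dfn.mem _ _)
  · intro p hp
    rw [List.mem_singleton] at hp
    rw [hp]
    exact OD_ord v

theorem mem_restr {f i A : ZFSet.{u}} {v : Ordinal.{u}} :
    pair i A ∈ ZFSet.sep (fun z => ∃ a b, z = pair a b ∧ a ∈ v.toZFSet) f ↔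
      pair i A ∈ f ∧ i ∈ v.toZFSet := by
  rw [mem_sep]
  refine and_congr_right fun _ => ?_
  constructor
  · rintro ⟨a, b, hab, ha⟩
    rw [pair_inj] at hab
    rw [hab.1]
    exact ha
  · intro hi
    exact ⟨i, A, rfl, hi⟩

/-- The functions on ordinals given by the elements of a cofinal function. -/
theorem Cofi.seq {γ ρ : Ordinal.{u}} {f : ZFSet.{u}} (h : Cofi γ.toZFSet ρ.toZFSet f) :
    (∀ i < γ, rank (app f i.toZFSet) < ρ ∧
      pair i.toZFSet (rank (app f i.toZFSet)).toZFSet ∈ f) ∧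
    ∀ x < ρ, ∃ i < γ, x < rank (app f i.toZFSet) := by
  obtain ⟨hf, hc⟩ := h
  refine ⟨fun i hi => ?_, fun x hx => ?_⟩
  · obtain ⟨y, hy, hy'⟩ := Ordinal.mem_toZFSet_iff.1 (app_mem hf (tz_mem.2 hi))
    have h1 := app_spec hf (tz_mem.2 hi)
    rw [← hy'] at h1 ⊢
    rw [Ordinal.rank_toZFSet]
    exact ⟨hy, h1⟩
  · obtain ⟨n, hn, y, hy, hny, hxy⟩ := hc _ (tz_mem.2 hx)
    obtain ⟨i, hi, rfl⟩ := Ordinal.mem_toZFSet_iff.1 hn
    obtain ⟨y, hy', rfl⟩ := Ordinal.mem_toZFSet_iff.1 hy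
    refine ⟨i, hi, ?_⟩
    rw [(app_iff hf hn).1 hny, Ordinal.rank_toZFSet]
    exact tz_mem.1 hxy

/-- There is in `HOD` a nondecreasing cofinal function from `θ` to `ρ`. -/
def MCof (θ ρ : Ordinal.{u}) : Prop := ∃ f, HOD f ∧ Cofi θ.toZFSet ρ.toZFSet f ∧
  ∀ i j : Ordinal.{u}, i ≤ j → j < θ → rank (app f i.toZFSet) ≤ rank (app f j.toZFSet)

/-- **The cofinality in `HOD`.** -/
theorem exists_hcof (hν : 0 < ν) (hρ : Cf ν.toZFSet ρ.toZFSet) :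
    ∃ θ ≤ ρ, HODReg θ ∧ Cf ν.toZFSet θ.toZFSet ∧ MCof θ ρ ∧
      ∀ γ < θ, ¬ ∃ f, HOD f ∧ Cofi (Ordinal.toZFSet γ) ρ.toZFSet f := by
  obtain ⟨e, he1, he2⟩ := Cf.seq hρ
  have hlim := hρ.lim
  have hρ0 : 0 < ρ := bot_le.trans_lt (he1 0 hν)
  have hid : ∃ f, HOD f ∧ Cofi ρ.toZFSet ρ.toZFSet f := by
    have hsep : ∀ x ∈ ρ.toZFSet, ZFSet.sep (fun z => z ∈ x) ρ.toZFSet = x := by
      intro x hx
      ext z
      rw [mem_sep]
      exact ⟨fun h => h.2, fun h => ⟨(isOrdinal_toZFSet ρ).1.mem_trans h hx, h⟩⟩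
    refine ⟨gr ρ.toZFSet fun i => ZFSet.sep (fun z => z ∈ i) ρ.toZFSet, ?_,
      isFunc_gr fun x hx => by rw [hsep x hx]; exact hx, fun y hy => ?_⟩
    · refine HOD_grG (A := fun z i _ => z ∈ i) (Dfn.mem _ _) (HOD_ord ρ) (HOD_ord ρ) [] ?_
      intro p hp
      simp at hp
    · obtain ⟨y, hy', rfl⟩ := Ordinal.mem_toZFSet_iff.1 hy
      have h1 := tz_mem.2 (hlim y hy')
      refine ⟨_, h1, _, h1, ?_, tz_mem.2 (Order.lt_succ y)⟩
      rw [pair_mem_gr]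
      exact ⟨h1, hsep _ h1⟩
  obtain ⟨θ, ⟨f, hf, hF⟩, hmin⟩ := WellFounded.has_min (wellFounded_lt (α := Ordinal.{u}))
    {θ | ∃ f, HOD f ∧ Cofi θ.toZFSet ρ.toZFSet f} ⟨ρ, hid⟩
  have hθρ : θ ≤ ρ := not_lt.1 (hmin ρ hid)
  obtain ⟨F, hFe⟩ : ∃ F : Ordinal.{u} → Ordinal.{u}, F = fun i => rank (app f i.toZFSet) :=
    ⟨_, rfl⟩
  have hF1 : ∀ i < θ, F i < ρ ∧ pair i.toZFSet (F i).toZFSet ∈ f := by
    rw [hFe]; exact (Cofi.seq hF).1
  have hF2 : ∀ x < ρ, ∃ i < θ, x < F i := by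
    rw [hFe]; exact (Cofi.seq hF).2
  -- initial segments are bounded
  have hbd : ∀ v < θ, ∃ z < ρ, ∀ i < v, F i < z := by
    intro v hv
    by_contra hcon
    push Not at hcon
    refine hmin v ⟨_, HOD_restr hf v, ⟨?_, ?_⟩, ?_⟩ hv
    · intro p hp
      obtain ⟨hpf, a, b, rfl, ha⟩ := mem_sep.1 hp
      exact pair_mem_prod.2 ⟨ha, (pair_mem_prod.1 (hF.1.1 hpf)).2⟩
    · intro i hi
      obtain ⟨i, hi', rfl⟩ := Ordinal.mem_toZFSet_iff.1 hi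
      obtain ⟨w, hw, huniq⟩ := hF.1.2 i.toZFSet (tz_mem.2 (hi'.trans hv))
      exact ⟨w, mem_restr.2 ⟨hw, hi⟩, fun y hy => huniq y (mem_restr.1 hy).1⟩
    · intro y hy
      obtain ⟨y, hy', rfl⟩ := Ordinal.mem_toZFSet_iff.1 hy
      obtain ⟨i, hi, h1⟩ := hcon _ (hlim y hy')
      exact ⟨_, tz_mem.2 hi, _, tz_mem.2 (hF1 i (hi.trans hv)).1,
        mem_restr.2 ⟨(hF1 i (hi.trans hv)).2, tz_mem.2 hi⟩,
        tz_mem.2 ((Order.lt_succ y).trans_le h1)⟩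
  have hθ0 : 0 < θ := by
    obtain ⟨i, hi, _⟩ := hF2 0 hρ0
    exact bot_le.trans_lt hi
  have hθlim : ∀ i < θ, Order.succ i < θ := by
    intro i hi
    refine lt_of_le_of_ne (Order.succ_le_of_lt hi) fun heq => ?_
    obtain ⟨b, hb, hb'⟩ := hbd i hi
    obtain ⟨n, hn, h1⟩ := hF2 (max b (F i)) (max_lt hb (hF1 i hi).1)
    rw [← heq, Order.lt_succ_iff] at hn
    rcases hn.lt_or_eq with h2 | h2
    · exact absurd h1 (not_lt.2 ((hb' n h2).le.trans (le_max_left _ _)))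
    · rw [h2] at h1
      exact absurd h1 (not_lt.2 (le_max_right _ _))
  have hs : ∀ v < θ, ∃ s < ρ, ∀ x, x < s ↔ ∃ i < v, x < F i := by
    intro v hv
    obtain ⟨z, hz, hz'⟩ := hbd v hv
    obtain ⟨s, hs, hsm⟩ := WellFounded.has_min (wellFounded_lt (α := Ordinal.{u}))
      {s | ∀ i < v, F i ≤ s} ⟨z, fun i hi => (hz' i hi).le⟩
    refine ⟨s, (not_lt.1 (hsm z fun i hi => (hz' i hi).le)).trans_lt hz, fun x => ⟨fun hx => ?_,
      ?_⟩⟩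
    · by_contra hcon
      push Not at hcon
      exact hsm x hcon hx
    · rintro ⟨i, hi, h1⟩
      exact h1.trans_le (hs i hi)
  choose! s hs1 hs2 using hs
  refine ⟨θ, hθρ, ⟨hθ0, hθlim, ?_⟩, ⟨?_, ?_⟩, ?_, fun γ hγ h => hmin γ h hγ⟩
  · -- `θ` is regular in `HOD`
    rintro ⟨a, ha, g, hg, hgf, hgc⟩
    obtain ⟨a, ha', rfl⟩ := Ordinal.mem_toZFSet_iff.1 ha
    have happ : ∀ i < a, ∃ v < θ, app g i.toZFSet = v.toZFSet := by
      intro i hi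
      obtain ⟨y, hy, hy'⟩ := Ordinal.mem_toZFSet_iff.1 (app_mem hgf (tz_mem.2 hi))
      exact ⟨y, hy, hy'.symm⟩
    choose! G hG1 hG2 using happ
    have hval : ∀ i < a, ZFSet.sep (fun w => ∃ v ∈ θ.toZFSet, pair i.toZFSet v ∈ g ∧ ∃ j ∈ v,
        ∃ w' ∈ ρ.toZFSet, pair j w' ∈ f ∧ w ∈ w') ρ.toZFSet = (s (G i)).toZFSet := by
      intro i hi
      ext w
      rw [mem_sep]
      constructor
      · rintro ⟨hw, v, hv, hiv, j, hj, w', hw', hjw, hww⟩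
        obtain ⟨w, hw1, rfl⟩ := Ordinal.mem_toZFSet_iff.1 hw
        rw [app_iff hgf (tz_mem.2 hi), hG2 i hi] at hiv
        subst hiv
        obtain ⟨j, hj', rfl⟩ := Ordinal.mem_toZFSet_iff.1 hj
        rw [app_iff hF.1 (tz_mem.2 (hj'.trans (hG1 i hi)))] at hjw
        refine tz_mem.2 ((hs2 _ (hG1 i hi) w).2 ⟨j, hj', ?_⟩)
        rw [hFe]
        simp only
        rw [hjw]
        obtain ⟨w', _, rfl⟩ := Ordinal.mem_toZFSet_iff.1 hw'
        rw [Ordinal.rank_toZFSet]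
        exact tz_mem.1 hww
      · intro hw
        obtain ⟨w, hw1, rfl⟩ := Ordinal.mem_toZFSet_iff.1 hw
        obtain ⟨j, hj, h1⟩ := (hs2 _ (hG1 i hi) w).1 hw1
        have h2 := hF1 j (hj.trans (hG1 i hi))
        refine ⟨tz_mem.2 (h1.trans h2.1), (G i).toZFSet, tz_mem.2 (hG1 i hi), ?_, j.toZFSet,
          tz_mem.2 hj, (F j).toZFSet, tz_mem.2 h2.1, h2.2, tz_mem.2 h1⟩
        exact (app_iff hgf (tz_mem.2 hi)).2 (hG2 i hi)
    refine hmin a ⟨gr a.toZFSet fun i => ZFSet.sep (fun w => ∃ v ∈ θ.toZFSet, pair i v ∈ g ∧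
      ∃ j ∈ v, ∃ w' ∈ ρ.toZFSet, pair j w' ∈ f ∧ w ∈ w') ρ.toZFSet, ?_, isFunc_gr fun x hx => ?_,
        fun y hy => ?_⟩ ha'
    · refine HOD_grG (A := fun w i x => ∃ v ∈ x 0, pair i v ∈ x 1 ∧
        ∃ j ∈ v, ∃ w' ∈ x 2, pair j w' ∈ x 3 ∧ w ∈ w') ?_ (HOD_ord a) (HOD_ord ρ)
        [θ.toZFSet, g, ρ.toZFSet, f] ?_
      · exact Dfn.bex Gd_Trs _ ((dfn_pm Gd_Trs _ _ _).and (Dfn.bex Gd_Trs _ (Dfn.bex Gd_Trs _
          ((dfn_pm Gd_Trs _ _ _).and (Dfn.mem _ _)))))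
      · intro p hp
        simp only [List.mem_cons, List.not_mem_nil, or_false] at hp
        rcases hp with rfl | rfl | rfl | rfl
        · exact OD_ord _
        · exact hg.od
        · exact OD_ord _
        · exact hf.od
    · obtain ⟨i, hi, rfl⟩ := Ordinal.mem_toZFSet_iff.1 hx
      rw [hval i hi]
      exact tz_mem.2 (hs1 _ (hG1 i hi))
    · obtain ⟨y, hy', rfl⟩ := Ordinal.mem_toZFSet_iff.1 hy
      obtain ⟨j, hj, h1⟩ := hF2 y hy'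
      obtain ⟨i, hi, v, hv, hiv, hjv⟩ := hgc _ (tz_mem.2 hj)
      obtain ⟨i, hi', rfl⟩ := Ordinal.mem_toZFSet_iff.1 hi
      rw [app_iff hgf hi, hG2 i hi'] at hiv
      subst hiv
      refine ⟨_, hi, _, tz_mem.2 (hs1 _ (hG1 i hi')), ?_,
        tz_mem.2 ((hs2 _ (hG1 i hi') y).2 ⟨j, tz_mem.1 hjv, h1⟩)⟩
      rw [pair_mem_gr]
      exact ⟨hi, hval i hi'⟩
  · -- a cofinal function from `ν` to `θ`
    have hk : ∀ i < ν, ∃ j < θ, e i < F j := fun i hi => hF2 _ (he1 i hi)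
    choose! k hk1 hk2 using hk
    refine ⟨gr ν.toZFSet fun x => (k (rank x)).toZFSet, isFunc_gr fun x hx => ?_, fun x hx => ?_⟩
    · obtain ⟨i, hi, rfl⟩ := Ordinal.mem_toZFSet_iff.1 hx
      rw [Ordinal.rank_toZFSet]
      exact tz_mem.2 (hk1 i hi)
    · obtain ⟨v, hv, rfl⟩ := Ordinal.mem_toZFSet_iff.1 hx
      by_contra hcon
      push Not at hcon
      obtain ⟨z, hz, hz'⟩ := hbd _ (hθlim v hv)
      obtain ⟨i, hi, h1⟩ := he2 z hz
      refine hcon i.toZFSet (tz_mem.2 hi) (k i).toZFSet (tz_mem.2 (hk1 i hi)) ?_ (tz_mem.2 ?_)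
      · rw [pair_mem_gr, Ordinal.rank_toZFSet]
        exact ⟨tz_mem.2 hi, rfl⟩
      · by_contra h2
        push Not at h2
        exact absurd (h1.trans ((hk2 i hi).trans (hz' _ (Order.lt_succ_iff.2 h2)))) (lt_irrefl _)
  · -- no shorter one
    rintro m hm ⟨f', hf', hc'⟩
    obtain ⟨m, hm', rfl⟩ := Ordinal.mem_toZFSet_iff.1 hm
    obtain ⟨h1, h2⟩ := Cofi.seq ⟨hf', hc'⟩
    choose! z hz1 hz2 using hbd
    obtain ⟨b, hb, hb'⟩ := hρ.uc m hm' (fun i => z (rank (app f' i.toZFSet)))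
      fun i hi => hz1 _ (h1 i hi).1
    obtain ⟨j, hj, h3⟩ := hF2 b hb
    obtain ⟨i, hi, h4⟩ := h2 j hj
    exact absurd ((h3.trans (hz2 _ (h1 i hi).1 j h4)).trans (hb' i hi)) (lt_irrefl _)
  · -- a nondecreasing function
    have hval : ∀ v < θ, ZFSet.sep (fun w => ∃ j ∈ v.toZFSet,
        ∃ w' ∈ ρ.toZFSet, pair j w' ∈ f ∧ w ∈ w') ρ.toZFSet = (s v).toZFSet := by
      intro v hv
      ext w
      rw [mem_sep]
      constructor
      · rintro ⟨hw, j, hj, w', hw', hjw, hww⟩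
        obtain ⟨w, hw1, rfl⟩ := Ordinal.mem_toZFSet_iff.1 hw
        obtain ⟨j, hj', rfl⟩ := Ordinal.mem_toZFSet_iff.1 hj
        rw [app_iff hF.1 (tz_mem.2 (hj'.trans hv))] at hjw
        refine tz_mem.2 ((hs2 v hv w).2 ⟨j, hj', ?_⟩)
        rw [hFe]
        simp only
        rw [hjw]
        obtain ⟨w', _, rfl⟩ := Ordinal.mem_toZFSet_iff.1 hw'
        rw [Ordinal.rank_toZFSet]
        exact tz_mem.1 hww
      · intro hw
        obtain ⟨w, hw1, rfl⟩ := Ordinal.mem_toZFSet_iff.1 hw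
        obtain ⟨j, hj, h1⟩ := (hs2 v hv w).1 hw1
        have h2 := hF1 j (hj.trans hv)
        exact ⟨tz_mem.2 (h1.trans h2.1), j.toZFSet,
          tz_mem.2 hj, (F j).toZFSet, tz_mem.2 h2.1, h2.2, tz_mem.2 h1⟩
    obtain ⟨b, hb⟩ : ∃ b : ZFSet.{u}, b = gr θ.toZFSet fun v => ZFSet.sep (fun w => ∃ j ∈ v,
        ∃ w' ∈ ρ.toZFSet, pair j w' ∈ f ∧ w ∈ w') ρ.toZFSet := ⟨_, rfl⟩
    have hbf : IsFunc θ.toZFSet ρ.toZFSet b := by
      rw [hb]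
      refine isFunc_gr fun x hx => ?_
      obtain ⟨v, hv, rfl⟩ := Ordinal.mem_toZFSet_iff.1 hx
      rw [hval v hv]
      exact tz_mem.2 (hs1 v hv)
    have hbp : ∀ v < θ, pair v.toZFSet (s v).toZFSet ∈ b := by
      intro v hv
      rw [hb, pair_mem_gr]
      exact ⟨tz_mem.2 hv, hval v hv⟩
    have hbr : ∀ v < θ, rank (app b v.toZFSet) = s v := by
      intro v hv
      rw [(app_iff hbf (tz_mem.2 hv)).1 (hbp v hv), Ordinal.rank_toZFSet]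
    refine ⟨b, ?_, ⟨hbf, fun y hy => ?_⟩, fun i j hij hj => ?_⟩
    · rw [hb]
      refine HOD_grG (A := fun w v x => ∃ j ∈ v, ∃ w' ∈ x 0, pair j w' ∈ x 1 ∧ w ∈ w') ?_
        (HOD_ord θ) (HOD_ord ρ) [ρ.toZFSet, f] ?_
      · exact Dfn.bex Gd_Trs _ (Dfn.bex Gd_Trs _ ((dfn_pm Gd_Trs _ _ _).and (Dfn.mem _ _)))
      · intro p hp
        simp only [List.mem_cons, List.not_mem_nil, or_false] at hp
        rcases hp with rfl | rfl
        · exact OD_ord _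
        · exact hf.od
    · obtain ⟨y, hy', rfl⟩ := Ordinal.mem_toZFSet_iff.1 hy
      obtain ⟨i, hi, h1⟩ := hF2 y hy'
      have hi' := hθlim i hi
      exact ⟨_, tz_mem.2 hi', _, tz_mem.2 (hs1 _ hi'), hbp _ hi',
        tz_mem.2 ((hs2 _ hi' y).2 ⟨i, Order.lt_succ i, h1⟩)⟩
    · rw [hbr j hj, hbr i (hij.trans_lt hj)]
      by_contra hcon
      push Not at hcon
      obtain ⟨i', hi', h1⟩ := (hs2 i (hij.trans_lt hj) (s j)).1 hcon
      exact absurd ((hs2 j hj (s j)).2 ⟨i', hi'.trans_le hij, h1⟩) (lt_irrefl _)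

end Pool.Agent.H93.SC
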