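import Pool.Agent.H93.SC.Cho

/-!
Ketonen's argument: the measures concentrate on ordinals whose cofinality in `HOD` is less than
`κ` only if there is a fine measure on `P_κ(l)` in `HOD`.
-/

set_option autoImplicit false
set_option linter.unusedVariables false

namespace Pool.Agent.H93.SC

open ZFSet Gss969 Pool.Agent.H310.HD Pool.Agent.H93.HM

universe u

variable {l κ μ : Ordinal.{u}}

theorem uf_up {A Z X : ZFSet.{u}} (hZ : Z ∈ uf l A) (hX : X ⊆ l.toZFSet) (hXO : HOD X)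
    (h : Z ⊆ X) : X ∈ uf l A :=
  mem_uf.2 ⟨hX, hXO, fun h1 => (mem_uf.1 hZ).2.2 (h1.mono fun α _ h2 =>
    ⟨h2.1, fun h3 => h2.2 (h h3)⟩)⟩

theorem HOD_empty : HOD (∅ : ZFSet.{u}) := by
  have h := HOD_ord (0 : Ordinal.{u})
  rwa [Ordinal.toZFSet_zero] at h

/-- The closure points. -/
noncomputable def clo (l : Ordinal.{u}) (U Y : ZFSet.{u}) : ZFSet.{u} :=
  ZFSet.sep (fun ζ => ∀ η ∈ ζ, ∃ ξ ∈ ζ, ∃ Z ∈ U, ∀ r ∈ Z, ∃ z ∈ ξ, ¬ z ∈ η ∧ pair r z ∈ Y)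
    l.toZFSet

theorem HOD_clo {U Y : ZFSet.{u}} (hU : HOD U) (hY : HOD Y) : HOD (clo l U Y) := by
  refine HOD_sepG (A := fun ζ x => ∀ η ∈ ζ, ∃ ξ ∈ ζ, ∃ Z ∈ x 0, ∀ r ∈ Z, ∃ z ∈ ξ,
    ¬ z ∈ η ∧ pair r z ∈ x 1) ?_ (HOD_ord l) [U, Y] ?_
  · repeat' first
      | exact Dfn.mem _ _ | exact dfn_pm Gd_Trs _ _ _
      | refine Dfn.and ?_ ?_ | refine Dfn.not ?_
      | refine Dfn.ball Gd_Trs _ ?_ | refine Dfn.bex Gd_Trs _ ?_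
  · intro p hp
    simp only [List.mem_cons, List.not_mem_nil, or_false] at hp
    rcases hp with rfl | rfl
    · exact hU.od
    · exact hY.od

/-- Almost all elements of `A` have the property `P`. -/
def Ae (l : Ordinal.{u}) (A : ZFSet.{u}) (P : Ordinal.{u} → Prop) : Prop :=
  ¬ StatL {α | α.toZFSet ∈ A ∧ ¬ P α} l

/-- Weak normality of the closed unbounded filter restricted to `A`, for functions in `HOD`. -/
def WNF (l : Ordinal.{u}) (A : ZFSet.{u}) : Prop :=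
  ∀ Y, HOD Y → Ae l A (fun x => ∃ z < x, pair x.toZFSet z.toZFSet ∈ Y) →
    ∃ ξ < l, ZFSet.sep (fun x => ∃ z ∈ ξ.toZFSet, pair x z ∈ Y) l.toZFSet ∈ uf l A

theorem HOD_bd {Y : ZFSet.{u}} (hY : HOD Y) (ξ : Ordinal.{u}) :
    HOD (ZFSet.sep (fun x => ∃ z ∈ ξ.toZFSet, pair x z ∈ Y) l.toZFSet) := by
  refine HOD_sepG (A := fun r x => ∃ z ∈ x 0, pair r z ∈ x 1) ?_ (HOD_ord l)
    [ξ.toZFSet, Y] ?_
  · exact Dfn.bex Gd_Trs _ (dfn_pm Gd_Trs _ _ _)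
  · intro p hp
    simp only [List.mem_cons, List.not_mem_nil, or_false] at hp
    rcases hp with rfl | rfl
    · exact OD_ord _
    · exact hY.od

/-- Sets which cannot be split. -/
theorem Atom.wnf (hcf : Cf μ.toZFSet l.toZFSet) (hω : Ordinal.omega0 < μ) {A : ZFSet.{u}}
    (hA : Atom l A) : WNF l A := by
  intro Y hYO hY
  have hst : StatL {α | α ∈ {α : Ordinal.{u} | α.toZFSet ∈ A} ∧
      ∃ z < α, pair α.toZFSet z.toZFSet ∈ Y} l := by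
    rcases statTwo hcf.lim hcf.uc hω hA.2.2.1 (fun x => ∃ z < x, pair x.toZFSet z.toZFSet ∈ Y)
      with h | h
    · exact h
    · exact (hY h).elim
  have hch : ∀ x ∈ {α | α ∈ {α : Ordinal.{u} | α.toZFSet ∈ A} ∧
      ∃ z < α, pair α.toZFSet z.toZFSet ∈ Y}, ∃ z < x, pair x.toZFSet z.toZFSet ∈ Y :=
    fun x hx => hx.2
  choose! f hf1 hf2 using hch
  obtain ⟨ξ, hξ, h1⟩ := fodor_bdd hcf hω hst fun α hα _ => hf1 α hα
  refine ⟨ξ, hξ, ?_⟩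
  rw [mem_ufC hcf.lim hcf.uc hω hA (fun z hz => (mem_sep.1 hz).1) (HOD_bd hYO ξ)]
  exact h1.mono fun α hα h2 => ⟨h2.1.1, mem_sep.2 ⟨tz_mem.2 hα, (f α).toZFSet,
    tz_mem.2 h2.2, hf2 α h2.1⟩⟩

/-- The sets `Y_x` meet an interval for almost all `x`. -/
theorem exists_step (hcf : Cf μ.toZFSet l.toZFSet) (hω : Ordinal.omega0 < μ) {A : ZFSet.{u}}
    (hW : WNF l A) {Q : Ordinal.{u} → Prop} (hae : Ae l A Q)
    {Y : ZFSet.{u}} (hYO : HOD Y)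
    (hY : ∀ x < l, Q x → ∀ y < x, ∃ z < x, y < z ∧ pair x.toZFSet z.toZFSet ∈ Y)
    {η : Ordinal.{u}} (hη : η < l) : ∃ ξ < l, η < ξ ∧ ∃ Z ∈ uf l A, ∀ r ∈ Z, ∃ z ∈ ξ.toZFSet,
      ¬ z ∈ η.toZFSet ∧ pair r z ∈ Y := by
  obtain ⟨Y', hY'⟩ : ∃ Y' : ZFSet.{u}, Y' = ZFSet.sep (fun p => ∃ x z, p = pair x z ∧
    (¬ z ∈ η.toZFSet ∧ pair x z ∈ Y)) (prod l.toZFSet l.toZFSet) := ⟨_, rfl⟩
  have hm : ∀ x z, pair x z ∈ Y' ↔ x ∈ l.toZFSet ∧ z ∈ l.toZFSet ∧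
      (¬ z ∈ η.toZFSet ∧ pair x z ∈ Y) := by
    intro x z
    rw [hY']
    exact mem_rel
  have hY'O : HOD Y' := by
    rw [hY']
    refine HOD_rel (A := fun x z v => ¬ z ∈ v 0 ∧ pair x z ∈ v 1) ?_ l l [η.toZFSet, Y] ?_
    · exact (Dfn.mem _ _).not.and (dfn_pm Gd_Trs _ _ _)
    · intro p hp
      simp only [List.mem_cons, List.not_mem_nil, or_false] at hp
      rcases hp with rfl | rfl
      · exact OD_ord _
      · exact hYO.od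
  have hae' : Ae l A (fun x => ∃ z < x, pair x.toZFSet z.toZFSet ∈ Y') := by
    intro h1
    refine hae ((stat_club hcf.lim hcf.uc hω h1
      (fun z hz => (mem_sep.1 hz).1) (club_tail hcf.lim hη)).mono fun α hα h2 =>
        ⟨h2.1.1, fun hQ => h2.1.2 ?_⟩)
    have hηα : η < α := tz_mem.1 (mem_sep.1 h2.2).2
    obtain ⟨z, hz, hηz, h3⟩ := hY α hα hQ η hηα
    refine ⟨z, hz, (hm _ _).2 ⟨tz_mem.2 hα, tz_mem.2 (hz.trans hα), ?_, h3⟩⟩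
    rw [tz_mem]
    exact not_lt.2 hηz.le
  obtain ⟨ξ, hξ, h1⟩ := hW Y' hY'O hae'
  refine ⟨max ξ (Order.succ η), max_lt hξ (hcf.lim η hη),
    (Order.lt_succ η).trans_le (le_max_right _ _), _, h1, fun r hr => ?_⟩
  obtain ⟨_, z, hz, h2⟩ := mem_sep.1 hr
  obtain ⟨_, _, h3, h4⟩ := (hm _ _).1 h2
  exact ⟨z, ord_sub (le_max_left _ _) hz, h3, h4⟩

/-- The closure points are unbounded. -/
theorem clo_unb (huc : Uc l μ) (hω : Ordinal.omega0 < μ) {U Y : ZFSet.{u}}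
    (h : ∀ η < l, ∃ ξ < l, η < ξ ∧ ∃ Z ∈ U, ∀ r ∈ Z, ∃ z ∈ ξ.toZFSet,
      ¬ z ∈ η.toZFSet ∧ pair r z ∈ Y) :
    ∀ ξ < l, ∃ η < l, ξ < η ∧ η.toZFSet ∈ clo l U Y := by
  intro x hx
  choose! N hN1 hN2 Z hZ1 hZ2 using h
  let G : ℕ → Ordinal.{u} := fun n => Nat.rec x (fun _ γ => N γ) n
  have hG : ∀ n, G n < l := by
    intro n
    induction n with
    | zero => exact hx
    | succ n ih => exact hN1 _ ih
  obtain ⟨a, ha, ha1, ha2⟩ := exists_supU huc hω hG fun n => hN2 _ (hG n)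
  refine ⟨a, ha, ha1 0, mem_sep.2 ⟨tz_mem.2 ha, fun η hη => ?_⟩⟩
  obtain ⟨η, hη', rfl⟩ := Ordinal.mem_toZFSet_iff.1 hη
  obtain ⟨n, hn⟩ := ha2 η hη'
  refine ⟨(G (n + 1)).toZFSet, tz_mem.2 (ha1 (n + 1)), Z (G n), hZ1 _ (hG n), fun r hr => ?_⟩
  obtain ⟨z, hz, h1, h2⟩ := hZ2 _ (hG n) r hr
  refine ⟨z, hz, fun h3 => h1 ?_, h2⟩
  exact (isOrdinal_toZFSet _).1.mem_trans h3 (tz_mem.2 hn)

/-- `i` is the index of the interval of the enumeration `w` which contains `z`. -/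
def Idx (w L i z : ZFSet.{u}) : Prop :=
  (∃ ζ ∈ L, pair i ζ ∈ w ∧ ¬ z ∈ ζ) ∧ ∀ j ∈ L, i ∈ j → ∀ ζ ∈ L, pair j ζ ∈ w → z ∈ ζ

theorem dfn_Idx (a b c d : ℕ) : Dfn Gd.{u} (fun v => Idx (v a) (v b) (v c) (v d)) := by
  unfold Idx
  repeat' first
    | exact Dfn.mem _ _ | exact dfn_pm Gd_Trs _ _ _
    | refine Dfn.and ?_ ?_ | refine Dfn.not ?_ | refine Dfn.imp ?_ ?_
    | refine Dfn.ball Gd_Trs _ ?_ | refine Dfn.bex Gd_Trs _ ?_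

theorem Idx.unique {w z : ZFSet.{u}} {i i' : Ordinal.{u}} (hi : i < l) (hi' : i' < l)
    (h : Idx w l.toZFSet i.toZFSet z) (h' : Idx w l.toZFSet i'.toZFSet z) : i = i' := by
  rcases lt_trichotomy i i' with h1 | h1 | h1
  · obtain ⟨⟨ζ, hζ, h2, h3⟩, _⟩ := h'
    exact absurd (h.2 _ (tz_mem.2 hi') (tz_mem.2 h1) ζ hζ h2) h3
  · exact h1
  · obtain ⟨⟨ζ, hζ, h2, h3⟩, _⟩ := h
    exact absurd (h'.2 _ (tz_mem.2 hi) (tz_mem.2 h1) ζ hζ h2) h3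

theorem HOD_PK (κ l : Ordinal.{u}) : HOD (PK κ l) := by
  have h1 : Dfn Gd.{u} (fun v => HOD (v 0) ∧ ∃ γ ∈ v 2, ∃ h, IsFunc γ (v 1) h ∧
    (HOD h ∧ ∀ i ∈ v 0, ∃ j ∈ γ, pair j i ∈ h)) := by
    refine (dfn_HOD _).and (Dfn.bex Gd_Trs _ (Dfn_exfunG _ _ ((dfn_HOD _).and ?_)))
    exact Dfn.ball Gd_Trs _ (Dfn.bex Gd_Trs _ (dfn_pm Gd_Trs _ _ _))
  refine HOD_def (R := fun y x => (∀ z ∈ y, z ⊆ x 0 ∧ (HOD z ∧ ∃ γ ∈ x 1, ∃ h,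
      IsFunc γ (x 0) h ∧ (HOD h ∧ ∀ i ∈ z, ∃ j ∈ γ, pair j i ∈ h))) ∧
      ∀ z, z ⊆ x 0 → (HOD z ∧ ∃ γ ∈ x 1, ∃ h,
      IsFunc γ (x 0) h ∧ (HOD h ∧ ∀ i ∈ z, ∃ j ∈ γ, pair j i ∈ h)) → z ∈ y)
    ?_ [l.toZFSet, κ.toZFSet] ?_ (fun y => ?_) fun z hz => (mem_sep.1 hz).2.1
  · refine Dfn.and (Dfn.ball Gd_Trs _ ((dfn_sub Gd_Trs _ _).and ?_))
      (Dfn.allsub Gd_Lvl _ (Dfn.imp ?_ (Dfn.mem _ _)))
    · exact Dfn_reindex h1 (fun n => if n = 0 then 0 else n + 1)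
    · exact Dfn_reindex h1 (fun n => if n = 0 then 0 else n + 1)
  · intro p hp
    simp only [List.mem_cons, List.not_mem_nil, or_false] at hp
    rcases hp with rfl | rfl
    · exact OD_ord _
    · exact OD_ord _
  · show ((∀ z ∈ y, z ⊆ l.toZFSet ∧ (HOD z ∧ ∃ γ ∈ κ.toZFSet, ∃ h,
      IsFunc γ l.toZFSet h ∧ (HOD h ∧ ∀ i ∈ z, ∃ j ∈ γ, pair j i ∈ h))) ∧
      ∀ z, z ⊆ l.toZFSet → (HOD z ∧ ∃ γ ∈ κ.toZFSet, ∃ h,
      IsFunc γ l.toZFSet h ∧ (HOD h ∧ ∀ i ∈ z, ∃ j ∈ γ, pair j i ∈ h)) → z ∈ y) ↔ _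
    constructor
    · rintro ⟨h1, h2⟩
      ext z
      unfold PK
      rw [mem_sep, mem_powerset]
      exact ⟨h1 z, fun h => h2 z h.1 h.2⟩
    · rintro rfl
      unfold PK
      exact ⟨fun z hz => ⟨mem_powerset.1 (mem_sep.1 hz).1, (mem_sep.1 hz).2⟩,
        fun z h1 h2 => mem_sep.2 ⟨mem_powerset.2 h1, h2⟩⟩

/-- The index function of the elements of the range of a function. -/
theorem idx_fun {w f : ZFSet.{u}} (hwO : HOD w) (hfO : HOD f) {γ θ : Ordinal.{u}} (hθ0 : 0 < θ)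
    (hθl : θ ≤ l) (hf : IsFunc γ.toZFSet l.toZFSet f) :
    ∃ F, HOD F ∧ IsFunc γ.toZFSet θ.toZFSet F ∧ ∀ j ∈ γ.toZFSet, ∀ i ∈ θ.toZFSet,
      ∀ z ∈ l.toZFSet, pair j z ∈ f → Idx w l.toZFSet i z → pair j i ∈ F := by
  classical
  obtain ⟨h, hh⟩ : ∃ h : ZFSet.{u}, h = ZFSet.sep (fun p => ∃ j i, p = pair j i ∧
    ((∃ z ∈ l.toZFSet, pair j z ∈ f ∧ Idx w l.toZFSet i z) ∨
      ((∀ t ∈ i, ¬ t = t) ∧ ∀ i' ∈ θ.toZFSet, ∀ z ∈ l.toZFSet, pair j z ∈ f →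
        ¬ Idx w l.toZFSet i' z))) (prod γ.toZFSet θ.toZFSet) := ⟨_, rfl⟩
  have hhm : ∀ j i, pair j i ∈ h ↔ j ∈ γ.toZFSet ∧ i ∈ θ.toZFSet ∧
      ((∃ z ∈ l.toZFSet, pair j z ∈ f ∧ Idx w l.toZFSet i z) ∨
      ((∀ t ∈ i, ¬ t = t) ∧ ∀ i' ∈ θ.toZFSet, ∀ z ∈ l.toZFSet, pair j z ∈ f →
        ¬ Idx w l.toZFSet i' z)) := by
    intro j i
    rw [hh]
    exact mem_rel
  have hhO : HOD h := by
    rw [hh]
    refine HOD_rel (A := fun j i v => (∃ z ∈ v 0, pair j z ∈ v 1 ∧ Idx (v 2) (v 0) i z) ∨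
      ((∀ t ∈ i, ¬ t = t) ∧ ∀ i' ∈ v 3, ∀ z ∈ v 0, pair j z ∈ v 1 →
        ¬ Idx (v 2) (v 0) i' z)) ?_ γ θ [l.toZFSet, f, w, θ.toZFSet] ?_
    · refine Dfn.or ?_ (Dfn.and ?_ ?_)
      · exact Dfn.bex Gd_Trs _ ((dfn_pm Gd_Trs _ _ _).and (dfn_Idx _ _ _ _))
      · exact Dfn.ball Gd_Trs _ (Dfn.eq _ _).not
      · exact Dfn.ball Gd_Trs _ (Dfn.ball Gd_Trs _ ((dfn_pm Gd_Trs _ _ _).imp
          (dfn_Idx _ _ _ _).not))
    · intro p hp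
      simp only [List.mem_cons, List.not_mem_nil, or_false] at hp
      rcases hp with rfl | rfl | rfl | rfl
      · exact OD_ord _
      · exact hfO.od
      · exact hwO.od
      · exact OD_ord _
  have hθl' := ord_sub hθl
  refine ⟨h, hhO, ⟨fun p hp => ?_, fun j hj => ?_⟩, fun j hj i hi z hz h1 h2 =>
    (hhm _ _).2 ⟨hj, hi, Or.inl ⟨z, hz, h1, h2⟩⟩⟩
  · rw [hh] at hp
    exact (mem_sep.1 hp).1
  · by_cases hex : ∃ i ∈ θ.toZFSet, ∃ z ∈ l.toZFSet, pair j z ∈ f ∧ Idx w l.toZFSet i z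
    · obtain ⟨i, hi, z, hz, h1, h2⟩ := hex
      refine ⟨i, (hhm _ _).2 ⟨hj, hi, Or.inl ⟨z, hz, h1, h2⟩⟩, fun i' hi' => ?_⟩
      obtain ⟨_, hi'l, h3 | h3⟩ := (hhm _ _).1 hi'
      · obtain ⟨z', hz', h4, h5⟩ := h3
        rw [← (app_iff hf hj).1 h4, (app_iff hf hj).1 h1] at h5
        obtain ⟨i, hi1, rfl⟩ := Ordinal.mem_toZFSet_iff.1 hi
        obtain ⟨i', hi'1, rfl⟩ := Ordinal.mem_toZFSet_iff.1 hi'l
        rw [Idx.unique (hi1.trans_le hθl) (hi'1.trans_le hθl) h2 h5]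
      · exact absurd h2 (h3.2 i hi z hz h1)
    · push Not at hex
      refine ⟨(0 : Ordinal.{u}).toZFSet, (hhm _ _).2 ⟨hj, tz_mem.2 hθ0, Or.inr ⟨?_, ?_⟩⟩,
        fun i' hi' => ?_⟩
      · intro t ht
        obtain ⟨t, ht', _⟩ := Ordinal.mem_toZFSet_iff.1 ht
        exact absurd ht' (not_lt.2 bot_le)
      · exact hex
      · obtain ⟨_, hi'l, h3 | h3⟩ := (hhm _ _).1 hi'
        · obtain ⟨z', hz', h4, h5⟩ := h3
          exact absurd h5 (hex i' hi'l z' hz' h4)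
        · obtain ⟨i', hi'1, rfl⟩ := Ordinal.mem_toZFSet_iff.1 hi'l
          rcases (bot_le : (0 : Ordinal.{u}) ≤ i').lt_or_eq with h5 | h5
          · exact absurd rfl (h3.1 _ (tz_mem.2 h5))
          · exact congrArg Ordinal.toZFSet h5.symm

/-- **Ketonen's function.** -/
theorem exists_wg (hcf : Cf μ.toZFSet l.toZFSet) (hω : Ordinal.omega0 < μ) {A : ZFSet.{u}}
    (hAO : HOD A) (hW : WNF l A) {Q : Ordinal.{u} → Prop} (hae : Ae l A Q)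
    (hreg : HODReg l) {Y : ZFSet.{u}} (hYO : HOD Y)
    (hY : ∀ x < l, Q x → ∀ y < x, ∃ z < x, y < z ∧ pair x.toZFSet z.toZFSet ∈ Y) :
    ∃ w g, HOD w ∧ HOD g ∧ IsFunc l.toZFSet l.toZFSet w ∧
      (∀ x i, pair x i ∈ g ↔ x ∈ l.toZFSet ∧ i ∈ l.toZFSet ∧
        ∃ z ∈ l.toZFSet, pair x z ∈ Y ∧ Idx w l.toZFSet i z) ∧
      ∀ i < l, ZFSet.sep (fun x => pair x i.toZFSet ∈ g) l.toZFSet ∈ uf l A := by
  classical
  have hstep := fun η (hη : η < l) => exists_step hcf hω hW hae hYO hY hη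
  have hUO : HOD (uf l A) := HOD_uf hAO
  obtain ⟨E, hE⟩ : ∃ E : ZFSet.{u}, E = clo l (uf l A) Y := ⟨_, rfl⟩
  have hEO : HOD E := by rw [hE]; exact HOD_clo hUO hYO
  have hunb : ∀ ξ < l, ∃ η < l, ξ < η ∧ η.toZFSet ∈ E := by
    rw [hE]; exact clo_unb hcf.uc hω hstep
  obtain ⟨w, hw⟩ := exists_Enum' (enum_all hEO.od hunb hreg.2.2)
  have hwO : HOD w := (OD_enum hEO.od hw).hod_func hw.1
  obtain ⟨hwf, hw1, hw2, hw3⟩ := hw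
  obtain ⟨g, hg⟩ : ∃ g : ZFSet.{u}, g = ZFSet.sep (fun p => ∃ x i, p = pair x i ∧
      ∃ z ∈ l.toZFSet, pair x z ∈ Y ∧ Idx w l.toZFSet i z) (prod l.toZFSet l.toZFSet) := ⟨_, rfl⟩
  have hgm : ∀ x i, pair x i ∈ g ↔ x ∈ l.toZFSet ∧ i ∈ l.toZFSet ∧
      ∃ z ∈ l.toZFSet, pair x z ∈ Y ∧ Idx w l.toZFSet i z := by
    intro x i
    rw [hg]
    exact mem_rel
  have hgO : HOD g := by
    rw [hg]
    refine HOD_rel (A := fun x i v => ∃ z ∈ v 0, pair x z ∈ v 1 ∧ Idx (v 2) (v 0) i z) ?_ l l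
      [l.toZFSet, Y, w] ?_
    · exact Dfn.bex Gd_Trs _ ((dfn_pm Gd_Trs _ _ _).and (dfn_Idx _ _ _ _))
    · intro p hp
      simp only [List.mem_cons, List.not_mem_nil, or_false] at hp
      rcases hp with rfl | rfl | rfl
      · exact OD_ord _
      · exact hYO.od
      · exact hwO.od
  refine ⟨w, g, hwO, hgO, hwf, hgm, fun i hi => ?_⟩
  have hi' : Order.succ i < l := hcf.lim i hi
  have hz : ∀ i < l, ∃ ζ < l, pair i.toZFSet (Ordinal.toZFSet ζ) ∈ w ∧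
      (Ordinal.toZFSet ζ) ∈ E := by
    intro i hi
    obtain ⟨y, hy, hy'⟩ := Ordinal.mem_toZFSet_iff.1 (app_mem hwf (tz_mem.2 hi))
    have h1 := app_spec hwf (tz_mem.2 hi)
    rw [← hy'] at h1
    exact ⟨y, hy, h1, hw1 _ (tz_mem.2 hi) _ (tz_mem.2 hy) h1⟩
  obtain ⟨ζ0, hζ0, h1, h2⟩ := hz i hi
  obtain ⟨ζ1, hζ1, h3, h4⟩ := hz _ hi'
  have h01 := hw2 _ (tz_mem.2 hi') _ (tz_mem.2 (Order.lt_succ i)) _ (tz_mem.2 hζ1) _
    (tz_mem.2 hζ0) h3 h1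
  rw [hE] at h4
  obtain ⟨ξ, hξ, Z, hZ, hZr⟩ := (mem_sep.1 h4).2 _ h01
  refine uf_up hZ (fun z hz => (mem_sep.1 hz).1) ?_ fun r hr => ?_
  · refine HOD_sepG (A := fun x v => pair x (v 0) ∈ v 1) (dfn_pm Gd_Trs _ _ _) (HOD_ord l)
      [i.toZFSet, g] ?_
    intro p hp
    simp only [List.mem_cons, List.not_mem_nil, or_false] at hp
    rcases hp with rfl | rfl
    · exact OD_ord _
    · exact hgO.od
  · obtain ⟨z, hzξ, h5, h6⟩ := hZr r hr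
    have hrl := (mem_uf.1 hZ).1 hr
    have hzζ := (isOrdinal_toZFSet ζ1).1.mem_trans hzξ hξ
    refine mem_sep.2 ⟨hrl, (hgm _ _).2 ⟨hrl, tz_mem.2 hi, z,
      (isOrdinal_toZFSet l).1.mem_trans hzζ (tz_mem.2 hζ1), h6, ⟨_, tz_mem.2 hζ0, h1, h5⟩,
      fun j hj hij ζ hζ hjζ => ?_⟩⟩
    obtain ⟨j, hj', rfl⟩ := Ordinal.mem_toZFSet_iff.1 hj
    rcases (Order.succ_le_of_lt (tz_mem.1 hij)).lt_or_eq with h7 | h7
    · have h8 := hw2 _ hj _ (tz_mem.2 h7) _ hζ _ (tz_mem.2 hζ1) hjζ h3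
      obtain ⟨ζ, _, rfl⟩ := Ordinal.mem_toZFSet_iff.1 hζ
      exact (isOrdinal_toZFSet ζ).1.mem_trans hzζ h8
    · rw [← h7] at hjζ
      rw [← (app_iff hwf (tz_mem.2 hi')).1 hjζ, (app_iff hwf (tz_mem.2 hi')).1 h3]
      exact hzζ

/-- **The function into `P_κ(l)`.** -/
theorem exists_g (hcf : Cf μ.toZFSet l.toZFSet) (hω : Ordinal.omega0 < μ) {A : ZFSet.{u}}
    (hAO : HOD A) (hW : WNF l A) (hae : Ae l A (SCof κ)) (hκ0 : 0 < κ) (hreg : HODReg l) :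
    ∃ g, HOD g ∧ (∀ x < l, ZFSet.sep (fun i => pair x.toZFSet i ∈ g) l.toZFSet ∈ PK κ l) ∧
      ∀ i < l, ZFSet.sep (fun x => pair x i.toZFSet ∈ g) l.toZFSet ∈ uf l A := by
  classical
  have hl0 := hreg.1
  obtain ⟨Y, hYO, hY1, hY2⟩ := exists_Y l κ
  obtain ⟨w, g, hwO, hgO, hwf, hgm, hgU⟩ := exists_wg hcf hω hAO hW hae hreg hYO hY1
  refine ⟨g, hgO, fun x hx => ?_, hgU⟩
  refine mem_sep.2 ⟨mem_powerset.2 fun z hz => (mem_sep.1 hz).1, ?_, ?_⟩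
  · refine HOD_sepG (A := fun i v => pair (v 0) i ∈ v 1) (dfn_pm Gd_Trs _ _ _) (HOD_ord l)
      [x.toZFSet, g] ?_
    intro p hp
    simp only [List.mem_cons, List.not_mem_nil, or_false] at hp
    rcases hp with rfl | rfl
    · exact OD_ord _
    · exact hgO.od
  · rcases hY2 x hx with ⟨γ, hγ, f, hfO, hf, hfY⟩ | h0
    · obtain ⟨h, hhO, hhf, hh⟩ := idx_fun hwO hfO hl0 le_rfl hf
      refine ⟨_, tz_mem.2 hγ, h, hhf, hhO, fun i hi => ?_⟩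
      obtain ⟨_, h1⟩ := mem_sep.1 hi
      obtain ⟨_, hil, z, hz, h2, h3⟩ := (hgm _ _).1 h1
      obtain ⟨j, hj, h4⟩ := hfY z h2
      exact ⟨j, hj, hh j hj i hil z hz h4 h3⟩
    · refine ⟨_, tz_mem.2 hκ0, ∅, ⟨fun p hp => ?_, fun j hj => ?_⟩, HOD_empty, fun i hi => ?_⟩
      · exact absurd hp (notMem_empty _)
      · obtain ⟨t, ht', _⟩ := Ordinal.mem_toZFSet_iff.1 hj
        exact absurd ht' (not_lt.2 bot_le)
      · obtain ⟨_, h1⟩ := mem_sep.1 hi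
        obtain ⟨_, hil, z, hz, h2, h3⟩ := (hgm _ _).1 h1
        exact absurd h2 (h0 z)

/-- Almost all elements of `A` belong to all sets of a short sequence in `uf l A`. -/
theorem stat_all (hcf : Cf μ.toZFSet l.toZFSet) (hω : Ordinal.omega0 < μ) {A : ZFSet.{u}}
    {S : Set Ordinal.{u}} (hS : StatL S l) (hSA : ∀ α ∈ S, α.toZFSet ∈ A) {m : Ordinal.{u}}
    (hm : m < μ) {X : Ordinal.{u} → ZFSet.{u}} (hX : ∀ i < m, X i ∈ uf l A) :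
    StatL {α | α ∈ S ∧ ∀ i < m, α.toZFSet ∈ X i} l := by
  rcases statTwo hcf.lim hcf.uc hω hS (fun α => ∀ i < m, α.toZFSet ∈ X i) with h | h
  · exact h
  · exfalso
    obtain ⟨i, hi, h1⟩ := stat_union hcf.lim hcf.uc hω hm h (P := fun i α => α.toZFSet ∉ X i)
      fun α hα _ => by
        have := hα.2
        push Not at this
        exact this
    exact (mem_uf.1 (hX i hi)).2.2 (h1.mono fun α _ h2 => ⟨hSA α h2.1.1, h2.2⟩)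

/-- The cofinality in `HOD` is not constant. -/
theorem no_const (hcf : Cf μ.toZFSet l.toZFSet) (hω : Ordinal.omega0 < μ) {A : ZFSet.{u}}
    (hAO : HOD A) (hW : WNF l A) (hreg : HODReg l) {θ m : Ordinal.{u}} (hθl : θ < l)
    (hθ : HODReg θ) (hm : m < μ) (hmθ : Cf m.toZFSet θ.toZFSet) (hae : Ae l A (MCof θ)) :
    ¬ StatL {α | α.toZFSet ∈ A} l := by
  intro hst0
  have hst : StatL {α | α ∈ {α : Ordinal.{u} | α.toZFSet ∈ A} ∧ MCof θ α} l := by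
    rcases statTwo hcf.lim hcf.uc hω hst0 (fun α => MCof θ α) with h | h
    · exact h
    · exact (hae h).elim
  obtain ⟨Y, hYO, hY⟩ := exists_Y2 l θ
  obtain ⟨w, g, hwO, hgO, hwf, hgm, hgU⟩ := exists_wg hcf hω hAO hW hae hreg hYO
    fun x hx h => (hY x hx h).1
  obtain ⟨e, he1, he2⟩ := Cf.seq hmθ
  obtain ⟨y, hy, hy'⟩ := Ordinal.mem_toZFSet_iff.1 (app_mem hwf (tz_mem.2 hθl))
  have hyw := app_spec hwf (tz_mem.2 hθl)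
  rw [← hy'] at hyw
  have h1 := stat_club hcf.lim hcf.uc hω (stat_all hcf hω hst (fun α hα => hα.1) hm
    (X := fun i => ZFSet.sep (fun x => pair x (e i).toZFSet ∈ g) l.toZFSet)
    fun i hi => hgU _ ((he1 i hi).trans hθl)) (fun z hz => (mem_sep.1 hz).1)
    (club_tail hcf.lim hy)
  obtain ⟨x, hx, ⟨⟨_, hxM⟩, hxg⟩, hxt⟩ := statNe hcf.lim h1
  have hyx : y < x := tz_mem.1 (mem_sep.1 hxt).2
  obtain ⟨γ, hγ, f, hfO, hf, hfY⟩ := (hY x hx hxM).2 y hyx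
  obtain ⟨F, hFO, hF, hFi⟩ := idx_fun hwO hfO hθ.1 hθl.le hf
  refine hθ.2.2 ⟨_, tz_mem.2 hγ, F, hFO, hF, fun v hv => ?_⟩
  obtain ⟨v, hv', rfl⟩ := Ordinal.mem_toZFSet_iff.1 hv
  obtain ⟨n, hn, hvn⟩ := he2 v hv'
  obtain ⟨_, _, z, hz, h2, h3⟩ := (hgm _ _).1 (mem_sep.1 (hxg n hn)).2
  have hzy : z ∈ y.toZFSet := h3.2 _ (tz_mem.2 hθl) (tz_mem.2 (he1 n hn)) _ (tz_mem.2 hy) hyw
  obtain ⟨j, hj, h4⟩ := hfY z h2 hzy
  exact ⟨j, hj, _, tz_mem.2 (he1 n hn), hFi j hj _ (tz_mem.2 (he1 n hn)) z hz h4 h3,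
    tz_mem.2 hvn⟩

end Pool.Agent.H93.SC
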