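import Pool.Agent.H93.SC.Card

/-!
The failure of alternative (A) above an extendible cardinal: weakly normal measures and fine measures
in `HOD`, and the cofinalities of the successor cardinals of `HOD`.
-/

set_option autoImplicit false
set_option linter.unusedVariables false

namespace Pool.Agent.H93.SC

open ZFSet Gss969 Pool.Agent.H310.HD Pool.Agent.H93.HM Pool.Agent.Results.MP_e37c09_lc.AlternativeA

universe u

variable {l κ μ ν γ : Ordinal.{u}}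

/-- Existence of sets which cannot be split, if (A) fails. -/
theorem exists_atoms {δ : Ordinal.{u}} (hδ : Extendible δ) (hA : ¬ AltA δ) (hν : ν < δ) :
    ∃ β < δ, Ordinal.omega0 < β ∧ ν < β ∧
      (∀ μ ≥ β, ∀ l : Ordinal.{u}, Cf μ.toZFSet l.toZFSet → ∀ S, HOD S →
        S ⊆ SCf l.toZFSet ν.toZFSet → StatL {α | α.toZFSet ∈ S} l → ∃ A, Atom l A ∧ A ⊆ S) ∧
      ∀ l ≥ β, ∀ μ : Ordinal.{u}, Cf μ.toZFSet l.toZFSet → Ordinal.omega0 < μ → ∃ c ≤ l, ∀ S,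
        S ⊆ SCf l.toZFSet ν.toZFSet →
          ¬ ∃ g, HOD g ∧ DisjFam (Ordinal.toZFSet c) l.toZFSet S g := by
  obtain ⟨c, hc1, hc2, hc3⟩ := noSplitC hδ hA hν
  have hsl := Extendible.strongLimit hδ c hc2
  have hlim : ∀ x < δ, Order.succ x < δ := fun x hx => hδ.regUnc.succ_lt hx
  have hcc : c.ord ≤ ((2 : Cardinal.{u}) ^ c).ord := Cardinal.ord_le_ord.2 (Cardinal.cantor c).le
  refine ⟨Order.succ (max (max Ordinal.omega0 ν) ((2 : Cardinal.{u}) ^ c).ord),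
    hlim _ (max_lt (max_lt hδ.om_lt hν) hsl), ?_, ?_, fun μ hμ l hcf S hS hSν hst => ?_,
    fun l hl μ hcf hω => ⟨c.ord, ?_, fun S hSν => ?_⟩⟩
  · exact ((le_max_left _ _).trans (le_max_left _ _)).trans_lt (Order.lt_succ _)
  · exact ((le_max_right _ _).trans (le_max_left _ _)).trans_lt (Order.lt_succ _)
  · have hω : Ordinal.omega0 < μ :=
      (((le_max_left _ _).trans (le_max_left _ _)).trans_lt (Order.lt_succ _)).trans_le hμ
    have hcμ : ((2 : Cardinal.{u}) ^ c).ord < μ :=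
      ((le_max_right _ _).trans_lt (Order.lt_succ _)).trans_le hμ
    obtain ⟨α, hα, _⟩ := statNe hcf.lim hst
    refine exists_atomC hcf.lim hcf.uc hω (hSν.trans SCf_sub) hS hst hc1 hcμ
      fun ⟨g, hg, hF⟩ => hc3 l (Uc.ucof (bot_le.trans_lt hα) hcf.lim hcf.uc hω)
        ⟨g, hg, hF.mono hSν⟩
  · exact ((hcc.trans (le_max_right _ _)).trans (Order.le_succ _)).trans hl
  · rintro ⟨g, hg, hF⟩
    have hl0 : 0 < l := (bot_le.trans_lt (Order.lt_succ _)).trans_le hl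
    exact hc3 l (Uc.ucof hl0 hcf.lim hcf.uc hω) ⟨g, hg, hF.mono hSν⟩

/-- **The consequences of the failure of (A) for one cofinality.** -/
theorem main_nu {δ : Ordinal.{u}} (hδ : Extendible δ) (hA : ¬ AltA δ) (hν : ν < δ) (hνr : Rg ν) :
    ∃ β < δ, Ordinal.omega0 < β ∧ ν < β ∧ ∀ l μ : Ordinal.{u}, Cf μ.toZFSet l.toZFSet →
      (β ≤ μ → ∀ X, HOD X → X ⊆ l.toZFSet →
        StatL {α | α.toZFSet ∈ X ∧ Cf ν.toZFSet α.toZFSet} l →
        ∃ U, WNorm μ l U ∧ ZFSet.sep (fun a => a ∈ X ∧ Cf ν.toZFSet a) l.toZFSet ∈ U) ∧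
      (HODReg l → β ≤ l → ν < μ → Ordinal.omega0 < μ →
        ¬ StatL {α | Cf ν.toZFSet α.toZFSet ∧ ¬ HODReg α} l ∨
        ∃ θ < l, Block ν μ θ l ∧ (β ≤ μ → ∃ W, FineU μ θ l W)) := by
  obtain ⟨β, hβ, hωβ, hνβ, h, hns⟩ := exists_atoms hδ hA hν
  refine ⟨β, hβ, hωβ, hνβ, fun l μ hcf => ⟨fun hμ X hX hXl hst => ?_,
    fun hreg hβl hνμ hω => ?_⟩⟩
  · obtain ⟨S, hS⟩ : ∃ S : ZFSet.{u}, S =
      ZFSet.sep (fun a => a ∈ X ∧ Cf ν.toZFSet a) l.toZFSet := ⟨_, rfl⟩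
    have hSO : HOD S := by
      rw [hS]
      refine HOD_sepG (A := fun a x => a ∈ x 0 ∧ Cf (x 1) a) ((Dfn.mem _ _).and (dfn_Cf _ _))
        (HOD_ord l) [X, ν.toZFSet] ?_
      intro p hp
      simp only [List.mem_cons, List.not_mem_nil, or_false] at hp
      rcases hp with rfl | rfl
      · exact hX.od
      · exact OD_ord ν
    obtain ⟨A, hA1, hA2⟩ := h μ hμ l hcf S hSO (fun z hz => by
      rw [hS] at hz
      exact mem_sep.2 ⟨(mem_sep.1 hz).1, (mem_sep.1 hz).2.2⟩) (hst.mono fun α hα h1 => by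
        show α.toZFSet ∈ S
        rw [hS]
        exact mem_sep.2 ⟨tz_mem.2 hα, h1⟩)
    refine ⟨uf l A, wnorm_uf hcf (hωβ.trans_le hμ) hA1, ?_⟩
    rw [← hS]
    refine mem_uf.2 ⟨fun z hz => ?_, hSO, fun h1 => ?_⟩
    · rw [hS] at hz
      exact (mem_sep.1 hz).1
    · obtain ⟨α, _, h2, h3⟩ := statNe hcf.lim h1
      exact h3 (hA2 h2)
  · by_cases hst : StatL {α | Cf ν.toZFSet α.toZFSet ∧ ¬ HODReg α} l
    · right
      obtain ⟨S, hSO, hSν, hSm⟩ := sing_set l hνr.1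
      have hSst : StatL {α | α.toZFSet ∈ S ∧ ¬ HODReg α} l := hst.mono fun α hα h1 =>
        ⟨(hSm α).2 ⟨hα, h1⟩, h1.2⟩
      obtain ⟨c, hcl, hno⟩ := hns l hβl μ hcf hω
      obtain ⟨θ, hθ, hB, hsm⟩ := dichotomy hcf hω hνr.1 hνμ hreg hcl hSO hSν (hno S hSν) hSst
      refine ⟨θ, hθ, hB, fun hμ => ?_⟩
      obtain ⟨A, hA1, hA2⟩ := h μ hμ l hcf (small l θ S) (HOD_small hSO)
        (fun z hz => hSν (mem_sep.1 hz).2.1) hsm
      exact exists_fine hcf hω hA1 (fun α hα => (mem_small.1 (hA2 hα)).2.2) hreg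
    · exact Or.inl hst

/-- **The consequences of the failure of (A).** -/
theorem main_str {δ : Ordinal.{u}} (hδ : Extendible δ) (hA : ¬ AltA δ) (hν : ν < δ)
    (hνr : Rg ν) : ∃ β < δ, ∀ l μ : Ordinal.{u}, Cf μ.toZFSet l.toZFSet →
      (β ≤ μ → ∀ X, HOD X → X ⊆ l.toZFSet →
        StatL {α | α.toZFSet ∈ X ∧ Cf ν.toZFSet α.toZFSet} l →
        ∃ U, WNorm μ l U ∧ ZFSet.sep (fun a => a ∈ X ∧ Cf ν.toZFSet a) l.toZFSet ∈ U) ∧
      (HODReg l → β ≤ l → Ordinal.omega0 < μ → ν < μ →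
        (∃ C, C ⊆ l.toZFSet ∧ Club C l.toZFSet ∧ ∀ α : Ordinal.{u}, α.toZFSet ∈ C → HODReg α) ∨
        ∃ θ < l, Block ν μ θ l ∧ (β ≤ μ → ∃ W, FineU μ θ l W)) ∧
      (∀ γ ≥ β, HSucc γ l → Ordinal.omega0 < μ → ν < μ →
        ∃ θ ≤ γ, (IsCard γ.toZFSet → θ = γ) ∧ Block ν μ θ l ∧
          (β ≤ μ → ∃ W, FineU μ θ l W)) := by
  obtain ⟨β0, hβ0, hω0, _, h0⟩ := main_nu hδ hA hδ.om_lt rg_omega0
  obtain ⟨β1, hβ1, hω1, hν1, h1⟩ := main_nu hδ hA hν hνr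
  refine ⟨max β0 β1, max_lt hβ0 hβ1, fun l μ hcf => ⟨fun hμ => (h1 l μ hcf).1
    ((le_max_right _ _).trans hμ), fun hreg hl hω hνμ => ?_, fun γ hγ hs hω hνμ => ?_⟩⟩
  · by_cases hst : StatL {α | Cf Ordinal.omega0.toZFSet α.toZFSet ∧ ¬ HODReg α} l
    · right
      rcases (h0 l μ hcf).2 hreg ((le_max_left _ _).trans hl) hω hω with h2 | ⟨θ, hθ, hB, _⟩
      · exact absurd hst h2
      · rcases (h1 l μ hcf).2 hreg ((le_max_right _ _).trans hl) hνμ hω with h2 | ⟨θ', hθ', hB', h3⟩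
        · exact absurd (hB.stat hθ hcf hω hνμ hνr) h2
        · exact ⟨θ', hθ', hB', fun hμ => h3 ((le_max_right _ _).trans hμ)⟩
    · exact Or.inl (club_regs hcf hω hst)
  · have h2 : StatL {β | β.toZFSet ∈ SCf l.toZFSet ν.toZFSet} l :=
      stat_SCf hcf.uc le_rfl hνμ hνr
    rcases (h1 l μ hcf).2 hs.2.1 (((le_max_right _ _).trans hγ).trans hs.1.le) hνμ hω with
      h3 | ⟨θ, hθ, hB, h3⟩
    · exact (h3 ((hs.stat hcf hω h2).mono fun α _ h => ⟨(mem_SCf.1 h.1).2, h.2⟩)).elim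
    · exact ⟨θ, hB.le hθ hs, fun hcard => hB.card hω (hB.le hθ hs) hs.1.le hcard, hB,
        fun hμ => h3 ((le_max_right _ _).trans hμ)⟩

/-- The set in `HOD` of the `α < l` which are regular in `HOD`. -/
theorem reg_set (l : Ordinal.{u}) : ∃ X, HOD X ∧ X ⊆ l.toZFSet ∧
    ∀ α : Ordinal.{u}, 0 < α → (∀ x < α, Order.succ x < α) →
      (α.toZFSet ∈ X ↔ α < l ∧ HODReg α) := by
  refine ⟨ZFSet.sep (fun a => ¬ CofinalP HOD a) l.toZFSet,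
    HOD_sepG (A := fun a _ => ¬ CofinalP HOD a) (dfn_SingH _).not (HOD_ord l) [] (by simp),
    fun z hz => (mem_sep.1 hz).1, fun α h0 hlim => ?_⟩
  rw [mem_sep, tz_mem]
  exact and_congr_right fun _ => ⟨fun h => ⟨h0, hlim, h⟩, fun h => h.2.2⟩

/-- **The structure theorem.** -/
theorem main_final {δ : Ordinal.{u}} (hδ : Extendible δ) (hA : ¬ AltA δ) (hν : ν < δ)
    (hνr : Rg ν) : ∃ β < δ, ∀ l ≥ β, ∀ μ : Ordinal.{u}, HODReg l → Cf μ.toZFSet l.toZFSet →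
      Ordinal.omega0 < μ → ν < μ →
      ((∀ γ, ¬ HSucc γ l) ∧
        (∃ C, C ⊆ l.toZFSet ∧ Club C l.toZFSet ∧ ∀ α : Ordinal.{u}, α.toZFSet ∈ C → HODReg α) ∧
        (β ≤ μ → ∃ U, WNorm μ l U ∧
          ∃ Z ∈ U, ∀ α : Ordinal.{u}, α.toZFSet ∈ Z → HODReg α ∧ Cf ν.toZFSet α.toZFSet)) ∨
      ∃ θ < l, Block ν μ θ l ∧ (β ≤ μ → ∃ W, FineU μ θ l W) ∧
        ∀ γ, HSucc γ l → θ ≤ γ ∧ (IsCard γ.toZFSet → θ = γ) ∧ (RegUnc γ.toZFSet → μ = γ) := by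
  obtain ⟨β0, hβ0, hω0, _, h0⟩ := main_nu hδ hA hδ.om_lt rg_omega0
  obtain ⟨β1, hβ1, hω1, hν1, h1⟩ := main_nu hδ hA hν hνr
  refine ⟨max β0 β1, max_lt hβ0 hβ1, fun l hl μ hreg hcf hω hνμ => ?_⟩
  have hω' : StatL {β | β.toZFSet ∈ SCf l.toZFSet ν.toZFSet} l := stat_SCf hcf.uc le_rfl hνμ hνr
  by_cases hst : StatL {α | Cf Ordinal.omega0.toZFSet α.toZFSet ∧ ¬ HODReg α} l
  · right
    rcases (h0 l μ hcf).2 hreg ((le_max_left _ _).trans hl) hω hω with h2 | ⟨θ, hθ, hB, _⟩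
    · exact absurd hst h2
    · rcases (h1 l μ hcf).2 hreg ((le_max_right _ _).trans hl) hνμ hω with
        h2 | ⟨θ', hθ', hB', h3⟩
      · exact absurd (hB.stat hθ hcf hω hνμ hνr) h2
      · refine ⟨θ', hθ', hB', fun hμ => h3 ((le_max_right _ _).trans hμ), fun γ hs =>
          ⟨hB'.le hθ' hs, fun hcard => hB'.card hω (hB'.le hθ' hs) hs.1.le hcard, fun hκ =>
            Cf.unique (hB'.eq hω hθ' hs (Or.inl hκ.isCard)) (cf_of_regUnc hκ)⟩⟩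
  · left
    obtain ⟨C, hC1, hC2, hC3⟩ := club_regs hcf hω hst
    refine ⟨fun γ hs => ?_, ⟨C, hC1, hC2, hC3⟩, fun hμ => ?_⟩
    · obtain ⟨c, hc, hγc⟩ := hC2.2.1 _ (tz_mem.2 hs.1)
      obtain ⟨c, hc', rfl⟩ := Ordinal.mem_toZFSet_iff.1 (hC1 hc)
      exact hs.2.2 c (tz_mem.1 hγc) hc' (hC3 c hc)
    · obtain ⟨X, hXO, hXl, hX⟩ := reg_set l
      have h2 : StatL {α | α.toZFSet ∈ X ∧ Cf ν.toZFSet α.toZFSet} l := by
        refine (stat_club hcf.lim hcf.uc hω hω' hC1 hC2).mono fun α hα h => ?_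
        have h3 := hC3 α h.2
        exact ⟨(hX α h3.1 h3.2.1).2 ⟨hα, h3⟩, (mem_SCf.1 h.1).2⟩
      obtain ⟨U, hU1, hU2⟩ := (h1 l μ hcf).1 ((le_max_right _ _).trans hμ) X hXO hXl h2
      refine ⟨U, ⟨hU1.hod, hU1.sub, hU1.ultra, hU1.tail, hU1.complete, hU1.wnormal⟩, _, hU2,
        fun α hα => ?_⟩
      obtain ⟨h3, h4, h5⟩ := mem_sep.1 hα
      exact ⟨((hX α (Cf.pos hνr.1 h5) h5.lim).1 h4).2, h5⟩

/-- **The cofinalities of the regular cardinals of `HOD`** if (A) fails. -/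
theorem gap_ext {δ : Ordinal.{u}} (hδ : Extendible δ) (hA : ¬ AltA δ) (hν : ν < δ)
    (hνr : Rg ν) : ∃ β < δ, ∀ l ≥ β, ∀ μ : Ordinal.{u}, HODReg l → Cf μ.toZFSet l.toZFSet →
      Ordinal.omega0 < μ → ν < μ → ∀ a < l,
        (∀ b, a ≤ b → b ≤ l → HODReg b → Cf μ.toZFSet b.toZFSet) ∨
        ∃ b, a < b ∧ b < l ∧ HODReg b ∧ Cf ν.toZFSet b.toZFSet := by
  obtain ⟨β, hβ, hωβ, hνβ, h⟩ := main_nu hδ hA hν hνr
  refine ⟨β, hβ, fun l hl μ hreg hcf hω hνμ a hal => ?_⟩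
  rcases (h l μ hcf).2 hreg hl hνμ hω with h1 | ⟨θ, hθ, hB, _⟩
  · right
    have h2 : StatL {β | β.toZFSet ∈ SCf l.toZFSet ν.toZFSet} l :=
      stat_SCf hcf.uc le_rfl hνμ hνr
    rcases statTwo hcf.lim hcf.uc hω h2 (fun α => HODReg α) with h3 | h3
    · obtain ⟨b, hb, ⟨h4, h5⟩, h6⟩ := statNe hcf.lim (stat_club hcf.lim hcf.uc hω h3
        (fun z hz => (mem_sep.1 hz).1) (club_tail hcf.lim hal))
      exact ⟨b, tz_mem.1 (mem_sep.1 h6).2, hb, h5, (mem_SCf.1 h4).2⟩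
    · exact (h1 (h3.mono fun α _ h => ⟨(mem_SCf.1 h.1).2, h.2⟩)).elim
  · by_cases hθa : θ ≤ a
    · exact Or.inl fun b h1 h2 h3 => hB.same b (hθa.trans h1) h2 h3
    · push Not at hθa
      obtain ⟨b, h1, h2, h3, h4⟩ := hB.lim _ (hB.cof.lim a hθa)
      exact Or.inr ⟨b, (Order.lt_succ a).trans_le h1, h2.trans hθ, h3, h4⟩

/-- **The criterion for (A).** -/
theorem main_iff {δ : Ordinal.{u}} (hδ : Extendible δ) :
    AltA δ ↔ ∃ a b μ : Ordinal.{u}, δ ≤ a ∧ a < b ∧ HODReg a ∧ HODReg b ∧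
      Cf μ.toZFSet b.toZFSet ∧ Ordinal.omega0 < μ ∧ ¬ Cf μ.toZFSet a.toZFSet ∧
      ∀ c, a < c → c < b → HODReg c → ¬ Cf Ordinal.omega0.toZFSet c.toZFSet := by
  constructor
  · intro h
    have hbig : BigCof δ := ((result true δ hδ).out 0 6).1 h
    obtain ⟨l, hl, hr⟩ := exists_regUnc δ
    refine ⟨δ, l, l, le_rfl, hl, hodReg_of_regUnc hδ.regUnc, hodReg_of_regUnc hr,
      cf_of_regUnc hr, hδ.om_lt.trans hl, fun h1 => absurd hl (not_lt.2 (Cf.le h1)),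
      fun c h1 _ h2 h3 => ?_⟩
    have h4 := hbig c h1 h2 _ h3.1
    rw [Ordinal.card_omega0] at h4
    have h5 : δ.card ≤ Cardinal.aleph0 := (Ordinal.card_le_card h1.le).trans h4
    have h6 : Cf δ.toZFSet δ.toZFSet := cf_of_regUnc hδ.regUnc
    have h7 : δ ≤ Ordinal.omega0 := by
      rw [← Cf.card h6, ← Cardinal.ord_aleph0]
      exact Cardinal.ord_le_ord.2 h5
    exact absurd hδ.om_lt (not_lt.2 h7)
  · rintro ⟨a, b, μ, hδa, hab, ha, hb, hcf, hω, hn, hno⟩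
    by_contra hA
    obtain ⟨β, hβ, h⟩ := gap_ext hδ hA hδ.om_lt rg_omega0
    rcases h b (hβ.le.trans (hδa.trans hab.le)) μ hb hcf hω hω a hab with h1 | ⟨c, h1, h2, h3, h4⟩
    · exact hn (h1 a le_rfl hab.le ha)
    · exact hno c h1 h2 h3 h4

/-- **Successor cardinals of `HOD` which equal the successor cardinal.** -/
theorem notStrMeas_succ (hγω : Ordinal.omega0 ≤ γ) (hγ : IsCard γ.toZFSet) (hs : HSucc γ l)
    (hcf : Cf μ.toZFSet l.toZFSet) (hμ : μ ≠ Ordinal.omega0) (hn : ¬ Cf μ.toZFSet γ.toZFSet)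
    (b : Bool) : NotStrMeas b l := by
  have h0 : Cardinal.aleph0 ≤ γ.card := by
    have := Ordinal.card_le_card hγω
    rwa [Ordinal.card_omega0] at this
  rcases succ_cof hγω hγ hs hcf with h1 | h1 | h1
  · have hreg : RegUnc l.toZFSet := by
      rw [h1]
      exact regUnc_ord (Cardinal.isRegular_succ h0) (h0.trans_lt (Order.lt_succ _))
    refine notStrMeas_of_sing b hreg ((statL_om hreg hs.1).mono fun α hα h2 => ⟨h2.2, ?_⟩)
    by_contra hcon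
    exact hs.2.2 α h2.1 hα ⟨h2.2.lim.1, h2.2.lim.2, hcon⟩
  · exact absurd h1 hμ
  · exact absurd h1 hn

end Pool.Agent.H93.SC
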