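import Pool.Agent.H93.SC.Fine

/-!
Weak normality, for functions in `HOD`, of the restrictions of the closed unbounded filter to
sets which cannot be split in `HOD` into many stationary sets.
-/

set_option autoImplicit false
set_option linter.unusedVariables false

namespace Pool.Agent.H93.SC

open ZFSet Gss969 Pool.Agent.H310.HD Pool.Agent.H93.HM

universe u

variable {l κ μ ν : Ordinal.{u}}

/-- The least `z` with `pair a z ∈ Y` is, for many `a ∈ A`, between `x` and `y`. -/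
def Pos (U A Y x y : ZFSet.{u}) : Prop :=
  ∀ X ∈ U, ∃ a ∈ X, a ∈ A ∧ (∀ z ∈ x, ¬ pair a z ∈ Y) ∧ ∃ z ∈ y, pair a z ∈ Y

theorem dfn_Pos (a b c d e : ℕ) :
    Dfn Gd.{u} (fun v => Pos (v a) (v b) (v c) (v d) (v e)) := by
  unfold Pos
  repeat' first
    | exact Dfn.mem _ _ | exact dfn_pm Gd_Trs _ _ _
    | refine Dfn.and ?_ ?_ | refine Dfn.not ?_
    | refine Dfn.ball Gd_Trs _ ?_ | refine Dfn.bex Gd_Trs _ ?_

theorem sat_step (hcf : Cf μ.toZFSet l.toZFSet) (hω : Ordinal.omega0 < μ) {A Y : ZFSet.{u}}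
    (hYO : HOD Y) (hY : Ae l A (fun x => ∃ z < x, pair x.toZFSet z.toZFSet ∈ Y))
    (hcon : ∀ ξ < l, ZFSet.sep (fun x => ∃ z ∈ ξ.toZFSet, pair x z ∈ Y) l.toZFSet ∉ uf l A) :
    ∀ ξ < l, ∃ ξ' < l, ξ < ξ' ∧ Pos (uf l A) A Y ξ.toZFSet (Ordinal.toZFSet ξ') := by
  intro ξ hξ
  have h1 : StatL {α | α.toZFSet ∈ A ∧ α.toZFSet ∉
      ZFSet.sep (fun x => ∃ z ∈ ξ.toZFSet, pair x z ∈ Y) l.toZFSet} l := by
    by_contra h2
    exact hcon ξ hξ (mem_uf.2 ⟨fun z hz => (mem_sep.1 hz).1, HOD_bd hYO ξ, h2⟩)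
  obtain ⟨T, hT⟩ : ∃ T : Set Ordinal.{u}, T = {α | α ∈ {α : Ordinal.{u} | α.toZFSet ∈ A ∧
      α.toZFSet ∉ ZFSet.sep (fun x => ∃ z ∈ ξ.toZFSet, pair x z ∈ Y) l.toZFSet} ∧
      ∃ z < α, pair α.toZFSet z.toZFSet ∈ Y} := ⟨_, rfl⟩
  have h2 : StatL T l := by
    rw [hT]
    rcases statTwo hcf.lim hcf.uc hω h1 (fun x => ∃ z < x, pair x.toZFSet z.toZFSet ∈ Y)
      with h | h
    · exact h
    · exact (hY (h.mono fun α _ h3 => ⟨h3.1.1, h3.2⟩)).elim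
  have hch : ∀ x ∈ T, ∃ z < x, pair x.toZFSet z.toZFSet ∈ Y := by
    intro x hx
    rw [hT] at hx
    exact hx.2
  choose! f hf1 hf2 using hch
  obtain ⟨ξ', hξ', h3⟩ := fodor_bdd hcf hω h2 fun α hα _ => hf1 α hα
  have h4 : Pos (uf l A) A Y ξ.toZFSet ξ'.toZFSet := by
    intro X hX
    rcases statTwo hcf.lim hcf.uc hω h3 (fun α => α.toZFSet ∈ X) with h | h
    · obtain ⟨α, hα, h5⟩ := statNe hcf.lim h
      obtain ⟨⟨h6, h7⟩, h8⟩ := h5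
      have h6' := h6
      rw [hT] at h6'
      refine ⟨_, h8, h6'.1.1, fun z hz h9 => ?_, _, tz_mem.2 h7, hf2 α h6⟩
      exact h6'.1.2 (mem_sep.2 ⟨tz_mem.2 hα, z, hz, h9⟩)
    · refine ((mem_uf.1 hX).2.2 (h.mono fun α _ h5 => ⟨?_, h5.2⟩)).elim
      have h6 := h5.1.1
      rw [hT] at h6
      exact h6.1.1
  refine ⟨ξ', hξ', ?_, h4⟩
  by_contra hle
  push Not at hle
  obtain ⟨X, hX⟩ : ∃ X, X ∈ uf l A := ⟨l.toZFSet, mem_uf.2 ⟨fun z hz => hz, HOD_ord l, fun h5 => by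
    obtain ⟨α, hα, h6⟩ := statNe hcf.lim h5
    exact h6.2 (tz_mem.2 hα)⟩⟩
  obtain ⟨a, _, _, h5, z, hz, h6⟩ := h4 X hX
  exact h5 z (ord_sub hle hz) h6

/-- **Weak normality of saturated filters.** -/
theorem sat_wnf (hcf : Cf μ.toZFSet l.toZFSet) (hω : Ordinal.omega0 < μ) (hreg : HODReg l)
    {c : Ordinal.{u}} (hcl : c ≤ l) {A : ZFSet.{u}} (hAO : HOD A) (hAl : A ⊆ l.toZFSet)
    (hno : ¬ ∃ g, HOD g ∧ DisjFam c.toZFSet l.toZFSet A g) : WNF l A := by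
  classical
  intro Y hYO hY
  by_contra hcon
  push Not at hcon
  have hstep := sat_step hcf hω hYO hY hcon
  have hUO : HOD (uf l A) := HOD_uf hAO
  obtain ⟨E, hE⟩ : ∃ E : ZFSet.{u}, E = ZFSet.sep (fun ζ => ∀ ξ ∈ ζ, ∃ ξ' ∈ ζ,
    Pos (uf l A) A Y ξ ξ') l.toZFSet := ⟨_, rfl⟩
  have hEO : HOD E := by
    rw [hE]
    refine HOD_sepG (A := fun ζ x => ∀ ξ ∈ ζ, ∃ ξ' ∈ ζ, Pos (x 0) (x 1) (x 2) ξ ξ') ?_
      (HOD_ord l) [uf l A, A, Y] ?_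
    · exact Dfn.ball Gd_Trs _ (Dfn.bex Gd_Trs _ (dfn_Pos _ _ _ _ _))
    · intro p hp
      simp only [List.mem_cons, List.not_mem_nil, or_false] at hp
      rcases hp with rfl | rfl | rfl
      · exact hUO.od
      · exact hAO.od
      · exact hYO.od
  have hunb : ∀ ξ < l, ∃ η < l, ξ < η ∧ η.toZFSet ∈ E := by
    intro x hx
    choose! N hN1 hN2 hN3 using hstep
    let G : ℕ → Ordinal.{u} := fun n => Nat.rec x (fun _ γ => N γ) n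
    have hG : ∀ n, G n < l := by
      intro n
      induction n with
      | zero => exact hx
      | succ n ih => exact hN1 _ ih
    obtain ⟨a, ha, ha1, ha2⟩ := exists_supU hcf.uc hω hG fun n => hN2 _ (hG n)
    refine ⟨a, ha, ha1 0, ?_⟩
    rw [hE]
    refine mem_sep.2 ⟨tz_mem.2 ha, fun η hη => ?_⟩
    obtain ⟨η, hη', rfl⟩ := Ordinal.mem_toZFSet_iff.1 hη
    obtain ⟨n, hn⟩ := ha2 η hη'
    refine ⟨(G (n + 1)).toZFSet, tz_mem.2 (ha1 (n + 1)), fun X hX => ?_⟩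
    obtain ⟨a, h1, h2, h3, h4⟩ := hN3 _ (hG n) X hX
    exact ⟨a, h1, h2, fun z hz => h3 z (ord_sub hn.le hz), h4⟩
  obtain ⟨w, hw⟩ := exists_Enum' (enum_all hEO.od hunb hreg.2.2)
  have hwO : HOD w := (OD_enum hEO.od hw).hod_func hw.1
  obtain ⟨hwf, hw1, hw2, hw3⟩ := hw
  have hz : ∀ i < l, ∃ ζ < l, pair i.toZFSet (Ordinal.toZFSet ζ) ∈ w ∧
      (Ordinal.toZFSet ζ) ∈ E := by
    intro i hi
    obtain ⟨y, hy, hy'⟩ := Ordinal.mem_toZFSet_iff.1 (app_mem hwf (tz_mem.2 hi))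
    have h1 := app_spec hwf (tz_mem.2 hi)
    rw [← hy'] at h1
    exact ⟨y, hy, h1, hw1 _ (tz_mem.2 hi) _ (tz_mem.2 hy) h1⟩
  refine hno ⟨gr c.toZFSet fun i => ZFSet.sep (fun a => a ∈ A ∧
    ((∃ ζ ∈ l.toZFSet, pair i ζ ∈ w ∧ ∀ z ∈ ζ, ¬ pair a z ∈ Y) ∧
      ∀ j ∈ l.toZFSet, i ∈ j → ∀ ζ ∈ l.toZFSet, pair j ζ ∈ w → ∃ z ∈ ζ, pair a z ∈ Y))
      l.toZFSet, ?_, isFunc_gr fun i hi => mem_powerset.2 fun z hz =>
        (mem_sep.1 hz).1, ?_, ?_⟩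
  · refine HOD_grG (A := fun a i x => a ∈ x 0 ∧
      ((∃ ζ ∈ x 1, pair i ζ ∈ x 2 ∧ ∀ z ∈ ζ, ¬ pair a z ∈ x 3) ∧
      ∀ j ∈ x 1, i ∈ j → ∀ ζ ∈ x 1, pair j ζ ∈ x 2 → ∃ z ∈ ζ, pair a z ∈ x 3)) ?_
        (HOD_ord _) (HOD_ord _) [A, l.toZFSet, w, Y] ?_
    · repeat' first
        | exact Dfn.mem _ _ | exact dfn_pm Gd_Trs _ _ _
        | refine Dfn.and ?_ ?_ | refine Dfn.not ?_ | refine Dfn.imp ?_ ?_
        | refine Dfn.ball Gd_Trs _ ?_ | refine Dfn.bex Gd_Trs _ ?_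
    · intro p hp
      simp only [List.mem_cons, List.not_mem_nil, or_false] at hp
      rcases hp with rfl | rfl | rfl | rfl
      · exact hAO.od
      · exact OD_ord l
      · exact hwO.od
      · exact hYO.od
  · intro i hi D hD hiD
    rw [pair_mem_gr] at hiD
    obtain ⟨_, hiD⟩ := hiD
    obtain ⟨i, hic, rfl⟩ := Ordinal.mem_toZFSet_iff.1 hi
    have hil := hic.trans_le hcl
    have hi' : Order.succ i < l := hcf.lim i hil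
    obtain ⟨ζ0, hζ0, h1, h2⟩ := hz i hil
    obtain ⟨ζ1, hζ1, h3, h4⟩ := hz _ hi'
    have h01 := hw2 _ (tz_mem.2 hi') _ (tz_mem.2 (Order.lt_succ i)) _ (tz_mem.2 hζ1) _
      (tz_mem.2 hζ0) h3 h1
    rw [hE] at h4
    obtain ⟨ξ, hξ, hP⟩ := (mem_sep.1 h4).2 _ h01
    have hDm : ∀ a, a ∈ D ↔ a ∈ l.toZFSet ∧ (a ∈ A ∧
        ((∃ ζ ∈ l.toZFSet, pair i.toZFSet ζ ∈ w ∧ ∀ z ∈ ζ, ¬ pair a z ∈ Y) ∧
        ∀ j ∈ l.toZFSet, i.toZFSet ∈ j → ∀ ζ ∈ l.toZFSet, pair j ζ ∈ w →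
          ∃ z ∈ ζ, pair a z ∈ Y)) := by
      intro a
      rw [← hiD, mem_sep]
    have hDO : HOD D := by
      rw [← hiD]
      refine HOD_sepG (A := fun a x => a ∈ x 0 ∧
        ((∃ ζ ∈ x 1, pair (x 4) ζ ∈ x 2 ∧ ∀ z ∈ ζ, ¬ pair a z ∈ x 3) ∧
        ∀ j ∈ x 1, x 4 ∈ j → ∀ ζ ∈ x 1, pair j ζ ∈ x 2 → ∃ z ∈ ζ, pair a z ∈ x 3)) ?_
          (HOD_ord _) [A, l.toZFSet, w, Y, i.toZFSet] ?_
      · repeat' first
          | exact Dfn.mem _ _ | exact dfn_pm Gd_Trs _ _ _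
          | refine Dfn.and ?_ ?_ | refine Dfn.not ?_ | refine Dfn.imp ?_ ?_
          | refine Dfn.ball Gd_Trs _ ?_ | refine Dfn.bex Gd_Trs _ ?_
      · intro p hp
        simp only [List.mem_cons, List.not_mem_nil, or_false] at hp
        rcases hp with rfl | rfl | rfl | rfl | rfl
        · exact hAO.od
        · exact OD_ord l
        · exact hwO.od
        · exact hYO.od
        · exact OD_ord i
    refine ⟨?_, fun a ha => ((hDm a).1 ha).2.1⟩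
    have hst : StatL {α | α.toZFSet ∈ A ∧ α.toZFSet ∈ D} l := by
      by_contra hns
      have hX : (l.toZFSet \ D) ∈ uf l A := by
        refine mem_uf.2 ⟨fun z hz => (mem_sdiff.1 hz).1, HOD_diff hDO, fun h5 => hns
          (h5.mono fun α hα h6 => ⟨h6.1, ?_⟩)⟩
        by_contra h7
        exact h6.2 (mem_sdiff.2 ⟨tz_mem.2 hα, h7⟩)
      obtain ⟨a, h5, h6, h7, z, h8, h9⟩ := hP _ hX
      obtain ⟨h5, h10⟩ := mem_sdiff.1 h5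
      refine h10 ((hDm a).2 ⟨h5, h6, ⟨_, tz_mem.2 hζ0, h1, h7⟩, fun j hj hij ζ hζ hjζ =>
        ⟨z, ?_, h9⟩⟩)
      have hzζ := (isOrdinal_toZFSet ζ1).1.mem_trans h8 hξ
      obtain ⟨j, hj', rfl⟩ := Ordinal.mem_toZFSet_iff.1 hj
      rcases (Order.succ_le_of_lt (tz_mem.1 hij)).lt_or_eq with h11 | h11
      · have h12 := hw2 _ hj _ (tz_mem.2 h11) _ hζ _ (tz_mem.2 hζ1) hjζ h3
        obtain ⟨ζ, _, rfl⟩ := Ordinal.mem_toZFSet_iff.1 hζ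
        exact (isOrdinal_toZFSet ζ).1.mem_trans hzζ h12
      · rw [← h11] at hjζ
        rw [← (app_iff hwf (tz_mem.2 hi')).1 hjζ, (app_iff hwf (tz_mem.2 hi')).1 h3]
        exact hzζ
    intro C hC1 hC2
    obtain ⟨β, _, h5, h6⟩ := hst C hC1 hC2
    exact ⟨_, h5.2, h6⟩
  · rintro i hi i' hi' D hD D' hD' hiD hiD' ⟨b, hb, hb'⟩
    rw [pair_mem_gr] at hiD hiD'
    rw [← hiD.2, mem_sep] at hb
    rw [← hiD'.2, mem_sep] at hb'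
    obtain ⟨_, _, ⟨ζ, hζ, h1, h2⟩, h3⟩ := hb
    obtain ⟨_, _, ⟨ζ', hζ', h1', h2'⟩, h3'⟩ := hb'
    obtain ⟨i, hic, rfl⟩ := Ordinal.mem_toZFSet_iff.1 hi
    obtain ⟨i', hic', rfl⟩ := Ordinal.mem_toZFSet_iff.1 hi'
    rcases lt_trichotomy i i' with h | h | h
    · obtain ⟨z, hz1, hz2⟩ := h3 _ (tz_mem.2 (hic'.trans_le hcl)) (tz_mem.2 h) ζ' hζ' h1'
      exact absurd hz2 (h2' z hz1)
    · rw [h]
    · obtain ⟨z, hz1, hz2⟩ := h3' _ (tz_mem.2 (hic.trans_le hcl)) (tz_mem.2 h) ζ hζ h1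
      exact absurd hz2 (h2 z hz1)

end Pool.Agent.H93.SC
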