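import Pool.Agent.H93.SC.Club

/-!
Splitting of stationary subsets of regular cardinals of `HOD` into many stationary sets, in `HOD`.
-/

set_option autoImplicit false
set_option linter.unusedVariables false

namespace Pool.Agent.H93.SC

open ZFSet Gss969 Pool.Agent.H310.HD Pool.Agent.H93.HM

universe u

variable {l κ μ ν γ : Ordinal.{u}}

theorem dfn_SingH (a : ℕ) : Dfn Gd.{u} (fun v => CofinalP HOD (v a)) := by
  refine Dfn.congr (A := fun v => ∃ c ∈ v a, ∃ g, IsFunc c (v a) g ∧ (HOD g ∧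
    ∀ y ∈ v a, ∃ x ∈ c, ∃ z ∈ v a, pair x z ∈ g ∧ y ∈ z)) ?_ fun v => ?_
  · refine Dfn.bex Gd_Trs _ (Dfn_exfunG _ _ ((dfn_HOD _).and ?_))
    exact Dfn.ball Gd_Trs _ (Dfn.bex Gd_Trs _ (Dfn.bex Gd_Trs _
      ((dfn_pm Gd_Trs _ _ _).and (Dfn.mem _ _))))
  · unfold CofinalP
    refine exists_congr fun c => and_congr_right fun _ => exists_congr fun g => ?_
    exact ⟨fun h => ⟨h.2.1, h.1, h.2.2⟩, fun h => ⟨h.2.1, h.1, h.2.2⟩⟩

theorem Cf.pos {m : Ordinal.{u}} (hm : 0 < m) (h : Cf m.toZFSet l.toZFSet) : 0 < l := by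
  obtain ⟨e, he1, _⟩ := Cf.seq h
  exact bot_le.trans_lt (he1 0 hm)

theorem Cf.le {m : Ordinal.{u}} (h : Cf m.toZFSet l.toZFSet) : m ≤ l := by
  obtain ⟨m', hm', h'⟩ := exists_Cf h.lim
  rwa [Cf.unique h h']

theorem hodReg_of_regUnc (h : RegUnc l.toZFSet) : HODReg l := by
  refine ⟨h.pos, fun x hx => h.succ_lt hx, ?_⟩
  rintro ⟨a, ha, g, hg, hgf, hc⟩
  obtain ⟨b, hb, h1⟩ := h.2.2 a ha g hgf
  obtain ⟨x, hx, z, hz, hxz, hbz⟩ := hc b hb
  exact mem_asymm hbz (h1 x hx z hz hxz)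

theorem cf_of_regUnc (h : RegUnc l.toZFSet) : Cf l.toZFSet l.toZFSet := by
  obtain ⟨m, hm, h'⟩ := exists_Cf (θ := l) fun x hx => h.succ_lt hx
  rcases hm.lt_or_eq with h1 | h1
  · exfalso
    obtain ⟨f, hf, hc⟩ := h'.1
    obtain ⟨b, hb, h2⟩ := h.2.2 _ (tz_mem.2 h1) f hf
    obtain ⟨x, hx, z, hz, hxz, hbz⟩ := hc b hb
    exact mem_asymm hbz (h2 x hx z hz hxz)
  · rwa [h1] at h'

/-- The set in `HOD` of the `α < l` of cofinality `ν` which are singular in `HOD`. -/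
theorem sing_set (l : Ordinal.{u}) (hν : 0 < ν) : ∃ S, HOD S ∧ S ⊆ SCf l.toZFSet ν.toZFSet ∧
    ∀ α : Ordinal.{u}, α.toZFSet ∈ S ↔ α < l ∧ Cf ν.toZFSet α.toZFSet ∧ ¬ HODReg α := by
  obtain ⟨S, hS⟩ : ∃ S : ZFSet.{u}, S =
    ZFSet.sep (fun a => Cf ν.toZFSet a ∧ CofinalP HOD a) l.toZFSet := ⟨_, rfl⟩
  have hSO : HOD S := by
    rw [hS]
    refine HOD_sepG (A := fun a x => Cf (x 0) a ∧ CofinalP HOD a)
      ((dfn_Cf _ _).and (dfn_SingH _)) (HOD_ord l) [ν.toZFSet] ?_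
    intro p hp
    simp only [List.mem_cons, List.not_mem_nil, or_false] at hp
    rw [hp]
    exact OD_ord ν
  refine ⟨S, hSO, fun z hz => ?_, fun α => ?_⟩
  · rw [hS] at hz
    exact mem_sep.2 ⟨(mem_sep.1 hz).1, (mem_sep.1 hz).2.1⟩
  · rw [hS, mem_sep, tz_mem]
    refine and_congr_right fun _ => and_congr_right fun hα => ?_
    constructor
    · intro h1 h2
      exact h2.2.2 h1
    · intro h1
      by_contra h2
      exact h1 ⟨Cf.pos hν hα, hα.lim, h2⟩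

theorem Block.le {θ : Ordinal.{u}} (hB : Block ν μ θ l) (hθ : θ < l) (hs : HSucc γ l) :
    θ ≤ γ := by
  by_contra hcon
  push Not at hcon
  obtain ⟨θ', h2, h3, h4, _⟩ := hB.lim _ (hB.cof.lim γ hcon)
  exact hs.2.2 θ' ((Order.lt_succ γ).trans_le h2) (h3.trans hθ) h4

theorem Block.card {θ : Ordinal.{u}} (hB : Block ν μ θ l) (hω : Ordinal.omega0 < μ)
    (hθγ : θ ≤ γ) (hγl : γ ≤ l) (hcard : IsCard γ.toZFSet) : θ = γ := by
  by_contra hne
  have hlt : θ < γ := lt_of_le_of_ne hθγ hne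
  have hμθ := Cf.le hB.cof
  have hωθ : Ordinal.omega0 < θ := hω.trans_le hμθ
  obtain ⟨n, hn⟩ : ∃ n : Cardinal.{u}, n = Order.succ θ.card := ⟨_, rfl⟩
  have h0 : Cardinal.aleph0 ≤ θ.card := by
    have := Ordinal.card_le_card hωθ.le
    rwa [Ordinal.card_omega0] at this
  have hreg : RegUnc n.ord.toZFSet := by
    refine regUnc_ord ?_ ?_
    · rw [hn]
      exact Cardinal.isRegular_succ h0
    · rw [hn]
      exact h0.trans_lt (Order.lt_succ _)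
  have hθn : θ < n.ord := by
    rw [Cardinal.lt_ord, hn]
    exact Order.lt_succ _
  have hnγ : n.ord ≤ γ := by
    refine le_trans ?_ (Cardinal.ord_card_le γ)
    rw [Cardinal.ord_le_ord, hn]
    exact Order.succ_le_of_lt (hcard.card_lt hlt)
  have h2 := hB.same n.ord hθn.le (hnγ.trans hγl) (hodReg_of_regUnc hreg)
  rw [Cf.unique h2 (cf_of_regUnc hreg)] at hμθ
  exact absurd hθn (not_lt.2 hμθ)

theorem Block.eq {θ : Ordinal.{u}} (hB : Block ν μ θ l) (hω : Ordinal.omega0 < μ) (hθ : θ < l)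
    (hs : HSucc γ l) (hor : IsCard γ.toZFSet ∨ HODReg γ) : Cf μ.toZFSet γ.toZFSet := by
  have hθγ := hB.le hθ hs
  rcases hor with h1 | h1
  · have h2 := hB.cof
    rwa [hB.card hω hθγ hs.1.le h1] at h2
  · exact hB.same γ hθγ hs.1.le h1

/-- Above `γ` there are no regular cardinals of `HOD` below the successor. -/
theorem HSucc.stat (hs : HSucc γ l) (hcf : Cf μ.toZFSet l.toZFSet) (hω : Ordinal.omega0 < μ)
    {S : Set Ordinal.{u}} (hS : StatL S l) : StatL {α | α ∈ S ∧ ¬ HODReg α} l :=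
  (stat_club hcf.lim hcf.uc hω hS (fun z hz => (mem_sep.1 hz).1)
    (club_tail hcf.lim hs.1)).mono fun α hα h3 =>
      ⟨h3.1, hs.2.2 α (tz_mem.1 (mem_sep.1 h3.2).2) hα⟩

theorem Block.stat {θ : Ordinal.{u}} (hB : Block ν μ θ l) (hθ : θ < l)
    (hcf : Cf μ.toZFSet l.toZFSet) (hω : Ordinal.omega0 < μ) {ν' : Ordinal.{u}} (hν' : ν' < μ)
    (hr : Rg ν') : StatL {α | Cf ν'.toZFSet α.toZFSet ∧ ¬ HODReg α} l := by
  have h2 : StatL {β | β.toZFSet ∈ SCf l.toZFSet ν'.toZFSet} l :=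
    stat_SCf hcf.uc le_rfl hν' hr
  refine (stat_club hcf.lim hcf.uc hω h2 (fun z hz => (mem_sep.1 hz).1)
    (club_tail hcf.lim hθ)).mono fun α hα h3 => ⟨(mem_SCf.1 h3.1).2, fun h4 => ?_⟩
  have h5 := hB.same α (tz_mem.1 (mem_sep.1 h3.2).2).le hα.le h4
  have h6 := Cf.unique h5 (mem_SCf.1 h3.1).2
  rw [h6] at hν'
  exact absurd hν' (lt_irrefl _)

/-- **Solovay's theorem in `HOD` for stationary sets of ordinals singular in `HOD`.** -/
theorem split_or_block (hreg : HODReg l) (hcf : Cf μ.toZFSet l.toZFSet)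
    (hω : Ordinal.omega0 < μ) (hν0 : 0 < ν) (hνμ : ν < μ) {S : ZFSet.{u}} (hSO : HOD S)
    (hSν : S ⊆ SCf l.toZFSet ν.toZFSet)
    (hst : StatL {α | α.toZFSet ∈ S ∧ ¬ HODReg α} l) :
    (∃ g, HOD g ∧ DisjFam l.toZFSet l.toZFSet S g) ∨ ∃ θ < l, Block ν μ θ l := by
  by_cases hno : ∃ g, HOD g ∧ DisjFam l.toZFSet l.toZFSet S g
  · exact Or.inl hno
  · obtain ⟨θ, hθ, hB, _⟩ := dichotomy hcf hω hν0 hνμ hreg le_rfl hSO hSν hno hst
    exact Or.inr ⟨θ, hθ, hB⟩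

/-- **The trichotomy.** -/
theorem trichotomy (hreg : HODReg l) (hcf : Cf μ.toZFSet l.toZFSet)
    (hω : Ordinal.omega0 < μ) :
    (∃ C, C ⊆ l.toZFSet ∧ Club C l.toZFSet ∧ ∀ α : Ordinal.{u}, α.toZFSet ∈ C → HODReg α) ∨
    (∃ g, HOD g ∧ DisjFam l.toZFSet l.toZFSet (SCf l.toZFSet Ordinal.omega0.toZFSet) g) ∨
    ∃ θ < l, Block Ordinal.omega0 μ θ l := by
  by_cases hst : StatL {α | Cf Ordinal.omega0.toZFSet α.toZFSet ∧ ¬ HODReg α} l
  · obtain ⟨S, hSO, hSν, hSm⟩ := sing_set l Ordinal.omega0_pos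
    rcases split_or_block hreg hcf hω Ordinal.omega0_pos hω hSO hSν (hst.mono fun α hα h =>
      ⟨(hSm α).2 ⟨hα, h⟩, h.2⟩) with ⟨g, hg, hF⟩ | h
    · exact Or.inr (Or.inl ⟨g, hg, hF.mono hSν⟩)
    · exact Or.inr (Or.inr h)
  · exact Or.inl (club_regs hcf hω hst)

/-- **Splitting below the successor cardinals of `HOD`.** -/
theorem split_succ (hor : IsCard γ.toZFSet ∨ HODReg γ) (hs : HSucc γ l)
    (hcf : Cf μ.toZFSet l.toZFSet) (hω : Ordinal.omega0 < μ) (hn : ¬ Cf μ.toZFSet γ.toZFSet)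
    (hν0 : 0 < ν) (hνμ : ν < μ) {S : ZFSet.{u}} (hSO : HOD S)
    (hSν : S ⊆ SCf l.toZFSet ν.toZFSet) (hst : StatL {α | α.toZFSet ∈ S} l) :
    ∃ g, HOD g ∧ DisjFam l.toZFSet l.toZFSet S g := by
  rcases split_or_block hs.2.1 hcf hω hν0 hνμ hSO hSν (hs.stat hcf hω hst) with h | ⟨θ, hθ, hB⟩
  · exact h
  · exact absurd (hB.eq hω hθ hs hor) hn

end Pool.Agent.H93.SC
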