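import Pool.Agent.H93.HM.Loc

/-!
Solovay's argument for ordinals of uncountable cofinality: long sequences in `HOD` of disjoint
stationary subsets of an ordinal of uncountable cofinality, of points of small cofinality, give the
covering property.
-/

set_option autoImplicit false
set_option linter.unusedVariables false

namespace Pool.Agent.H93.SC

open ZFSet Gss969 Pool.Agent.H310.HD Pool.Agent.H93.HM
open Pool.Agent.H310.HD.ExtData (ordB)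

universe u

/-- `l` is a limit ordinal of uncountable cofinality. -/
def UCof (l : ZFSet.{u}) : Prop :=
  l.IsOrdinal ∧ (∃ x ∈ l, x = x) ∧ (∀ x ∈ l, ∃ y ∈ l, x ∈ y) ∧ ¬ CofOm l

theorem dfn_UCof (a : ℕ) : Dfn Lvl.{u} (fun v => UCof (v a)) := by
  unfold UCof
  refine (dfn_ord Lvl_sub_Trs _).and (Dfn.and ?_ (Dfn.and ?_ (dfn_CofOm _).not))
  · exact Dfn.bex Lvl_sub_Trs _ (Dfn.eq _ _)
  · exact Dfn.ball Lvl_sub_Trs _ (Dfn.bex Lvl_sub_Trs _ (Dfn.mem _ _))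

theorem UCof.succ_lt {l x : Ordinal.{u}} (hl : UCof l.toZFSet) (hx : x < l) :
    Order.succ x < l := by
  obtain ⟨y, hy, hxy⟩ := hl.2.2.1 _ (tz_mem.2 hx)
  obtain ⟨y, hy', rfl⟩ := Ordinal.mem_toZFSet_iff.1 hy
  exact (Order.succ_le_of_lt (tz_mem.1 hxy)).trans_lt hy'

/-- The supremum of an increasing sequence. -/
theorem exists_supC {l : Ordinal.{u}} (hl : UCof l.toZFSet) {G : ℕ → Ordinal.{u}}
    (hG : ∀ n, G n < l) (hs : ∀ n, G n < G (n + 1)) :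
    ∃ α < l, (∀ n, G n < α) ∧ (∀ ξ < α, ∃ n, ξ < G n) ∧ CofOm α.toZFSet := by
  obtain ⟨α, hα, h1, h2⟩ := exists_sup' (κ := l) hl.2.2.2 hG hs
  refine ⟨α, hα, h1, h2, fn fun n => (G n).toZFSet, fn_func fun n => tz_mem.2 (h1 n), ?_⟩
  intro x hx
  obtain ⟨ξ, hξ, rfl⟩ := Ordinal.mem_toZFSet_iff.1 hx
  obtain ⟨n, hn⟩ := h2 ξ hξ
  exact ⟨nt n, nt_mem n, _, tz_mem.2 (h1 n), pair_fn.2 rfl, tz_mem.2 hn⟩

theorem Uc.ucof {l μ : Ordinal.{u}} (h0 : 0 < l) (hlim : ∀ x < l, Order.succ x < l) (h : Uc l μ)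
    (hμ : Ordinal.omega0 < μ) : UCof l.toZFSet := by
  refine ⟨isOrdinal_toZFSet _, ⟨_, tz_mem.2 h0, rfl⟩, fun x hx => ?_, ?_⟩
  · obtain ⟨ξ, hξ, rfl⟩ := Ordinal.mem_toZFSet_iff.1 hx
    exact ⟨_, tz_mem.2 (hlim ξ hξ), tz_mem.2 (Order.lt_succ ξ)⟩
  · rintro ⟨f, hf, hc⟩
    obtain ⟨b, hb, h1⟩ := h _ hμ (fun i => rank (app f i.toZFSet)) fun i hi => by
      obtain ⟨y, hy, hy'⟩ := Ordinal.mem_toZFSet_iff.1 (app_mem hf (show i.toZFSet ∈ om from by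
        unfold om; exact tz_mem.2 hi))
      rw [← hy', Ordinal.rank_toZFSet]
      exact hy
    obtain ⟨n, hn, y, hy, hny, hby⟩ := hc _ (tz_mem.2 hb)
    have hn' := hn
    unfold om at hn'
    obtain ⟨i, hi, rfl⟩ := Ordinal.mem_toZFSet_iff.1 hn'
    obtain ⟨y, hy', rfl⟩ := Ordinal.mem_toZFSet_iff.1 hy
    have h2 := h1 i hi
    rw [(app_iff hf hn).1 hny, Ordinal.rank_toZFSet] at h2
    exact absurd h2 (not_lt.2 (tz_mem.1 hby).le)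

variable {δ η θ τ : Ordinal.{u}} {j : ZFSet.{u} → ZFSet.{u}} {l μ k : Ordinal.{u}} {S : ZFSet.{u}}

/-- The images of stationary sets. -/
theorem stat_upC (D : ExtData δ η θ τ j) (hδ : V_ δ ∈ Lvl.{u}) (hl : UCof l.toZFSet)
    (hlη : l < η) (hμ : μ < δ) {L : Ordinal.{u}} (hL1 : ∀ x < l, rank (j x.toZFSet) < L)
    (hL2 : ∀ y < L, ∃ x < l, y < rank (j x.toZFSet)) {A : ZFSet.{u}} (hA : A ⊆ l.toZFSet)
    (hAst : Stat A l.toZFSet) (hAc : ∀ a ∈ A, CofN μ.toZFSet a) {C : ZFSet.{u}}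
    (hC : Club C L.toZFSet) : ∃ x < l, x.toZFSet ∈ A ∧ j x.toZFSet ∈ C := by
  have hω := D.om_lt hδ
  have hcl : ∀ {m x : Ordinal.{u}}, m < δ → x < l → 0 < x → CofN m.toZFSet x.toZFSet →
      (∀ y < x, ∃ z < x, y < z ∧ ∃ c : Ordinal.{u}, c.toZFSet ∈ C ∧ rank (j y.toZFSet) < c ∧
        c < rank (j z.toZFSet)) → j x.toZFSet ∈ C := by
    intro m x hm hx hx0 hc h
    rw [D.jJ (hx.trans hlη)]
    refine hC.2.2 _ (tz_mem.2 (hL1 x hx)) ?_ fun y hy => ?_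
    · exact ⟨_, tz_mem.2 ((D.J_lt (hx0.trans (hx.trans hlη)) (hx.trans hlη)).1 hx0), rfl⟩
    · obtain ⟨y, hy', rfl⟩ := Ordinal.mem_toZFSet_iff.1 hy
      obtain ⟨z, hz, h1⟩ := D.cont hm (hx.trans hlη) hc y hy'
      obtain ⟨z', hz', h2, c, h3, h4, h5⟩ := h z hz
      refine ⟨c.toZFSet, h3, tz_mem.2 (h5.trans ?_), tz_mem.2 (h1.trans h4)⟩
      exact (D.J_lt (hz'.trans (hx.trans hlη)) (hx.trans hlη)).1 hz'
  -- the preimage of `C` is unbounded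
  have hun : ∀ y < l, ∃ d < l, y < d ∧ j d.toZFSet ∈ C := by
    have step : ∀ x < l, ∃ x' < l, x < x' ∧ ∃ c : Ordinal.{u}, c.toZFSet ∈ C ∧
        rank (j x.toZFSet) < c ∧ c < rank (j x'.toZFSet) := by
      intro x hx
      obtain ⟨c, hc, hc'⟩ := hC.2.1 _ (tz_mem.2 (hL1 x hx))
      obtain ⟨γ, hγ, rfl⟩ := Ordinal.mem_toZFSet_iff.1 (hC.1 hc)
      obtain ⟨x', hx', h1⟩ := hL2 γ hγ
      have h2 := tz_mem.1 hc'
      exact ⟨x', hx', (D.J_lt (hx.trans hlη) (hx'.trans hlη)).2 (h2.trans h1), γ, hc, h2, h1⟩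
    choose! N hN1 hN2 c hc1 hc2 hc3 using step
    intro y hy
    let G : ℕ → Ordinal.{u} := fun n => Nat.rec y (fun _ γ => N γ) n
    have hG : ∀ n, G n < l := by
      intro n
      induction n with
      | zero => exact hy
      | succ n ih => exact hN1 _ ih
    obtain ⟨α, hα, h1, h2, h3⟩ := exists_supC hl hG fun n => hN2 _ (hG n)
    refine ⟨α, hα, h1 0, hcl (m := Ordinal.omega0) hω hα ((bot_le : (0 : Ordinal.{u}) ≤ y).trans_lt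
      (h1 0)) h3 fun z hz => ?_⟩
    obtain ⟨n, hn⟩ := h2 z hz
    refine ⟨G (n + 1), h1 (n + 1), hn.trans (hN2 _ (hG n)), c (G n), hc1 _ (hG n), ?_,
      hc3 _ (hG n)⟩
    exact ((D.J_lt (hz.trans (hα.trans hlη)) ((hG n).trans hlη)).1 hn).trans (hc2 _ (hG n))
  -- the limit points of the preimage
  have hclub : Club (ZFSet.sep (fun x => (∃ y ∈ x, y = y) ∧ ∀ y ∈ x, ∃ d ∈ x, y ∈ d ∧ j d ∈ C)
      l.toZFSet) l.toZFSet := by
    refine ⟨fun x hx => (mem_sep.1 hx).1, ?_, ?_⟩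
    · intro x hx
      obtain ⟨y, hy, rfl⟩ := Ordinal.mem_toZFSet_iff.1 hx
      choose! N hN1 hN2 hN3 using hun
      let G : ℕ → Ordinal.{u} := fun n => Nat.rec y (fun _ γ => N γ) n
      have hG : ∀ n, G n < l := by
        intro n
        induction n with
        | zero => exact hy
        | succ n ih => exact hN1 _ ih
      obtain ⟨α, hα, h1, h2, h3⟩ := exists_supC hl hG fun n => hN2 _ (hG n)
      refine ⟨α.toZFSet, mem_sep.2 ⟨tz_mem.2 hα, ⟨_, tz_mem.2 (h1 0), rfl⟩, fun z hz => ?_⟩,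
        tz_mem.2 (h1 0)⟩
      obtain ⟨z, hz', rfl⟩ := Ordinal.mem_toZFSet_iff.1 hz
      obtain ⟨n, hn⟩ := h2 z hz'
      exact ⟨(G (n + 1)).toZFSet, tz_mem.2 (h1 (n + 1)), tz_mem.2 (hn.trans (hN2 _ (hG n))),
        hN3 _ (hG n)⟩
    · intro a ha hne hlim
      refine mem_sep.2 ⟨ha, hne, fun y hy => ?_⟩
      obtain ⟨c, hc, hca, hyc⟩ := hlim y hy
      obtain ⟨d, hd, h1, h2⟩ := (mem_sep.1 hc).2.2 y hyc
      obtain ⟨α, hα, rfl⟩ := Ordinal.mem_toZFSet_iff.1 ha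
      exact ⟨d, (isOrdinal_toZFSet α).1.mem_trans hd hca, h1, h2⟩
  obtain ⟨x, hx, hx'⟩ := hAst _ (fun x hx => (mem_sep.1 hx).1) hclub
  obtain ⟨x, hxl, rfl⟩ := Ordinal.mem_toZFSet_iff.1 (hA hx)
  rw [mem_sep] at hx'
  obtain ⟨_, ⟨y0, hy0, _⟩, h1⟩ := hx'
  obtain ⟨y0, hy0', rfl⟩ := Ordinal.mem_toZFSet_iff.1 hy0
  refine ⟨x, hxl, hx, ?_⟩
  rw [D.jJ (hxl.trans hlη)]
  refine hC.2.2 _ (tz_mem.2 (hL1 x hxl)) ?_ fun y hy => ?_
  · have hx0 : 0 < x := (bot_le : (0 : Ordinal.{u}) ≤ y0).trans_lt hy0'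
    exact ⟨_, tz_mem.2 ((D.J_lt (hx0.trans (hxl.trans hlη)) (hxl.trans hlη)).1 hx0), rfl⟩
  · obtain ⟨y, hy', rfl⟩ := Ordinal.mem_toZFSet_iff.1 hy
    obtain ⟨z, hz, h2⟩ := D.cont hμ (hxl.trans hlη) (hAc _ hx) y hy'
    obtain ⟨d, hd, h3, h4⟩ := h1 _ (tz_mem.2 hz)
    obtain ⟨d, hd', rfl⟩ := Ordinal.mem_toZFSet_iff.1 hd
    have hdη := hd'.trans (hxl.trans hlη)
    refine ⟨_, h4, ?_, ?_⟩
    · rw [D.jJ hdη]
      exact tz_mem.2 ((D.J_lt hdη (hxl.trans hlη)).1 hd')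
    · rw [D.jJ hdη]
      exact tz_mem.2 (h2.trans ((D.J_lt (hz.trans (hxl.trans hlη)) hdη).1 (tz_mem.1 h3)))

/-- Every `ξ < j(k)` such that the `ξ`-th set of the image of the family is stationary in
`sup j[l]` is in the image of `k`. -/
theorem stat_downC (D : ExtData δ η θ τ j) (hδ : V_ δ ∈ Lvl.{u}) (hl : UCof l.toZFSet)
    (hlη : l < η) (hk : k < η) (hμ : μ < δ) {L : Ordinal.{u}}
    (hL1 : ∀ x < l, rank (j x.toZFSet) < L)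
    (hL2 : ∀ y < L, ∃ x < l, y < rank (j x.toZFSet)) (hS : Fam μ.toZFSet k.toZFSet l.toZFSet S)
    {ξ Z B : ZFSet.{u}} (hξ : ξ ∈ j k.toZFSet) (hZ : Stat Z L.toZFSet)
    (hB : B ⊆ j l.toZFSet) (hξB : pair ξ B ∈ j S) (hZB : ∀ z ∈ Z, z ∈ B) :
    ∃ i ∈ k.toZFSet, ξ = j i := by
  have hω := D.om_lt hδ
  have hμη := hμ.trans D.lt
  have hSη : S ∈ V_ η := Lvl_func D.E.lvl (ordB hk) (Lvl_powerset D.E.lvl (ordB hlη)) hS.1
  have hS' : Fam μ.toZFSet (j k.toZFSet) (j l.toZFSet) (j S) := by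
    have := (D.E.el.t4 D.E.lvl D.nl (A := fun a b c d => Fam a b c d) (dfn_Fam _ _ _ _)
      (ordB hμη) (ordB hk) (ordB hlη) hSη).1 hS
    rwa [D.fix μ hμ] at this
  -- the limit points of the image of `l`
  have hclub : Club (ZFSet.sep (fun c => (∃ y ∈ c, y = y) ∧ ∀ y ∈ c, ∃ x ∈ l.toZFSet,
      j x ∈ c ∧ y ∈ j x) L.toZFSet) L.toZFSet := by
    refine ⟨fun x hx => (mem_sep.1 hx).1, ?_, ?_⟩
    · intro y hy
      obtain ⟨y, hy', rfl⟩ := Ordinal.mem_toZFSet_iff.1 hy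
      obtain ⟨x, hx, hyx⟩ := hL2 y hy'
      let G : ℕ → Ordinal.{u} := fun n => Nat.rec x (fun _ γ => Order.succ γ) n
      have hG : ∀ n, G n < l := by
        intro n
        induction n with
        | zero => exact hx
        | succ n ih => exact hl.succ_lt ih
      obtain ⟨α, hα, h1, h2, h3⟩ := exists_supC hl hG fun n => Order.lt_succ _
      have hαη := hα.trans hlη
      have hxα : rank (j x.toZFSet) < rank (j α.toZFSet) := (D.J_lt (hx.trans hlη) hαη).1 (h1 0)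
      refine ⟨(rank (j α.toZFSet)).toZFSet, mem_sep.2 ⟨tz_mem.2 (hL1 α hα),
        ⟨_, tz_mem.2 hxα, rfl⟩, fun z hz => ?_⟩, tz_mem.2 (hyx.trans hxα)⟩
      obtain ⟨z, hz', rfl⟩ := Ordinal.mem_toZFSet_iff.1 hz
      obtain ⟨w, hw, h4⟩ := D.cont (μ := Ordinal.omega0) hω hαη h3 z hz'
      refine ⟨w.toZFSet, tz_mem.2 (hw.trans hα), ?_, ?_⟩
      · rw [D.jJ (hw.trans hαη)]
        exact tz_mem.2 ((D.J_lt (hw.trans hαη) hαη).1 hw)
      · rw [D.jJ (hw.trans hαη)]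
        exact tz_mem.2 h4
    · intro a ha hne hlim
      refine mem_sep.2 ⟨ha, hne, fun y hy => ?_⟩
      obtain ⟨c, hc, hca, hyc⟩ := hlim y hy
      obtain ⟨x, hx, h1, h2⟩ := (mem_sep.1 hc).2.2 y hyc
      obtain ⟨α, hα, rfl⟩ := Ordinal.mem_toZFSet_iff.1 ha
      exact ⟨x, hx, (isOrdinal_toZFSet α).1.mem_trans h1 hca, h2⟩
  obtain ⟨c, hcZ, hc⟩ := hZ _ (fun x hx => (mem_sep.1 hx).1) hclub
  rw [mem_sep] at hc
  obtain ⟨hcL, _, hlim⟩ := hc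
  obtain ⟨γ, hγ, rfl⟩ := Ordinal.mem_toZFSet_iff.1 hcL
  have hcB := hZB _ hcZ
  have hcof : CofN μ.toZFSet γ.toZFSet := (hS'.2.1 ξ hξ B hB hξB).2 _ hcB
  -- the least `x` with `γ ≤ j(x)`
  obtain ⟨x, ⟨hxl, hγx⟩, hmin⟩ := WellFounded.has_min (wellFounded_lt (α := Ordinal.{u}))
    {x | x < l ∧ γ ≤ rank (j x.toZFSet)} (by
      obtain ⟨x, hx, h1⟩ := hL2 γ hγ
      exact ⟨x, hx, h1.le⟩)
  have hxη := hxl.trans hlη
  have hlt : ∀ y < x, rank (j y.toZFSet) < γ := by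
    intro y hy
    by_contra hcon
    push Not at hcon
    exact hmin y ⟨hy.trans hxl, hcon⟩ hy
  have hγx' : γ = rank (j x.toZFSet) := by
    by_contra hne
    have h1 : γ < rank (j x.toZFSet) := lt_of_le_of_ne hγx hne
    obtain ⟨f, hf, hfc⟩ := hcof
    have h2 : ∀ n ∈ μ.toZFSet, ∃ w ∈ x.toZFSet, app f n ∈ j w ∧ j w ∈ γ.toZFSet := by
      intro n hn
      obtain ⟨w, hw, h3, h4⟩ := hlim _ (app_mem hf hn)
      obtain ⟨w, hw', rfl⟩ := Ordinal.mem_toZFSet_iff.1 hw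
      refine ⟨_, tz_mem.2 ?_, h4, h3⟩
      rw [D.jJ (hw'.trans hlη)] at h3
      exact (D.J_lt (hw'.trans hlη) hxη).2 ((tz_mem.1 h3).trans h1)
    choose! W hW1 hW2 hW3 using h2
    have h3 : CofN μ.toZFSet x.toZFSet := by
      refine ⟨gr μ.toZFSet W, isFunc_gr hW1, fun y hy => ?_⟩
      obtain ⟨y, hy', rfl⟩ := Ordinal.mem_toZFSet_iff.1 hy
      obtain ⟨n, hn, z, hz, h4, h5⟩ := hfc _ (tz_mem.2 (hlt y hy'))
      refine ⟨n, hn, W n, hW1 n hn, pair_mem_gr.2 ⟨hn, rfl⟩, ?_⟩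
      have h6 := hW2 n hn
      rw [(app_iff hf hn).1 h4] at h6
      obtain ⟨w, hw, hww⟩ := Ordinal.mem_toZFSet_iff.1 (hW1 n hn)
      rw [← hww] at h6 ⊢
      rw [D.jJ (hw.trans hxη)] at h6
      have h7 := (isOrdinal_toZFSet _).1.mem_trans h5 h6
      exact tz_mem.2 ((D.J_lt (hy'.trans hxη) (hw.trans hxη)).2 (tz_mem.1 h7))
    obtain ⟨z, hz, h4⟩ := D.cont hμ hxη h3 γ h1
    exact absurd (hlt z hz) (not_lt.2 h4.le)
  have hjx : j x.toZFSet = γ.toZFSet := by rw [hγx']; exact D.jJ hxη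
  -- `x` belongs to a member of the family
  have h4 := (D.E.el.t4 D.E.lvl D.nl (A := fun S k l x => ∃ i ∈ k, ∃ A, A ⊆ l ∧
    (pair i A ∈ S ∧ x ∈ A)) (by
      repeat' first
        | exact Dfn.mem _ _ | exact dfn_pm Lvl_sub_Trs _ _ _ | refine Dfn.and ?_ ?_
        | refine Dfn.exsub subset_rfl _ ?_ | refine Dfn.bex Lvl_sub_Trs _ ?_)
      hSη (ordB hk) (ordB hlη) (ordB hxη)).2
    ⟨ξ, hξ, B, hB, hξB, by rw [hjx]; exact hcB⟩
  obtain ⟨i, hi, A, hA, hiA, hxA⟩ := h4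
  refine ⟨i, hi, ?_⟩
  have hiη : i ∈ V_ η := D.E.bt.mem_trans hi (ordB hk)
  have hAη : A ∈ V_ η := Lvl_sub D.E.lvl (ordB hlη) hA
  have h5 : pair (j i) (j A) ∈ j S := by
    rw [← D.E.pair_eq hiη hAη]
    exact (D.E.mem_iff (Lvl_pair D.E.lvl hiη hAη) hSη).1 hiA
  exact hS'.2.2 ξ hξ (j i) ((D.E.mem_iff hiη (ordB hk)).1 hi) B hB (j A)
    ((D.E.sub_iff hAη (ordB hlη)).1 hA) hξB h5
    ⟨_, hcB, by rw [← hjx]; exact (D.E.mem_iff (ordB hxη) hAη).1 hxA⟩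

/-- **Covering.** -/
theorem coverC {δ : Ordinal.{u}} (hδ : Extendible δ) {α k μ l m : Ordinal.{u}} (hαk : α ≤ k)
    (hμ : μ < δ) (hl : UCof l.toZFSet) {S : ZFSet.{u}} (hSO : HOD S)
    (hS : Fam μ.toZFSet k.toZFSet l.toZFSet S) (hm : m < δ) (hα : CofN m.toZFSet α.toZFSet) :
    ∃ c < δ, ∃ g, HOD g ∧ IsFunc (Ordinal.toZFSet c) α.toZFSet g ∧
      ∀ y ∈ α.toZFSet, ∃ x ∈ (Ordinal.toZFSet c), ∃ z ∈ α.toZFSet, pair x z ∈ g ∧ y ∈ z := by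
  obtain ⟨γ, hγ⟩ := hSO.od
  obtain ⟨ζ, h1, hll, hζL⟩ := exists_limlim (max (max γ (rank S)) (max l k))
  obtain ⟨η, θ, τ, j, h5, D⟩ := hδ.data ζ
  have hδL := hδ.lim
  have hγζ : γ < ζ := ((le_max_left _ _).trans (le_max_left _ _)).trans_lt h1
  have hSζ : S ∈ V_ ζ := mem_vonNeumann.2 (((le_max_right _ _).trans (le_max_left _ _)).trans_lt h1)
  have hlζ : l < ζ := ((le_max_left _ _).trans (le_max_right _ _)).trans_lt h1
  have hkζ : k < ζ := ((le_max_right _ _).trans (le_max_right _ _)).trans_lt h1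
  have hαζ : α < ζ := hαk.trans_lt hkζ
  have hW : V_ ζ ∈ V_ η := vonNeumann_mem_vonNeumann_iff.2 h5
  have hlη := hlζ.trans h5
  have hkη := hkζ.trans h5
  have hαη := hαζ.trans h5
  have hSη : S ∈ V_ η := D.E.bt.mem_trans hSζ hW
  -- the image of `V_ζ`
  obtain ⟨ζ', hζ'⟩ : ∃ ζ' : Ordinal.{u}, ζ' = rank (j ζ.toZFSet) := ⟨_, rfl⟩
  have hζ'θ : ζ' < θ := by
    rw [hζ']
    exact mem_vonNeumann.1 (D.E.el.1 _ (ExtData.ordB h5))
  have hjW : j (V_ ζ) = V_ ζ' := by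
    have h := (D.E.jV hW).2
    rw [← hζ'] at h
    ext x
    rw [h x]
    exact ⟨fun h => h.1, fun h => ⟨h, vonNeumann_subset_of_le hζ'θ.le h⟩⟩
  have hLvl' : V_ ζ' ∈ Lvl.{u} := by
    have := (D.E.el.t1 D.E.lvl D.nl (A := fun a => a ∈ Lvl.{u}) (dfn_Lvl 0) hW).1 hζL
    rwa [hjW] at this
  have hll' : LimLim ζ' := by
    have h2 := (D.E.el.t1 D.E.lvl D.nl (A := fun a => ∀ x ∈ a, ∃ U ∈ a, U ∈ Lvl.{u} ∧ x ∈ U)
      (Dfn.ball Lvl_sub_Trs _ (Dfn.bex Lvl_sub_Trs _ ((dfn_Lvl _).and (Dfn.mem _ _)))) hW).1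
      (fun x hx => by
        obtain ⟨β, h2, h3, h4, h6⟩ := hll _ (mem_vonNeumann.1 hx)
        exact ⟨V_ β, vonNeumann_mem_vonNeumann_iff.2 h2, ⟨β, h6, h4, rfl⟩, mem_vonNeumann.2 h3⟩)
    rw [hjW] at h2
    intro ξ hξ
    obtain ⟨U, hU, ⟨β, h3, h4, rfl⟩, h6⟩ := h2 ξ.toZFSet (ExtData.ordB hξ)
    rw [mem_vonNeumann, Ordinal.rank_toZFSet] at h6
    exact ⟨β, vonNeumann_mem_vonNeumann_iff.1 hU, h6, h4, h3⟩
  have hmemJ : ∀ {x : ZFSet.{u}}, x ∈ V_ ζ → j x ∈ V_ ζ' := by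
    intro x hx
    rw [← hjW]
    exact (D.E.mem_iff (D.E.bt.mem_trans hx hW) hW).1 hx
  have hjl : rank (j l.toZFSet) < ζ' := mem_vonNeumann.1 (hmemJ (ExtData.ordB hlζ))
  have hjα : rank (j α.toZFSet) < ζ' := mem_vonNeumann.1 (hmemJ (ExtData.ordB hαζ))
  have hαζ' : α < ζ' := (D.le_J hαη).trans_lt hjα
  obtain ⟨L, hL1, hL2, hL3⟩ := D.exists_lam' (fun x hx => hl.succ_lt hx) hlη
  -- `j(S)` is ordinal definable
  have hjS : ∃ β < ζ', ODat (V_ β) (j S) := by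
    have h2 := (D.E.el.t2 D.E.lvl D.nl (A := fun W S => ∃ U ∈ W, Lev U ∧ ODat U S)
      (Dfn.bex Lvl_sub_Trs _ ((dfn_lev _).and (dfn_ODat _ _))) hW hSη).1
      ⟨V_ γ, vonNeumann_mem_vonNeumann_iff.2 hγζ, ⟨γ, rfl⟩, hγ⟩
    rw [hjW] at h2
    obtain ⟨U, hU, ⟨β, rfl⟩, h3⟩ := h2
    exact ⟨β, vonNeumann_mem_vonNeumann_iff.1 hU, h3⟩
  -- the set `j[α]`
  obtain ⟨A, hA⟩ : ∃ A : ZFSet.{u}, A = ZFSet.sep (fun ξ => Rec ξ (j S) L.toZFSet (j l.toZFSet))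
    (j α.toZFSet) := ⟨_, rfl⟩
  have hAk : ∀ ξ, ξ ∈ A ↔ ξ ∈ j α.toZFSet ∧ Rec ξ (j S) L.toZFSet (j l.toZFSet) := by
    intro ξ; rw [hA, mem_sep]
  have hαkz : α.toZFSet ⊆ k.toZFSet := by
    intro x hx
    obtain ⟨x, hx', rfl⟩ := Ordinal.mem_toZFSet_iff.1 hx
    exact tz_mem.2 (hx'.trans_le hαk)
  have hαV : α.toZFSet ∈ V_ η := ExtData.ordB hαη
  have hA' : ∀ ξ, ξ ∈ A ↔ ∃ i ∈ α.toZFSet, ξ = j i := by
    intro ξ
    rw [hAk]
    constructor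
    · rintro ⟨h2, Z, hZL, hZ, B, hB, hξB, hZB⟩
      have h3 : ξ ∈ j k.toZFSet := (D.E.sub_iff hαV (ExtData.ordB hkη)).1 hαkz h2
      obtain ⟨i, hi, rfl⟩ := stat_downC D hδL hl hlη hkη hμ hL1 hL2 hS h3 hZ hB hξB hZB
      exact ⟨i, (D.E.mem_iff (D.E.bt.mem_trans hi (ExtData.ordB hkη)) hαV).2 h2, rfl⟩
    · rintro ⟨i, hi, rfl⟩
      have hiη : i ∈ V_ η := D.E.bt.mem_trans hi hαV
      have hik := hαkz hi
      have hB := mem_powerset.1 (app_mem hS.1 hik)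
      have hBη : app S i ∈ V_ η := Lvl_sub D.E.lvl (ExtData.ordB hlη) hB
      have hiB := app_spec hS.1 hik
      refine ⟨(D.E.mem_iff hiη hαV).1 hi, ZFSet.sep (fun z => z ∈ j (app S i)) L.toZFSet,
        fun z hz => (mem_sep.1 hz).1, ?_, j (app S i),
        (D.E.sub_iff hBη (ExtData.ordB hlη)).1 hB, ?_, fun z hz => (mem_sep.1 hz).2⟩
      · intro C hC1 hC2
        obtain ⟨x, hx, h2, h3⟩ := stat_upC D hδL hl hlη hμ hL1 hL2 hB (hS.2.1 i hik _ hB hiB).1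
          (hS.2.1 i hik _ hB hiB).2 hC2
        exact ⟨_, mem_sep.2 ⟨hC1 h3, (D.E.mem_iff (ExtData.ordB (hx.trans hlη)) hBη).1 h2⟩, h3⟩
      · rw [← D.E.pair_eq hiη hBη]
        exact (D.E.mem_iff (Lvl_pair D.E.lvl hiη hBη) hSη).1 hiB
  -- the restriction of `j` to `α`
  have hjαe : j α.toZFSet = (rank (j α.toZFSet)).toZFSet := D.jJ hαη
  obtain ⟨g, hg⟩ : ∃ g : ZFSet.{u}, g = gr α.toZFSet (fun x => j x) := ⟨_, rfl⟩
  have hgf : IsFunc α.toZFSet (rank (j α.toZFSet)).toZFSet g := by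
    rw [hg, ← hjαe]
    exact isFunc_gr fun x hx => (D.E.mem_iff (D.E.bt.mem_trans hx hαV) hαV).1 hx
  have hEn : Enum g A α.toZFSet (rank (j α.toZFSet)).toZFSet := by
    refine ⟨hgf, ?_, ?_, ?_⟩
    · intro i hi a _ hia
      rw [hg, pair_mem_gr] at hia
      rw [← hia.2]
      exact (hA' _).2 ⟨i, hi, rfl⟩
    · intro i hi i' hi' a _ b _ hia hib
      rw [hg, pair_mem_gr] at hia hib
      rw [← hia.2, ← hib.2]
      exact (D.E.mem_iff (D.E.bt.mem_trans hib.1 hαV) (D.E.bt.mem_trans hi hαV)).1 hi'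
    · intro i hi a _ hia b hb hbA
      rw [hg, pair_mem_gr] at hia
      rw [← hia.2] at hb
      obtain ⟨i', hi', rfl⟩ := (hA' b).1 hbA
      refine ⟨i', (D.E.mem_iff (D.E.bt.mem_trans hi' hαV) (D.E.bt.mem_trans hi hαV)).2 hb, ?_⟩
      rw [hg, pair_mem_gr]
      exact ⟨hi', rfl⟩
  have hgOD : ∃ β < ζ', ODat (V_ β) g := by
    refine OD_of' (R := fun y x => ∃ A, A ⊆ x 2 ∧ (((∀ ξ ∈ A, Rec ξ (x 0) (x 3) (x 4)) ∧
        ∀ ξ ∈ x 2, Rec ξ (x 0) (x 3) (x 4) → ξ ∈ A) ∧ Enum y A (x 5) (x 2)))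
      (x := asg (j S) (j S) (rank (j α.toZFSet)).toZFSet L.toZFSet
        (rank (j l.toZFSet)).toZFSet α.toZFSet) ?_ hll' hjS hjS
      (asg_ord (isOrdinal_toZFSet _) (isOrdinal_toZFSet _) (isOrdinal_toZFSet _)
        (isOrdinal_toZFSet _))
      (ρ := max (rank (j α.toZFSet)) (max (rank (j l.toZFSet)) α))
      (max_lt hjα (max_lt hjl hαζ')) ?_ ?_ fun y => ?_
    · refine Dfn.exsub subset_rfl _ (Dfn.and (Dfn.and ?_ ?_) (dfn_Enum _ _ _ _))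
      · exact Dfn.ball Lvl_sub_Trs _ (dfn_Rec _ _ _ _)
      · exact Dfn.ball Lvl_sub_Trs _ ((dfn_Rec _ _ _ _).imp (Dfn.mem _ _))
    · intro i
      rcases i with _ | i
      · show rank (rank (j α.toZFSet)).toZFSet ≤ _
        rw [Ordinal.rank_toZFSet]
        exact le_max_left _ _
      rcases i with _ | i
      · show rank L.toZFSet ≤ _
        rw [Ordinal.rank_toZFSet]
        exact hL3.trans ((le_max_left _ _).trans (le_max_right _ _))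
      rcases i with _ | i
      · show rank (rank (j l.toZFSet)).toZFSet ≤ _
        rw [Ordinal.rank_toZFSet]
        exact (le_max_left _ _).trans (le_max_right _ _)
      · show rank α.toZFSet ≤ _
        rw [Ordinal.rank_toZFSet]
        exact (le_max_right _ _).trans (le_max_right _ _)
    · exact mem_vonNeumann.1 (Lvl_func hLvl' (ExtData.ordB hαζ') (ExtData.ordB hjα) hgf)
    · show (∃ A, A ⊆ (rank (j α.toZFSet)).toZFSet ∧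
        (((∀ ξ ∈ A, Rec ξ (j S) L.toZFSet (rank (j l.toZFSet)).toZFSet) ∧
          ∀ ξ ∈ (rank (j α.toZFSet)).toZFSet, Rec ξ (j S) L.toZFSet
            (rank (j l.toZFSet)).toZFSet → ξ ∈ A) ∧
          Enum y A α.toZFSet (rank (j α.toZFSet)).toZFSet)) ↔ _
      have hjle : j l.toZFSet = (rank (j l.toZFSet)).toZFSet := D.jJ hlη
      have hAk' : ∀ ξ, ξ ∈ A ↔ ξ ∈ (rank (j α.toZFSet)).toZFSet ∧
          Rec ξ (j S) L.toZFSet (rank (j l.toZFSet)).toZFSet := by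
        intro ξ
        rw [← hjαe, ← hjle]
        exact hAk ξ
      constructor
      · rintro ⟨A', h2, ⟨h3, h4⟩, h6⟩
        have : A' = A := by
          ext ξ
          rw [hAk']
          exact ⟨fun h => ⟨h2 h, h3 ξ h⟩, fun h => h4 ξ h.1 h.2⟩
        rw [this] at h6
        exact h6.unique hEn
      · rintro rfl
        exact ⟨A, fun ξ h => ((hAk' ξ).1 h).1, ⟨fun ξ h => ((hAk' ξ).1 h).2,
          fun ξ h2 h3 => (hAk' ξ).2 ⟨h2, h3⟩⟩, hEn⟩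
  obtain ⟨β, hβ, hgβ⟩ := hgOD
  have hcov : CovB (V_ ζ) δ.toZFSet α.toZFSet := by
    refine (D.E.el.t3 D.E.lvl D.nl (A := fun a b c => CovB a b c) (dfn_CovB _ _ _) hW D.dB hαV).2 ?_
    rw [hjW, D.jd]
    refine ⟨α.toZFSet, tz_mem.2 (hαη.trans D.ητ), g, ?_, ⟨V_ β,
      vonNeumann_mem_vonNeumann_iff.2 hβ, ⟨β, rfl⟩, hgβ⟩, ?_⟩
    · rw [hjαe]; exact hgf
    · intro y hy
      rw [hjαe] at hy
      obtain ⟨y, hy', rfl⟩ := Ordinal.mem_toZFSet_iff.1 hy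
      obtain ⟨z, hz, h2⟩ := D.cont hm hαη hα y hy'
      refine ⟨z.toZFSet, tz_mem.2 hz, j z.toZFSet, ?_, ?_, ?_⟩
      · exact (D.E.mem_iff (ExtData.ordB (hz.trans hαη)) hαV).1 (tz_mem.2 hz)
      · rw [hg, pair_mem_gr]; exact ⟨tz_mem.2 hz, rfl⟩
      · rw [D.jJ (hz.trans hαη)]; exact tz_mem.2 h2
  obtain ⟨c, hc, f, hf, ⟨U, _, ⟨β', rfl⟩, hU⟩, hcof⟩ := hcov
  obtain ⟨c, hc', rfl⟩ := Ordinal.mem_toZFSet_iff.1 hc
  refine ⟨c, hc', f, HOD_of_sub ⟨β', hU⟩ fun p hp => ?_, hf, hcof⟩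
  obtain ⟨a, ha, b, hb, rfl⟩ := mem_prod.1 (hf.1 hp)
  obtain ⟨a, _, rfl⟩ := Ordinal.mem_toZFSet_iff.1 ha
  obtain ⟨b, _, rfl⟩ := Ordinal.mem_toZFSet_iff.1 hb
  exact HOD_pair (HOD_ord a) (HOD_ord b)

end Pool.Agent.H93.SC
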