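import Pool.Agent.H93.SC.UCov
import Pool.Agent.H93.HM.Ext

/-!
If alternative (A) fails above an extendible cardinal `δ`, then for each `ν < δ` there is a bound
below `δ` for the length of the sequences in `HOD` of disjoint stationary sets of ordinals of
cofinality `ν`, for all ordinals of uncountable cofinality.
-/

set_option autoImplicit false
set_option linter.unusedVariables false

namespace Pool.Agent.H93.SC

open ZFSet Gss969 Pool.Agent.H310.HD Pool.Agent.H93.HM Pool.Agent.Results.MP_e37c09_lc.AlternativeA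

universe u

/-- For each `k ∈ d` there are `l ∈ W` of uncountable cofinality and `S ∈ W` in `HOD` which is a
sequence of length `k` of disjoint stationary subsets of `l` of points of small cofinality. -/
def AllFamC (W d m : ZFSet.{u}) : Prop :=
  ∀ k ∈ d, ∃ l ∈ W, UCof l ∧ ∃ S, HODin W S ∧ Fam m k l S

theorem dfn_AllFamC (a b c : ℕ) : Dfn Lvl.{u} (fun v => AllFamC (v a) (v b) (v c)) := by
  unfold AllFamC
  refine Dfn.ball Lvl_sub_Trs _ (Dfn.bex Lvl_sub_Trs _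
    (Dfn.and (dfn_UCof _) (Dfn.ex ?_ ?_)))
  · exact (dfn_HODin _ _).and (dfn_Fam _ _ _ _)
  · rintro U hU v hv ⟨S, h1, h2⟩
    exact ⟨S, Lvl_func hU (hv 1) (Lvl_powerset hU (hv 0)) h2.1, h1, h2⟩

/-- If `HOD` has for all `k < δ` sequences of length `k` of disjoint stationary subsets of some
`l`, then there are arbitrarily long such sequences. -/
theorem familiesC {δ : Ordinal.{u}} (hδ : Extendible δ) {μ : Ordinal.{u}} (hμ : μ < δ)
    (h : ∀ k < δ, ∃ l : Ordinal.{u}, UCof (Ordinal.toZFSet l) ∧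
      ∃ S, HOD S ∧ Fam μ.toZFSet (Ordinal.toZFSet k) l.toZFSet S)
    (k₀ : Ordinal.{u}) : ∃ l' : Ordinal.{u}, UCof l'.toZFSet ∧
      ∃ S, HOD S ∧ Fam μ.toZFSet k₀.toZFSet l'.toZFSet S := by
  classical
  choose! l hl2 S hS1 hS2 using h
  have hev : ∀ k : Ordinal.{u}, k < δ → ∃ β : Ordinal.{u}, ∀ ζ ≥ β, HODin (V_ ζ) (S k) :=
    fun k hk => (hS1 k hk).eventually
  choose! B hB using hev
  obtain ⟨β, hβ⟩ : ∃ β : Ordinal.{u}, ∀ k < δ, B k ≤ β ∧ l k < β := by
    refine ⟨⨆ w : {w // w ∈ δ.toZFSet}, max (B (rank w.1)) (Order.succ (l (rank w.1))),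
      fun k hk => ?_⟩
    have h1 := Ordinal.le_iSup (fun w : {w // w ∈ δ.toZFSet} =>
      max (B (rank w.1)) (Order.succ (l (rank w.1)))) ⟨k.toZFSet, tz_mem.2 hk⟩
    simp only [Ordinal.rank_toZFSet] at h1
    exact ⟨(le_max_left _ _).trans h1, (Order.lt_succ _).trans_le ((le_max_right _ _).trans h1)⟩
  obtain ⟨η, θ, τ, j, h1, D⟩ := hδ.data (max β k₀)
  have hβη : β < η := (le_max_left _ _).trans_lt h1
  have hkη : k₀ < η := (le_max_right _ _).trans_lt h1
  have hW : V_ β ∈ V_ η := vonNeumann_mem_vonNeumann_iff.2 hβη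
  have h2 : AllFamC (V_ β) δ.toZFSet μ.toZFSet := by
    intro k hk
    obtain ⟨k, hk', rfl⟩ := Ordinal.mem_toZFSet_iff.1 hk
    exact ⟨(l k).toZFSet, ExtData.ordB (hβ k hk').2, hl2 k hk', S k,
      hB k hk' β (hβ k hk').1, hS2 k hk'⟩
  have h3 := (D.E.el.t3 D.E.lvl D.nl (A := fun a b c => AllFamC a b c) (dfn_AllFamC 0 1 2)
    hW D.dB (ExtData.ordB (hμ.trans D.lt))).1 h2
  rw [D.jd, D.fix μ hμ] at h3
  obtain ⟨l', _, hl', S', hS', hF⟩ := h3 k₀.toZFSet (tz_mem.2 (hkη.trans D.ητ))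
  refine ⟨rank l', ?_, S', hS'.hod, ?_⟩
  · rw [hl'.1.toZFSet_rank_eq]; exact hl'
  · rw [hl'.1.toZFSet_rank_eq]; exact hF

/-- **No long families if (A) fails.** -/
theorem noSplitC {δ : Ordinal.{u}} (hδ : Extendible δ) (hA : ¬ AltA δ) {μ : Ordinal.{u}}
    (hμ : μ < δ) : ∃ c : Cardinal.{u}, Cardinal.aleph0 ≤ c ∧ c.ord < δ ∧
      ∀ l : Ordinal.{u}, UCof l.toZFSet →
        ¬ ∃ g, HOD g ∧ DisjFam c.ord.toZFSet l.toZFSet (SCf l.toZFSet μ.toZFSet) g := by
  have h1 : ∃ k < δ, ∀ l : Ordinal.{u}, UCof (Ordinal.toZFSet l) →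
      ¬ ∃ S, HOD S ∧ Fam μ.toZFSet (Ordinal.toZFSet k) l.toZFSet S := by
    by_contra hcon
    push Not at hcon
    refine hA (((result true δ hδ).out 0 7).2 ?_)
    intro α m hm hα
    obtain ⟨l, hl, S, hS, hF⟩ := familiesC hδ hμ (fun k hk => by
      obtain ⟨l, h3, S, h4, h5⟩ := hcon k hk
      exact ⟨l, h3, S, h4, h5⟩) α
    exact coverC hδ le_rfl hμ hl hS hF hm hα
  obtain ⟨k, hk, h2⟩ := h1
  obtain ⟨c, hc⟩ : ∃ c : Cardinal.{u}, c = (2 : Cardinal.{u}) ^ max Cardinal.aleph0 k.card :=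
    ⟨_, rfl⟩
  have hlt : max Cardinal.aleph0 k.card < c := by
    rw [hc]
    exact Cardinal.cantor _
  have hkc : k < c.ord := by
    rw [Cardinal.lt_ord]
    exact (le_max_right _ _).trans_lt hlt
  refine ⟨c, ((le_max_left _ _).trans_lt hlt).le, ?_, fun l hl => ?_⟩
  · rw [hc]
    refine Extendible.strongLimit hδ _ ?_
    rcases le_total Cardinal.aleph0 k.card with h3 | h3
    · rw [max_eq_right h3]
      exact (Cardinal.ord_card_le k).trans_lt hk
    · rw [max_eq_left h3, Cardinal.ord_aleph0]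
      exact hδ.om_lt
  · rintro ⟨g, hg, hF⟩
    exact h2 l hl (DisjFam.fam hkc.le hg hF)

end Pool.Agent.H93.SC
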